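import Pool.Agent.H37.REG.Skew

/-!
# The box lemma in skew coordinates, assembly

Module REG (regularity of closed labels), step 4.
-/

set_option autoImplicit false

namespace Pool.REG

open Finset Real
open Pool.Agent.H49.Ent Pool.Agent.H32.Dense Pool.STK Pool.KAL

/-- The affine change of variables. -/
noncomputable def aff {n : ℕ} (e : Fin n → Fin n → ℝ) (M c : ℝ) (k : Fin n) :
    MvPolynomial (Fin n) ℝ :=
  ∑ i, MvPolynomial.C ((Matrix.of fun i j => e j i)⁻¹ k i * M) * MvPolynomial.X i +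
    MvPolynomial.C c

lemma eval_aff {n : ℕ} (e : Fin n → Fin n → ℝ) (M c : ℝ) (k : Fin n) (y : Fin n → ℝ) :
    MvPolynomial.eval y (aff e M c k) = cc e (fun i => M * y i) k + c := by
  unfold aff cc
  rw [map_add, MvPolynomial.eval_C, map_sum]
  congr 1
  refine Finset.sum_congr rfl fun i _ => ?_
  rw [map_mul, MvPolynomial.eval_C, MvPolynomial.eval_X]
  ring

lemma totalDegree_aff {n : ℕ} (e : Fin n → Fin n → ℝ) (M c : ℝ) (k : Fin n) :
    (aff e M c k).totalDegree ≤ 1 := by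
  unfold aff
  refine (MvPolynomial.totalDegree_add _ _).trans (max_le ?_ ?_)
  · refine MvPolynomial.totalDegree_finsetSum_le fun i _ => ?_
    refine (MvPolynomial.totalDegree_mul _ _).trans ?_
    rw [MvPolynomial.totalDegree_C, MvPolynomial.totalDegree_X]
  · rw [MvPolynomial.totalDegree_C]
    exact Nat.zero_le _

/-- Substitution of affine functions. -/
lemma totalDegree_bind {n : ℕ} (e : Fin n → Fin n → ℝ) (M c : ℝ) (Q : MvPolynomial (Fin n) ℝ) :
    (MvPolynomial.bind₁ (aff e M c) Q).totalDegree ≤ Q.totalDegree := by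
  classical
  have h1 : MvPolynomial.bind₁ (aff e M c) Q = ∑ α ∈ Q.support,
      MvPolynomial.C (MvPolynomial.coeff α Q) * ∏ i ∈ α.support, aff e M c i ^ α i := by
    show MvPolynomial.aeval (aff e M c) Q = _
    rw [MvPolynomial.aeval_def, MvPolynomial.eval₂_eq]
    rfl
  rw [h1]
  refine MvPolynomial.totalDegree_finsetSum_le fun α hα => ?_
  refine (MvPolynomial.totalDegree_mul _ _).trans ?_
  rw [MvPolynomial.totalDegree_C, zero_add]
  refine (MvPolynomial.totalDegree_finsetProd _ _).trans ?_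
  refine le_trans ?_ (MvPolynomial.le_totalDegree hα)
  rw [Finsupp.sum]
  refine Finset.sum_le_sum fun i _ => ?_
  refine (MvPolynomial.totalDegree_pow _ _).trans ?_
  calc α i * (aff e M c i).totalDegree ≤ α i * 1 :=
        Nat.mul_le_mul_left _ (totalDegree_aff e M c i)
    _ = α i := mul_one _

lemma eval_bind {n : ℕ} (e : Fin n → Fin n → ℝ) (M c : ℝ) (Q : MvPolynomial (Fin n) ℝ)
    (y : Fin n → ℝ) : MvPolynomial.eval y (MvPolynomial.bind₁ (aff e M c) Q) =
      MvPolynomial.eval (fun k => cc e (fun i => M * y i) k + c) Q := by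
  rw [← MvPolynomial.coe_aeval_eq_eval, ← MvPolynomial.coe_aeval_eq_eval, RingHom.coe_coe,
    RingHom.coe_coe, MvPolynomial.aeval_bind₁]
  have e1 : (fun i => MvPolynomial.aeval y (aff e M c i)) =
      fun k => cc e (fun i => M * y i) k + c := by
    funext k
    have := eval_aff e M c k y
    rwa [← MvPolynomial.coe_aeval_eq_eval, RingHom.coe_coe] at this
  rw [e1]

lemma inv_pow_div (c x : ℝ) (k : ℕ) : 1 / (x ^ k / c) = c * (1 / x) ^ k := by
  rw [one_div, inv_div, one_div, inv_pow, div_eq_mul_inv]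

lemma pow_mul_inv_pow {x : ℝ} (hx : 0 < x) (c : ℝ) (k : ℕ) : x ^ k * (c * (1 / x) ^ k) = c := by
  have : x ^ k * (1 / x) ^ k = 1 := by
    rw [← mul_pow, mul_one_div_cancel hx.ne', one_pow]
  calc x ^ k * (c * (1 / x) ^ k) = c * (x ^ k * (1 / x) ^ k) := by ring
    _ = c := by rw [this, mul_one]

theorem skew_box (n d : ℕ) (C₁ C₂ : ℝ) (hC₁ : 1 ≤ C₁) (hC₂ : 1 ≤ C₂) :
    ∃ (K : ℝ) (m : ℕ), 1 ≤ K ∧ ∀ (M : ℕ) (i₀ : Fin n) (e : Fin n → Fin n → ℝ)
      (X : Finset (Fin n → ℤ)) (f : (Fin n → ℤ) → ℝ) (ν : Fin n → (Fin n → ℤ) → (Fin n → ℤ))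
      (P : Fin n → (Fin n → ℤ) → Polynomial ℝ) (ρ s E₀ Λ : ℝ),
      0 < M → 0 < ρ → ρ ≤ 1 → 0 < s → s ≤ 1 → 0 ≤ E₀ → 0 ≤ Λ → K ≤ (ρ * s) ^ m * M →
      (∀ j i, |e j i| ≤ C₁) → (∀ j, e j i₀ = 1) →
      s ^ n ≤ |(Matrix.of fun i j => e j i).det| →
      (∀ γ ∈ X, ∀ i, 0 ≤ γ i ∧ γ i ≤ M) →
      (∀ γ ∈ X, ∀ j i, |(ν j γ i : ℝ) - (γ i - γ i₀ * e j i)| ≤ C₂) →
      (∀ γ ∈ X, ∀ j, (P j (ν j γ)).natDegree ≤ d ∧
        |f γ - (P j (ν j γ)).eval ((γ i₀ : ℝ) / M)| ≤ E₀ ∧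
        ∀ t t' : ℝ, |t| ≤ 2 → |t'| ≤ 2 →
          |(P j (ν j γ)).eval t - (P j (ν j γ)).eval t'| ≤ Λ * |t - t'|) →
      (∀ γ ∈ X, |f γ| ≤ 1) → ρ * (M : ℝ) ^ n ≤ X.card →
      ∃ Q : MvPolynomial (Fin n) ℝ, Q.totalDegree ≤ n * d ∧ ∃ X' ⊆ X,
        (ρ * s) ^ m * (M : ℝ) ^ n ≤ K * X'.card ∧
        ∀ γ ∈ X', ∀ y : Fin n → ℝ, (∀ i, |M * y i - γ i| ≤ C₂) →
          |f γ - MvPolynomial.eval y Q| ≤ K * (1 / (ρ * s)) ^ m * (E₀ + (Λ + 1) / M) := by
  classical
  obtain ⟨Cb, hCb, hbox⟩ := box_thm bxc_thm bxi_thm n d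
  obtain ⟨Cr, hCr, hrmn⟩ := rmn_thm rmg_thm n d
  obtain ⟨Cl, hCl, hlip⟩ := lip n (n * d)
  have hCb' : (1 : ℝ) ≤ Cb := by exact_mod_cast hCb
  have hCr' : (1 : ℝ) ≤ Cr := by exact_mod_cast hCr
  have hn0 : (0 : ℝ) ≤ n := Nat.cast_nonneg n
  set a₁ : ℝ := n.factorial * C₁ ^ n with ha₁
  have ha₁1 : 1 ≤ a₁ := by
    have h1 : (1 : ℝ) ≤ n.factorial := by exact_mod_cast Nat.one_le_iff_ne_zero.2 n.factorial_ne_zero
    have h2 : (1 : ℝ) ≤ C₁ ^ n := one_le_pow₀ hC₁
    rw [ha₁]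
    nlinarith
  set a₂ : ℝ := n * a₁ + 2 with ha₂
  have ha₂1 : 1 ≤ a₂ := by
    have : 0 ≤ n * a₁ := by positivity
    linarith
  set L : ℕ := ⌈n * C₁⌉₊ + 1 with hL
  set L' : ℕ := ⌈2 * n * C₁ + 2 * C₂⌉₊ + 1 with hL'
  set Kc : ℕ := L ^ n * (L' ^ n) ^ n with hKc
  have hKc1 : (1 : ℝ) ≤ Kc := by
    have : 0 < Kc := by
      rw [hKc]
      positivity
    exact_mod_cast this
  set a₃ : ℝ := Kc * (3 * a₂) ^ n with ha₃
  have ha₃1 : 1 ≤ a₃ := by
    have h2 : (1 : ℝ) ≤ (3 * a₂) ^ n := one_le_pow₀ (by linarith)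
    rw [ha₃]
    nlinarith
  set k₁ : ℕ := n * n + 1 with hk₁
  set a₄ : ℝ := Cb * a₃ ^ Cb with ha₄
  have ha₄1 : 1 ≤ a₄ := by
    have h2 : (1 : ℝ) ≤ a₃ ^ Cb := one_le_pow₀ ha₃1
    rw [ha₄]
    nlinarith
  set k₂ : ℕ := k₁ * Cb with hk₂
  set a₅ : ℝ := Cl * C₂ * Cr * (2 * a₄) ^ Cr with ha₅
  have ha₅0 : 0 ≤ a₅ := by positivity
  set a₆ : ℝ := Cr * a₄ ^ Cr with ha₆
  have ha₆0 : 0 ≤ a₆ := by positivity
  refine ⟨1 + n + C₂ + a₄ + a₆ + (2 * n * a₄ + a₅), k₂ * Cr + k₂, ?_, ?_⟩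
  · have : 0 ≤ (n : ℝ) * a₄ := by positivity
    linarith
  intro M i₀ e X f ν P ρ s E₀ Λ hM hρ hρ1 hs hs1 hE₀ hΛ hK hB htime hdet hX hν hP hf hcard
  have hn : 0 < n := i₀.pos
  have hn1 : (1 : ℝ) ≤ n := by exact_mod_cast hn
  have hM' : (0 : ℝ) < M := by exact_mod_cast hM
  set y : ℝ := 1 / (ρ * s) with hy
  have hρs : 0 < ρ * s := mul_pos hρ hs
  have hρs1 : ρ * s ≤ 1 := by nlinarith
  have hy1 : 1 ≤ y := by
    rw [hy, le_div_iff₀ hρs, one_mul]
    exact hρs1
  set m : ℕ := k₂ * Cr + k₂ with hm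
  set K : ℝ := 1 + n + C₂ + a₄ + a₆ + (2 * n * a₄ + a₅) with hKdef
  have hK0 : 0 ≤ K := by
    have : 0 ≤ (n : ℝ) * a₄ := by positivity
    rw [hKdef]
    linarith
  -- the size of `M`
  have hKM : K * y ^ m ≤ M := by
    have h1 : (ρ * s) ^ m * y ^ m = 1 := by
      rw [← mul_pow, hy, mul_one_div_cancel hρs.ne', one_pow]
    calc K * y ^ m ≤ ((ρ * s) ^ m * M) * y ^ m :=
          mul_le_mul_of_nonneg_right hK (by positivity)
      _ = ((ρ * s) ^ m * y ^ m) * M := by ring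
      _ = M := by rw [h1, one_mul]
  have hpow : ∀ j ≤ m, ∀ c : ℝ, 0 ≤ c → c ≤ K → c * y ^ j ≤ M := by
    intro j hj c hc0 hc
    refine le_trans ?_ hKM
    exact mul_le_mul hc (pow_le_pow_right₀ hy1 hj) (by positivity) hK0
  have hna : 0 ≤ (n : ℝ) * a₄ := by positivity
  have hMn : (n : ℝ) ≤ M := by
    have := hpow 0 (Nat.zero_le _) n hn0 (by rw [hKdef]; linarith)
    simpa using this
  have hMC : C₂ ≤ M := by
    have := hpow 0 (Nat.zero_le _) C₂ (by linarith) (by rw [hKdef]; linarith)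
    simpa using this
  -- the grid
  set R : ℕ := ⌈n * (a₁ / s ^ n)⌉₊ + 1 with hR
  have hR1 : (1 : ℝ) ≤ R := by
    rw [hR]
    push_cast
    have : (0 : ℝ) ≤ ⌈n * (a₁ / s ^ n)⌉₊ := Nat.cast_nonneg _
    linarith
  have hRge : n * (a₁ / s ^ n) ≤ R := by
    rw [hR]
    push_cast
    have := Nat.le_ceil (n * (a₁ / s ^ n))
    linarith
  have hRle : (R : ℝ) ≤ a₂ / s ^ n := by
    have h1 := Nat.ceil_lt_add_one (a := n * (a₁ / s ^ n)) (by positivity)
    have h2 : (1 : ℝ) ≤ 1 / s ^ n := by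
      rw [le_div_iff₀ (pow_pos hs n), one_mul]
      exact pow_le_one₀ hs.le hs1
    have h3 : a₂ / s ^ n = n * (a₁ / s ^ n) + 2 * (1 / s ^ n) := by
      rw [ha₂]
      ring
    rw [hR]
    push_cast
    linarith
  have hsg := skew_grid (C₂ := C₂) hC₁ (M := M) i₀ e hs hB htime
    hdet X hX ν hν R L L' hRge (by
      rw [hL]
      push_cast
      have := Nat.le_ceil (n * C₁)
      linarith) (by
      rw [hL']
      push_cast
      have := Nat.le_ceil (2 * n * C₁ + 2 * C₂)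
      linarith) (by rw [hL]; omega) (by rw [hL']; omega)
  obtain ⟨N', hN'⟩ : ∃ N' : ℕ, N' = 2 * R * M + 1 := ⟨_, rfl⟩
  rw [← hKc, ← hN'] at hsg
  obtain ⟨X₁, g, hX₁, hcol, hinj, hg, hline⟩ := hsg
  have hN'r : (N' : ℝ) = 2 * R * M + 1 := by
    rw [hN']
    push_cast
    ring
  have hM1 : (1 : ℝ) ≤ M := by exact_mod_cast hM
  have hRM : (1 : ℝ) ≤ R * M := by nlinarith
  have hN'le : (N' : ℝ) ≤ 3 * R * M := by
    rw [hN'r]
    linarith
  have hN'M : (M : ℝ) ≤ N' := by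
    rw [hN'r]
    nlinarith
  have hN'0 : (0 : ℝ) < N' := by linarith
  set σ : ℝ := ρ / (Kc * (3 * R) ^ n) with hσ
  have hσ0 : 0 < σ := by positivity
  have hσ1 : σ ≤ 1 := by
    rw [hσ, div_le_one (by positivity)]
    have : (1 : ℝ) ≤ (3 * R) ^ n := one_le_pow₀ (by linarith)
    nlinarith
  have hyρ : 1 / ρ ≤ y := by
    rw [hy]
    refine one_div_le_one_div_of_le hρs ?_
    nlinarith
  have hys : 1 / s ≤ y := by
    rw [hy]
    refine one_div_le_one_div_of_le hρs ?_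
    nlinarith
  have hσinv : 1 / σ ≤ a₃ * y ^ k₁ := by
    have h1 : (3 * R : ℝ) ^ n ≤ (3 * a₂) ^ n * y ^ (n * n) := by
      have h2 : (3 * R : ℝ) ≤ 3 * a₂ * (1 / s) ^ n := by
        rw [one_div, inv_pow, ← div_eq_mul_inv]
        have : 3 * a₂ / s ^ n = 3 * (a₂ / s ^ n) := by ring
        rw [this]
        linarith
      calc (3 * R : ℝ) ^ n ≤ (3 * a₂ * (1 / s) ^ n) ^ n :=
            pow_le_pow_left₀ (by positivity) h2 n
        _ = (3 * a₂) ^ n * (1 / s) ^ (n * n) := by rw [mul_pow, ← pow_mul]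
        _ ≤ (3 * a₂) ^ n * y ^ (n * n) := by
          refine mul_le_mul_of_nonneg_left ?_ (by positivity)
          exact pow_le_pow_left₀ (by positivity) hys _
    calc 1 / σ = Kc * (3 * R) ^ n * (1 / ρ) := by
          rw [hσ]
          field_simp
      _ ≤ Kc * ((3 * a₂) ^ n * y ^ (n * n)) * y := by
          refine mul_le_mul (mul_le_mul_of_nonneg_left h1 (by positivity)) hyρ (by positivity)
            (by positivity)
      _ = a₃ * y ^ k₁ := by
          rw [ha₃, hk₁, pow_succ]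
          ring
  set ρ' : ℝ := σ ^ Cb / Cb with hρ'
  have hρ'0 : 0 < ρ' := by positivity
  have hρ'1 : ρ' ≤ 1 := by
    rw [hρ', div_le_one (by positivity)]
    exact (pow_le_one₀ hσ0.le hσ1).trans hCb'
  have hρ'inv : 1 / ρ' ≤ a₄ * y ^ k₂ := by
    calc 1 / ρ' = Cb * (1 / σ) ^ Cb := inv_pow_div _ _ _
      _ ≤ Cb * (a₃ * y ^ k₁) ^ Cb := by
          refine mul_le_mul_of_nonneg_left ?_ (by positivity)
          exact pow_le_pow_left₀ (by positivity) hσinv _
      _ = a₄ * y ^ k₂ := by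
          rw [mul_pow, ← pow_mul, ha₄, hk₂]
          ring
  have hCbeq : Cb * (1 / σ) ^ Cb = 1 / ρ' := (inv_pow_div _ _ _).symm
  -- the function on the grid
  set fb : (Fin n → Fin N') → ℝ := fun z =>
    if h : ∃ γ ∈ X₁, g γ = z then f h.choose else 0 with hfb
  have hfbg : ∀ γ ∈ X₁, fb (g γ) = f γ := by
    intro γ hγ
    have h : ∃ γ' ∈ X₁, g γ' = g γ := ⟨γ, hγ, rfl⟩
    simp only [hfb]
    rw [dif_pos h]
    congr 1
    exact hinj (Finset.mem_coe.2 h.choose_spec.1) (Finset.mem_coe.2 hγ) h.choose_spec.2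
  set Xb : Finset (Fin n → Fin N') := X₁.image g with hXb
  have hXbcard : Xb.card = X₁.card := Finset.card_image_of_injOn hinj
  -- the time of a point
  have htm : ∀ γ ∈ X₁, |(γ i₀ : ℝ) / M - ((∑ k, ((g γ k : ℕ) : ℝ)) - n * (R * M)) / M| ≤ n / M := by
    intro γ hγ
    have hdne : (Matrix.of fun i j => e j i).det ≠ 0 :=
      abs_pos.1 (lt_of_lt_of_le (pow_pos hs n) hdet)
    have e2 := cc_sum hdne (fun i => (γ i : ℝ)) i₀
    simp only [htime, mul_one] at e2
    have h1 : ∑ k, ((g γ k : ℕ) : ℝ) ≤ (γ i₀ : ℝ) + n * (R * M) := by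
      have h2 : ∑ k, ((g γ k : ℕ) : ℝ) ≤ ∑ k, (cc e (fun i => (γ i : ℝ)) k + R * M) :=
        Finset.sum_le_sum fun k _ => (hg γ hγ k).1
      rw [Finset.sum_add_distrib, e2, Finset.sum_const, Finset.card_univ, Fintype.card_fin,
        nsmul_eq_mul] at h2
      exact h2
    have h3 : (γ i₀ : ℝ) + n * (R * M) ≤ ∑ k, ((g γ k : ℕ) : ℝ) + n := by
      have h2 : ∑ k, (cc e (fun i => (γ i : ℝ)) k + R * M) ≤ ∑ k, (((g γ k : ℕ) : ℝ) + 1) :=
        Finset.sum_le_sum fun k _ => (hg γ hγ k).2.le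
      rw [Finset.sum_add_distrib, Finset.sum_add_distrib, e2, Finset.sum_const, Finset.sum_const,
        Finset.card_univ, Fintype.card_fin, nsmul_eq_mul, nsmul_eq_mul, mul_one] at h2
      exact h2
    rw [← sub_div, abs_div, abs_of_pos hM']
    refine div_le_div_of_nonneg_right ?_ hM'.le
    rw [abs_le]
    constructor <;> linarith
  have hEb0 : 0 ≤ E₀ + Λ * (n / M) := by positivity
  obtain ⟨Q', hQ', Xb', hXb', hcard', herr⟩ := hbox N' Xb fb σ (E₀ + Λ * (n / M)) hσ0 hσ1 hEb0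
    (by
      have h1 : Cb * (1 / σ) ^ Cb ≤ N' := by
        rw [hCbeq]
        refine (hρ'inv.trans ?_).trans hN'M
        refine hpow k₂ (by rw [hm]; omega) a₄ (by linarith) ?_
        rw [hKdef]
        linarith
      calc (Cb : ℝ) = σ ^ Cb * (Cb * (1 / σ) ^ Cb) := (pow_mul_inv_pow hσ0 _ _).symm
        _ ≤ σ ^ Cb * N' := mul_le_mul_of_nonneg_left h1 (by positivity)) (by
      rw [hXbcard]
      have h1 : (N' : ℝ) ^ n ≤ (3 * R) ^ n * M ^ n := by
        rw [← mul_pow]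
        exact pow_le_pow_left₀ hN'0.le hN'le n
      have h2 : ρ * (M : ℝ) ^ n ≤ Kc * X₁.card := hcard.trans hcol
      calc σ * (N' : ℝ) ^ n ≤ σ * ((3 * R) ^ n * M ^ n) := mul_le_mul_of_nonneg_left h1 hσ0.le
        _ = ρ * (M : ℝ) ^ n / Kc := by
          rw [hσ]
          field_simp
        _ ≤ X₁.card := by
          rw [div_le_iff₀ (by positivity), mul_comm (X₁.card : ℝ)]
          exact h2) (by
      intro i z
      by_cases hex : ∃ y, Function.update z i y ∈ Xb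
      · obtain ⟨ys, hys'⟩ := hex
        rw [hXb, Finset.mem_image] at hys'
        obtain ⟨γs, hγs, hγsz⟩ := hys'
        set c₀ : ℝ := ((∑ k ∈ univ.erase i, ((z k : ℕ) : ℝ)) - n * (R * M)) / M with hc₀
        refine ⟨(P i (ν i γs)).comp (Polynomial.C (1 / (M : ℝ)) * Polynomial.X + Polynomial.C c₀),
          ?_, ?_⟩
        · refine Polynomial.natDegree_comp_le.trans ?_
          have h1 : (Polynomial.C (1 / (M : ℝ)) * Polynomial.X + Polynomial.C c₀).natDegree ≤ 1 :=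
            Polynomial.natDegree_linear_le
          calc _ ≤ d * 1 := Nat.mul_le_mul (hP γs (hX₁ hγs) i).1 h1
            _ = d := mul_one d
        · intro y hy'
          rw [hXb, Finset.mem_image] at hy'
          obtain ⟨γ, hγ, hγz⟩ := hy'
          rw [← hγz, hfbg γ hγ]
          have hνeq : ν i γs = ν i γ := by
            refine hline γs hγs γ hγ i fun k hk => ?_
            rw [hγsz, hγz, Function.update_of_ne hk, Function.update_of_ne hk]
          rw [hνeq, Polynomial.eval_comp]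
          simp only [Polynomial.eval_add, Polynomial.eval_mul, Polynomial.eval_C,
            Polynomial.eval_X]
          have hsum : 1 / (M : ℝ) * ((y : ℕ) : ℝ) + c₀ =
              ((∑ k, ((g γ k : ℕ) : ℝ)) - n * (R * M)) / M := by
            rw [hc₀, ← Finset.add_sum_erase _ _ (Finset.mem_univ i)]
            have e1 : g γ i = y := by rw [hγz, Function.update_self]
            have e3 : ∑ k ∈ univ.erase i, ((g γ k : ℕ) : ℝ) =
                ∑ k ∈ univ.erase i, ((z k : ℕ) : ℝ) := by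
              refine Finset.sum_congr rfl fun k hk => ?_
              rw [hγz, Function.update_of_ne (Finset.ne_of_mem_erase hk)]
            rw [e1, e3]
            ring
          rw [hsum]
          obtain ⟨_, h2, h3⟩ := hP γ (hX₁ hγ) i
          have h4 := htm γ hγ
          have h5 : |(γ i₀ : ℝ) / M| ≤ 1 := by
            have h6 := hX γ (hX₁ hγ) i₀
            have h7 : (0 : ℝ) ≤ γ i₀ := by exact_mod_cast h6.1
            have h8 : (γ i₀ : ℝ) ≤ M := by exact_mod_cast h6.2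
            rw [abs_of_nonneg (by positivity), div_le_one hM']
            exact h8
          have h9 : (n : ℝ) / M ≤ 1 := by
            rw [div_le_one hM']
            exact hMn
          have h10 := h3 ((γ i₀ : ℝ) / M) (((∑ k, ((g γ k : ℕ) : ℝ)) - n * (R * M)) / M)
            (by linarith) (by
              rw [abs_le] at h4 h5 ⊢
              constructor <;> linarith [h4.1, h4.2, h5.1, h5.2])
          have h11 : Λ * |(γ i₀ : ℝ) / M - ((∑ k, ((g γ k : ℕ) : ℝ)) - n * (R * M)) / M| ≤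
              Λ * (n / M) := mul_le_mul_of_nonneg_left h4 hΛ
          have h12 := abs_sub_le (f γ) ((P i (ν i γ)).eval ((γ i₀ : ℝ) / M))
            ((P i (ν i γ)).eval (((∑ k, ((g γ k : ℕ) : ℝ)) - n * (R * M)) / M))
          linarith
      · push Not at hex
        refine ⟨0, by simp, fun y hy' => absurd hy' (hex y)⟩)
  set S : ℝ := 1 / ρ' with hS
  have hS0 : 0 < S := by positivity
  rw [hCbeq] at herr
  set Eb : ℝ := E₀ + Λ * (n / M) with hEb
  -- boundedness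
  have hone : ∀ x ∈ Xb', |fb x| ≤ 1 := by
    intro x hx
    obtain ⟨γ, hγ, rfl⟩ := Finset.mem_image.1 (hXb' hx)
    rw [hfbg γ hγ]
    exact hf γ (hX₁ hγ)
  have hbd := hrmn N' Q' ρ' 2 (1 + S * Eb) hQ' hρ'0 hρ'1 (by
      have h1 : Cr * S ^ Cr ≤ N' := by
        have h2 : S ^ Cr ≤ a₄ ^ Cr * y ^ (k₂ * Cr) := by
          calc S ^ Cr ≤ (a₄ * y ^ k₂) ^ Cr := pow_le_pow_left₀ hS0.le hρ'inv _
            _ = a₄ ^ Cr * y ^ (k₂ * Cr) := by rw [mul_pow, ← pow_mul]
        have h3 := hpow (k₂ * Cr) (by rw [hm]; omega) a₆ ha₆0 (by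
          rw [hKdef]
          linarith)
        calc Cr * S ^ Cr ≤ Cr * (a₄ ^ Cr * y ^ (k₂ * Cr)) :=
              mul_le_mul_of_nonneg_left h2 (by positivity)
          _ = a₆ * y ^ (k₂ * Cr) := by rw [ha₆]; ring
          _ ≤ M := h3
          _ ≤ N' := hN'M
      calc (Cr : ℝ) = ρ' ^ Cr * (Cr * (1 / ρ') ^ Cr) := (pow_mul_inv_pow hρ'0 _ _).symm
        _ ≤ ρ' ^ Cr * N' := mul_le_mul_of_nonneg_left h1 (by positivity)) (by norm_num)
    (by positivity) (by
      have h1 : ρ' * (N' : ℝ) ^ n ≤ Xb'.card := by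
        rw [hρ', div_mul_eq_mul_div, div_le_iff₀ (by positivity), mul_comm (Xb'.card : ℝ)]
        exact hcard'
      refine h1.trans ?_
      exact_mod_cast Finset.card_le_card fun x hx => by
        rw [Finset.mem_filter]
        refine ⟨Finset.mem_univ _, ?_⟩
        have h2 := herr x hx
        have h3 := hone x hx
        rw [abs_le] at h2 h3 ⊢
        constructor <;> linarith [h2.1, h2.2, h3.1, h3.2])
  have hE1 : (0 : ℝ) ≤ S * Eb := by positivity
  set T₀ : ℝ := a₅ * y ^ (k₂ * Cr) with hT₀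
  have hT₀0 : 0 ≤ T₀ := by positivity
  have hT₀M : T₀ / M ≤ 1 := by
    rw [div_le_one hM']
    refine hpow (k₂ * Cr) (by rw [hm]; omega) a₅ ha₅0 ?_
    rw [hKdef]
    linarith
  have hsup : Cl * (C₂ / M) * (Cr * (2 / ρ') ^ Cr * (1 + S * Eb)) ≤ T₀ / M * (1 + S * Eb) := by
    have h1 : (2 / ρ') ^ Cr ≤ (2 * a₄) ^ Cr * y ^ (k₂ * Cr) := by
      calc (2 / ρ') ^ Cr = (2 * S) ^ Cr := by
            rw [hS]
            ring
        _ ≤ (2 * (a₄ * y ^ k₂)) ^ Cr :=
            pow_le_pow_left₀ (by positivity) (by linarith) _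
        _ = (2 * a₄) ^ Cr * y ^ (k₂ * Cr) := by
            rw [← mul_assoc, mul_pow, ← pow_mul]
    have h2 : Cl * (C₂ / M) * (Cr * (2 / ρ') ^ Cr) ≤ T₀ / M := by
      calc Cl * (C₂ / M) * (Cr * (2 / ρ') ^ Cr) ≤
            Cl * (C₂ / M) * (Cr * ((2 * a₄) ^ Cr * y ^ (k₂ * Cr))) := by
            refine mul_le_mul_of_nonneg_left ?_ (by positivity)
            exact mul_le_mul_of_nonneg_left h1 (by positivity)
        _ = T₀ / M := by
            rw [hT₀, ha₅]
            ring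
    calc Cl * (C₂ / M) * (Cr * (2 / ρ') ^ Cr * (1 + S * Eb)) =
          Cl * (C₂ / M) * (Cr * (2 / ρ') ^ Cr) * (1 + S * Eb) := by ring
      _ ≤ T₀ / M * (1 + S * Eb) := mul_le_mul_of_nonneg_right h2 (by positivity)
  refine ⟨MvPolynomial.bind₁ (aff e M (R * M)) Q',
    (totalDegree_bind e M (R * M) Q').trans (totalDegree_le Q' hQ'),
    X₁.filter (fun γ => g γ ∈ Xb'), (Finset.filter_subset _ _).trans hX₁, ?_, ?_⟩
  · have h1 : (Xb'.card : ℝ) ≤ (X₁.filter (fun γ => g γ ∈ Xb')).card := by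
      have h2 : Xb' ⊆ (X₁.filter (fun γ => g γ ∈ Xb')).image g := by
        intro x hx
        obtain ⟨γ, hγ, rfl⟩ := Finset.mem_image.1 (hXb' hx)
        exact Finset.mem_image_of_mem _ (Finset.mem_filter.2 ⟨hγ, hx⟩)
      exact_mod_cast (Finset.card_le_card h2).trans Finset.card_image_le
    have h3 : (M : ℝ) ^ n ≤ a₄ * y ^ k₂ * (X₁.filter (fun γ => g γ ∈ Xb')).card := by
      have h4 : (N' : ℝ) ^ n ≤ S * Xb'.card := by
        have h5 : σ ^ Cb / Cb * (N' : ℝ) ^ n ≤ Xb'.card := by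
          rw [div_mul_eq_mul_div, div_le_iff₀ (by positivity), mul_comm (Xb'.card : ℝ)]
          exact hcard'
        rw [← hρ'] at h5
        calc (N' : ℝ) ^ n = S * (ρ' * (N' : ℝ) ^ n) := by
              rw [hS, ← mul_assoc, one_div_mul_cancel hρ'0.ne', one_mul]
          _ ≤ S * Xb'.card := mul_le_mul_of_nonneg_left h5 hS0.le
      calc (M : ℝ) ^ n ≤ (N' : ℝ) ^ n := pow_le_pow_left₀ hM'.le hN'M n
        _ ≤ S * Xb'.card := h4
        _ ≤ a₄ * y ^ k₂ * (X₁.filter (fun γ => g γ ∈ Xb')).card :=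
          mul_le_mul hρ'inv h1 (Nat.cast_nonneg _) (by positivity)
    have h6 : (ρ * s) ^ m * y ^ k₂ ≤ 1 := by
      have h7 : (ρ * s) ^ m * y ^ m = 1 := by
        rw [← mul_pow, hy, mul_one_div_cancel hρs.ne', one_pow]
      calc (ρ * s) ^ m * y ^ k₂ ≤ (ρ * s) ^ m * y ^ m :=
            mul_le_mul_of_nonneg_left (pow_le_pow_right₀ hy1 (by rw [hm]; omega)) (by positivity)
        _ = 1 := h7
    have h8 : a₄ ≤ K := by
      rw [hKdef]
      linarith
    calc (ρ * s) ^ m * (M : ℝ) ^ n ≤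
          (ρ * s) ^ m * (a₄ * y ^ k₂ * (X₁.filter (fun γ => g γ ∈ Xb')).card) :=
          mul_le_mul_of_nonneg_left h3 (by positivity)
      _ = (ρ * s) ^ m * y ^ k₂ * (a₄ * (X₁.filter (fun γ => g γ ∈ Xb')).card) := by ring
      _ ≤ 1 * (a₄ * (X₁.filter (fun γ => g γ ∈ Xb')).card) :=
          mul_le_mul_of_nonneg_right h6 (by positivity)
      _ = a₄ * (X₁.filter (fun γ => g γ ∈ Xb')).card := one_mul _
      _ ≤ K * (X₁.filter (fun γ => g γ ∈ Xb')).card :=
          mul_le_mul_of_nonneg_right h8 (Nat.cast_nonneg _)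
  · intro γ hγ v hv
    rw [Finset.mem_filter] at hγ
    obtain ⟨hγ1, hγ2⟩ := hγ
    rw [eval_bind]
    have hclose : ∀ k, |(cc e (fun i => M * v i) k + R * M) - ((g γ k : ℕ) : ℝ)| ≤
        R * C₂ + 1 := by
      intro k
      have h1 := cc_le hC₁ hs hB hdet (fun i => M * v i - γ i) hv k
      rw [cc_sub] at h1
      have h2 := hg γ hγ1 k
      have h3 : n * (a₁ / s ^ n) * C₂ ≤ R * C₂ :=
        mul_le_mul_of_nonneg_right hRge (by linarith)
      have h4 := h1.trans h3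
      rw [abs_le] at h4 ⊢
      constructor <;> linarith [h4.1, h4.2, h2.1, h2.2]
    have hl := hlip Q' (fun k => ((g γ k : ℕ) : ℝ)) (fun k => cc e (fun i => M * v i) k + R * M)
      N' (R * C₂ + 1) (Cr * (2 / ρ') ^ Cr * (1 + S * Eb)) (totalDegree_le Q' hQ') hN'0
      (by positivity) (by
        rw [hN'r]
        have h1 : (R : ℝ) * C₂ ≤ R * M := mul_le_mul_of_nonneg_left hMC (by positivity)
        linarith) (by
        intro z hz
        refine hbd z fun i => ?_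
        have h1 := hz i
        have h2 : (0 : ℝ) ≤ ((g γ i : ℕ) : ℝ) := Nat.cast_nonneg _
        have h3 : ((g γ i : ℕ) : ℝ) ≤ N' := by exact_mod_cast (g γ i).2.le
        rw [abs_le] at h1 ⊢
        constructor <;> linarith [h1.1, h1.2]) hclose
    have hratio : (R * C₂ + 1) / N' ≤ C₂ / M := by
      rw [div_le_div_iff₀ hN'0 hM', hN'r]
      have : (M : ℝ) ≤ R * M * C₂ := by
        calc (M : ℝ) = 1 * M * 1 := by ring
          _ ≤ R * M * C₂ := by
            refine mul_le_mul (mul_le_mul_of_nonneg_right hR1 hM'.le) hC₂ zero_le_one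
              (by positivity)
      linarith
    have h5 := hl.trans (mul_le_mul_of_nonneg_right (mul_le_mul_of_nonneg_left hratio hCl)
      (by positivity))
    have h6 := h5.trans hsup
    have h7 := herr (g γ) hγ2
    rw [hfbg γ hγ1] at h7
    have h8 := abs_sub_le (f γ) (MvPolynomial.eval (fun i => ((g γ i : ℕ) : ℝ)) Q')
      (MvPolynomial.eval (fun k => cc e (fun i => M * v i) k + R * M) Q')
    rw [abs_sub_comm (MvPolynomial.eval (fun i => ((g γ i : ℕ) : ℝ)) Q')] at h8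
    have h9 : T₀ / M * (1 + S * Eb) ≤ T₀ / M + S * Eb := by
      have := mul_le_mul_of_nonneg_right hT₀M hE1
      linarith
    have h10 : S * Eb + (T₀ / M + S * Eb) ≤ (2 * n * S + T₀) * (E₀ + (Λ + 1) / M) := by
      have hE : Eb ≤ n * (E₀ + Λ / M) := by
        rw [hEb]
        have h11 : Λ * (n / M) = n * (Λ / M) := by ring
        have h12 : 1 * E₀ ≤ n * E₀ := mul_le_mul_of_nonneg_right hn1 hE₀
        rw [h11]
        linarith
      have hE2 : E₀ + Λ / M ≤ E₀ + (Λ + 1) / M := by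
        have : Λ / M ≤ (Λ + 1) / M := div_le_div_of_nonneg_right (by linarith) hM'.le
        linarith
      have hE3 : 1 / M ≤ E₀ + (Λ + 1) / M := by
        have : 1 / (M : ℝ) ≤ (Λ + 1) / M := div_le_div_of_nonneg_right (by linarith) hM'.le
        linarith
      have hE4 : Eb ≤ n * (E₀ + (Λ + 1) / M) := hE.trans (mul_le_mul_of_nonneg_left hE2 hn0)
      have h11 := mul_le_mul_of_nonneg_left hE4 hS0.le
      have h12 := mul_le_mul_of_nonneg_left hE3 hT₀0
      have h13 : T₀ / M = T₀ * (1 / M) := by ring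
      rw [h13]
      linarith
    have h14 : 2 * n * S + T₀ ≤ K * y ^ m := by
      have h15 : y ^ k₂ ≤ y ^ m := pow_le_pow_right₀ hy1 (by rw [hm]; omega)
      have h16 : y ^ (k₂ * Cr) ≤ y ^ m := pow_le_pow_right₀ hy1 (by rw [hm]; omega)
      calc 2 * n * S + T₀ ≤ 2 * n * (a₄ * y ^ m) + a₅ * y ^ m := by
            refine add_le_add ?_ (mul_le_mul_of_nonneg_left h16 ha₅0)
            refine mul_le_mul_of_nonneg_left ?_ (by positivity)
            exact hρ'inv.trans (mul_le_mul_of_nonneg_left h15 (by linarith))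
        _ = (2 * n * a₄ + a₅) * y ^ m := by ring
        _ ≤ K * y ^ m := by
            refine mul_le_mul_of_nonneg_right ?_ (by positivity)
            rw [hKdef]
            linarith
    have h17 : 0 ≤ E₀ + (Λ + 1) / M := by positivity
    calc |f γ - MvPolynomial.eval (fun k => cc e (fun i => M * v i) k + R * M) Q'| ≤
          S * Eb + (T₀ / M + S * Eb) := by linarith
      _ ≤ (2 * n * S + T₀) * (E₀ + (Λ + 1) / M) := h10
      _ ≤ K * y ^ m * (E₀ + (Λ + 1) / M) := mul_le_mul_of_nonneg_right h14 h17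

end Pool.REG
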