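import Pool.Agent.H20.KAL.TAY
import Pool.Agent.H10.KAL.SVP
import Pool.Agent.H33.KAL.RMG

/-!
# Lipschitz bounds for polynomials

Module REG (regularity of closed labels).
-/

set_option autoImplicit false

namespace Pool.REG

open Finset Real
open Pool.Agent.H49.Ent Pool.Agent.H32.Dense Pool.STK Pool.KAL

/-- Lipschitz bound at a point, from a bound on a box. -/
lemma lip (n D : ℕ) : ∃ C : ℝ, 0 ≤ C ∧ ∀ (Q : MvPolynomial (Fin n) ℝ) (g y : Fin n → ℝ)
    (h r M : ℝ), Q.totalDegree ≤ D → 0 < h → 0 ≤ r → r ≤ h →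
    (∀ z : Fin n → ℝ, (∀ i, |z i - g i| ≤ h) → |MvPolynomial.eval z Q| ≤ M) →
    (∀ i, |y i - g i| ≤ r) →
    |MvPolynomial.eval y Q - MvPolynomial.eval g Q| ≤ C * (r / h) * M := by
  obtain ⟨C, hC, hT⟩ := tay_thm n D 0
  refine ⟨2 * C, by positivity, ?_⟩
  intro Q g y h r M hQ hh hr hrh hM hy
  set R : MvPolynomial (Fin n) ℝ := shf Q h g - MvPolynomial.C (MvPolynomial.eval g Q) with hR
  have hev : ∀ u : Fin n → ℝ, MvPolynomial.eval u R =
      MvPolynomial.eval (fun i => g i + h * u i) Q - MvPolynomial.eval g Q := by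
    intro u
    rw [hR, map_sub, eval_shf, MvPolynomial.eval_C]
  have hdeg : R.totalDegree ≤ D := by
    rw [hR]
    refine (MvPolynomial.totalDegree_sub _ _).trans ?_
    rw [MvPolynomial.totalDegree_C]
    exact max_le ((totalDegree_shf_le Q h g).trans hQ) (Nat.zero_le _)
  have hcoef : ∀ α : Fin n →₀ ℕ, α.degree ≤ 0 → MvPolynomial.coeff α R = 0 := by
    intro α hα
    have h0 : α = 0 := by
      have h1 : α.degree = 0 := Nat.le_zero.1 hα
      rwa [Finsupp.degree_eq_zero_iff] at h1
    rw [h0]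
    have h1 := hev (fun _ => 0)
    rw [MvPolynomial.eval_zero'] at h1
    · have e1 : (fun i => g i + h * (0 : ℝ)) = g := by
        funext i
        ring
      rw [e1, sub_self] at h1
      rwa [MvPolynomial.constantCoeff_eq] at h1
  have hM0 : 0 ≤ M := (abs_nonneg _).trans (hM g fun i => by simp [hh.le])
  have hsup : ∀ u : Fin n → ℝ, (∀ i, |u i| ≤ 1) → |MvPolynomial.eval u R| ≤ 2 * M := by
    intro u hu
    rw [hev]
    have h1 := hM (fun i => g i + h * u i) fun i => by
      rw [add_sub_cancel_left, abs_mul, abs_of_pos hh]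
      have := mul_le_mul_of_nonneg_left (hu i) hh.le
      linarith
    have h2 := hM g fun i => by simp [hh.le]
    have h3 := abs_sub (MvPolynomial.eval (fun i => g i + h * u i) Q) (MvPolynomial.eval g Q)
    linarith
  have h4 := hT R (r / h) (2 * M) hdeg hcoef (by positivity) (by rw [div_le_one hh]; exact hrh)
    hsup (fun i => (y i - g i) / h) (fun i => by
      rw [abs_div, abs_of_pos hh]
      exact div_le_div_of_nonneg_right (hy i) hh.le)
  rw [hev] at h4
  have e2 : (fun i => g i + h * ((y i - g i) / h)) = y := by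
    funext i
    field_simp
    ring
  rw [e2, zero_add, pow_one] at h4
  linarith

/-- Remez and Lipschitz bound in one variable. -/
lemma lip1 (d : ℕ) : ∃ C : ℝ, 1 ≤ C ∧ ∀ (P : Polynomial ℝ) (S : Finset ℕ) (N : ℕ) (A : ℝ),
    P.natDegree ≤ d → 1 ≤ A → 0 < N → C * A ≤ N → (∀ t ∈ S, t < N) → (N : ℝ) / A ≤ S.card →
    (∀ t ∈ S, |P.eval ((t : ℝ) / N)| ≤ 1) →
    ∀ t t' : ℝ, |t| ≤ 2 → |t'| ≤ 2 → |P.eval t - P.eval t'| ≤ C * A ^ d * |t - t'| := by
  obtain ⟨C₀, hC₀, hL⟩ := lip 1 d
  set K : ℝ := (d + 1) * (20 * (d + 1)) ^ d with hK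
  have hK1 : 1 ≤ K := by
    have h0 : (0 : ℝ) ≤ d := Nat.cast_nonneg d
    have h1 : (1 : ℝ) ≤ (20 * (d + 1)) ^ d := one_le_pow₀ (by linarith)
    rw [hK]
    nlinarith
  refine ⟨max (2 * ((d : ℝ) + 1)) (2 * (C₀ + 1) * K), ?_, ?_⟩
  · refine le_max_of_le_left ?_
    have h0 : (0 : ℝ) ≤ d := Nat.cast_nonneg d
    linarith
  intro P S N A hP hA hN hCA hS hcard hSP t t' ht ht'
  have hN' : (0 : ℝ) < N := by exact_mod_cast hN
  have hd0 : (0 : ℝ) ≤ d := Nat.cast_nonneg d
  have hA0 : 0 < A := by linarith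
  have hbig : 2 * (d + 1) * A ≤ N := by
    have := mul_le_mul_of_nonneg_right (le_max_left (2 * ((d : ℝ) + 1)) (2 * (C₀ + 1) * K))
      hA0.le
    linarith
  -- sup bound by Remez
  have hsup : ∀ x : ℝ, |x| ≤ 4 → |P.eval x| ≤ K * A ^ d := by
    intro x hx
    -- the step
    set s : ℕ := ⌊(N : ℝ) / (2 * (d + 1) * A)⌋₊ with hs
    have hs1 : 1 ≤ s := by
      rw [hs, Nat.one_le_floor_iff, le_div_iff₀ (by positivity), one_mul]
      exact hbig
    have hsle : (s : ℝ) ≤ (N : ℝ) / (2 * (d + 1) * A) := Nat.floor_le (by positivity)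
    have hsge : (N : ℝ) / (2 * (d + 1) * A) ≤ 2 * s := by
      have h1 := Nat.lt_floor_add_one ((N : ℝ) / (2 * (d + 1) * A))
      have h2 : (1 : ℝ) ≤ s := by exact_mod_cast hs1
      rw [← hs] at h1
      linarith
    have hScard : s * d + 1 ≤ S.card := by
      have h1 : (s : ℝ) * d + 1 ≤ (S.card : ℝ) := by
        have h2 : (s : ℝ) * (d + 1) ≤ (N : ℝ) / (2 * A) := by
          have := mul_le_mul_of_nonneg_right hsle (by linarith : (0 : ℝ) ≤ d + 1)
          have e1 : (N : ℝ) / (2 * (d + 1) * A) * (d + 1) = N / (2 * A) := by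
            field_simp
          linarith
        have h3 : (N : ℝ) / (2 * A) ≤ N / A := by
          refine div_le_div_of_nonneg_left hN'.le hA0 ?_
          linarith
        have h4 : (1 : ℝ) ≤ s := by exact_mod_cast hs1
        nlinarith
      exact_mod_cast h1
    set E : Finset ℤ := S.image fun t : ℕ => (t : ℤ) with hE
    have hEcard : E.card = S.card :=
      Finset.card_image_of_injective _ Nat.cast_injective
    set R : Polynomial ℝ := P.comp (Polynomial.C (1 / (N : ℝ)) * Polynomial.X) with hR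
    have hRev : ∀ z : ℝ, R.eval z = P.eval (z / N) := by
      intro z
      rw [hR, Polynomial.eval_comp, Polynomial.eval_mul, Polynomial.eval_C, Polynomial.eval_X]
      congr 1
      ring
    have hRdeg : R.natDegree ≤ d := by
      rw [hR]
      refine (Polynomial.natDegree_comp_le).trans ?_
      have h1 : (Polynomial.C (1 / (N : ℝ)) * Polynomial.X).natDegree ≤ 1 :=
        (Polynomial.natDegree_C_mul_le _ _).trans Polynomial.natDegree_X.le
      calc P.natDegree * (Polynomial.C (1 / (N : ℝ)) * Polynomial.X).natDegree ≤ d * 1 :=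
            Nat.mul_le_mul hP h1
        _ = d := mul_one d
    have h := rmg_thm d s R E (N * x) (5 * N) 1 hRdeg hs1 (by rw [hEcard]; exact hScard)
      (by
        intro e he
        rw [hE, Finset.mem_image] at he
        obtain ⟨t, ht, rfl⟩ := he
        have h1 := hS t ht
        have h2 : (t : ℝ) ≤ N := by exact_mod_cast h1.le
        have h3 : (0 : ℝ) ≤ t := Nat.cast_nonneg t
        rw [Int.cast_natCast]
        rw [abs_le] at hx ⊢
        constructor <;> nlinarith [hx.1, hx.2]) (by
        intro e he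
        rw [hE, Finset.mem_image] at he
        obtain ⟨t, ht, rfl⟩ := he
        rw [hRev, Int.cast_natCast]
        exact hSP t ht)
    rw [hRev, mul_div_cancel_left₀ _ hN'.ne'] at h
    have h5 : (5 * N : ℝ) / s ≤ 20 * (d + 1) * A := by
      have hs0 : (0 : ℝ) < s := by exact_mod_cast hs1
      rw [div_le_iff₀ hs0]
      have h6 : (N : ℝ) ≤ 2 * s * (2 * (d + 1) * A) := by
        rw [div_le_iff₀ (by positivity)] at hsge
        exact hsge
      nlinarith
    calc |P.eval x| ≤ (d + 1) * (5 * N / s) ^ d * 1 := h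
      _ ≤ (d + 1) * (20 * (d + 1) * A) ^ d * 1 := by
        refine mul_le_mul_of_nonneg_right ?_ zero_le_one
        refine mul_le_mul_of_nonneg_left ?_ (by linarith)
        exact pow_le_pow_left₀ (by positivity) h5 d
      _ = K * A ^ d := by
        rw [hK, mul_pow (20 * ((d : ℝ) + 1)) A]
        ring
  -- Lipschitz bound
  set Q : MvPolynomial (Fin 1) ℝ := Polynomial.aeval (MvPolynomial.X 0) P with hQ
  have hQev : ∀ z : Fin 1 → ℝ, MvPolynomial.eval z Q = P.eval (z 0) := by
    intro z
    rw [hQ, ← MvPolynomial.coe_aeval_eq_eval, RingHom.coe_coe, ← Polynomial.aeval_algHom_apply,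
      MvPolynomial.aeval_X, Polynomial.coe_aeval_eq_eval]
  have hQdeg : Q.totalDegree ≤ d := by
    rw [hQ, Polynomial.aeval_eq_sum_range]
    refine MvPolynomial.totalDegree_finsetSum_le fun i hi => ?_
    rw [Finset.mem_range] at hi
    refine (MvPolynomial.totalDegree_smul_le _ _).trans ?_
    refine (MvPolynomial.totalDegree_pow _ _).trans ?_
    rw [MvPolynomial.totalDegree_X]
    omega
  have hA1 : 1 ≤ A ^ d := one_le_pow₀ hA
  have hKA : 0 ≤ K * A ^ d := by positivity
  have hfac : (C₀ + 1) * K * A ^ d * |t - t'| ≤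
      max (2 * ((d : ℝ) + 1)) (2 * (C₀ + 1) * K) * A ^ d * |t - t'| := by
    refine mul_le_mul_of_nonneg_right ?_ (abs_nonneg _)
    refine mul_le_mul_of_nonneg_right ?_ (by positivity)
    refine le_trans ?_ (le_max_right _ _)
    have : 0 ≤ (C₀ + 1) * K := by positivity
    linarith
  refine le_trans ?_ hfac
  by_cases hr : |t - t'| ≤ 2
  · have h := hL Q (fun _ => t') (fun _ => t) 2 |t - t'| (K * A ^ d) hQdeg (by norm_num)
      (abs_nonneg _) hr (by
        intro z hz
        rw [hQev]
        refine hsup _ ?_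
        have h1 := hz 0
        have h2 : |z 0| ≤ |z 0 - t'| + |t'| := by
          have := abs_add_le (z 0 - t') t'
          rwa [sub_add_cancel] at this
        linarith) (fun _ => le_rfl)
    rw [hQev, hQev] at h
    have h0 := abs_nonneg (t - t')
    calc |P.eval t - P.eval t'| ≤ C₀ * (|t - t'| / 2) * (K * A ^ d) := h
      _ ≤ (C₀ + 1) * K * A ^ d * |t - t'| := by
        have h3 : 0 ≤ C₀ * (K * A ^ d) * |t - t'| := by positivity
        have h4 : 0 ≤ K * A ^ d * |t - t'| := by positivity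
        nlinarith
  · push Not at hr
    have h1 := hsup t (by linarith)
    have h2 := hsup t' (by linarith)
    have h3 := abs_sub (P.eval t) (P.eval t')
    have h4 : 2 * (K * A ^ d) ≤ K * A ^ d * |t - t'| := by nlinarith
    have h5 : 0 ≤ C₀ * (K * A ^ d) * |t - t'| := by
      have := abs_nonneg (t - t')
      positivity
    nlinarith

end Pool.REG
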