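import Pool.Agent.H37.REG.Typ
import Pool.Agent.H37.REG.Lip

/-!
# Restriction to an event, lines with many times

Module REG (regularity of closed labels).
-/

set_option autoImplicit false

namespace Pool.REG

open Finset Real
open Pool.Agent.H49.Ent Pool.Agent.H32.Dense Pool.STK Pool.KAL

lemma ms_congr {Ω : Type} [Fintype Ω] {p : Ω → ℝ} {E F : Ω → Prop} (h : ∀ ω, E ω ↔ F ω) :
    ms p E = ms p F := by
  have h1 : E = F := funext fun ω => propext (h ω)
  rw [h1]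

/-- The law restricted to an event. -/
noncomputable def rs {Ω : Type} [Fintype Ω] (p : Ω → ℝ) (S : Ω → Prop) (ω : Ω) : ℝ :=
  open Classical in if S ω then p ω / ms p S else 0

lemma rs_isLaw {Ω : Type} [Fintype Ω] {p : Ω → ℝ} (hp : ∀ ω, 0 ≤ p ω) {S : Ω → Prop}
    (hS : 0 < ms p S) : IsLaw (rs p S) := by
  classical
  refine ⟨fun ω => ?_, ?_⟩
  · unfold rs
    split_ifs
    · exact div_nonneg (hp ω) hS.le
    · exact le_rfl
  · have h1 : ∀ ω, rs p S ω = (if S ω then p ω else 0) / ms p S := by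
      intro ω
      unfold rs
      split_ifs <;> simp
    rw [Finset.sum_congr rfl fun ω _ => h1 ω, ← Finset.sum_div]
    exact div_self hS.ne'

lemma ms_rs {Ω : Type} [Fintype Ω] (p : Ω → ℝ) (S E : Ω → Prop) :
    ms (rs p S) E = ms p (fun ω => E ω ∧ S ω) / ms p S := by
  classical
  have h1 : ms (rs p S) E = ∑ ω, (if E ω ∧ S ω then p ω else 0) / ms p S := by
    unfold ms
    refine Finset.sum_congr rfl fun ω _ => ?_
    unfold rs
    by_cases a : E ω <;> by_cases b : S ω <;> simp [a, b, ms]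
  rw [h1, ← Finset.sum_div]
  congr 1
  unfold ms
  refine Finset.sum_congr rfl fun ω _ => ?_
  by_cases a : E ω ∧ S ω
  · rw [if_pos a, if_pos a]
  · rw [if_neg a, if_neg a]

lemma law_rs {Ω X : Type} [Fintype Ω] (p : Ω → ℝ) (S : Ω → Prop) (f : Ω → X) (x : X) :
    law (rs p S) f x = ms p (fun ω => f ω = x ∧ S ω) / ms p S := by
  rw [law_eq_ms, ms_rs]

lemma rs_pos {Ω : Type} [Fintype Ω] {p : Ω → ℝ} (hp : ∀ ω, 0 ≤ p ω) {S : Ω → Prop} {ω : Ω}
    (h : 0 < rs p S ω) : S ω ∧ 0 < p ω := by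
  classical
  unfold rs at h
  split_ifs at h with hS
  · refine ⟨hS, ?_⟩
    rcases (hp ω).eq_or_lt with h0 | h0
    · rw [← h0, zero_div] at h
      exact absurd h (lt_irrefl 0)
    · exact h0
  · exact absurd h (lt_irrefl 0)

/-- Lines with many times. -/
lemma lines {Ω Λ : Type} [Fintype Ω] {p : Ω → ℝ} (hp : IsLaw p) (S E : Ω → Prop) (lam : Ω → Λ)
    (T : Ω → ℕ) {NT : ℕ} {Δ : ℝ} (hΔ : 0 < Δ) (hNT : 0 < NT)
    (h : ∀ ω, 0 < p ω → E ω → law p (fun ω => (lam ω, T ω)) (lam ω, T ω) ≤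
      Δ / NT * law p lam (lam ω)) (hS : 0 < ms p S) :
    ∃ Lg : Finset Λ, (∀ l ∈ Lg, ms p S * NT / (16 * Δ) ≤
        (tme p (fun ω => S ω ∧ E ω) lam T l).card) ∧
      ms p (fun ω => S ω ∧ E ω ∧ lam ω ∉ Lg) ≤ ms p S / 16 := by
  classical
  have hp0 := hp.nonneg
  have hNT' : (0 : ℝ) < NT := by exact_mod_cast hNT
  set Lg : Finset Λ := (univ.image lam).filter fun l => 0 < law p lam l ∧
    ms p S / 16 * law p lam l ≤ ms p (fun ω => lam ω = l ∧ S ω ∧ E ω) with hLg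
  refine ⟨Lg, ?_, ?_⟩
  · intro l hl
    rw [hLg, Finset.mem_filter] at hl
    obtain ⟨_, hl0, hl1⟩ := hl
    have h1 : ms p (fun ω => lam ω = l ∧ S ω ∧ E ω) =
        ∑ t ∈ tme p (fun ω => S ω ∧ E ω) lam T l,
          ms p (fun ω => T ω = t ∧ lam ω = l ∧ S ω ∧ E ω) := by
      refine ms_eq_sum p _ _ fun ω h2 h3 => ?_
      exact mem_tme.2 ⟨ω, lt_of_le_of_ne (hp0 ω) (Ne.symm h3), h2.2, h2.1, rfl⟩
    have h2 : ∀ t ∈ tme p (fun ω => S ω ∧ E ω) lam T l,
        ms p (fun ω => T ω = t ∧ lam ω = l ∧ S ω ∧ E ω) ≤ Δ / NT * law p lam l := by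
      intro t ht
      obtain ⟨ω, h3, h4, h5, h6⟩ := mem_tme.1 ht
      have h7 := h ω h3 h4.2
      rw [h5, h6] at h7
      refine le_trans ?_ h7
      rw [law_eq_ms]
      refine ms_mono hp0 fun ω' _ h8 => ?_
      exact Prod.ext h8.2.1 h8.1
    have h3 : ms p (fun ω => lam ω = l ∧ S ω ∧ E ω) ≤
        (tme p (fun ω => S ω ∧ E ω) lam T l).card * (Δ / NT * law p lam l) := by
      rw [h1, ← nsmul_eq_mul]
      exact Finset.sum_le_card_nsmul _ _ _ h2
    have h4 : ms p S / 16 * law p lam l ≤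
        (tme p (fun ω => S ω ∧ E ω) lam T l).card * (Δ / NT) * law p lam l := by
      calc ms p S / 16 * law p lam l ≤ _ := hl1
        _ ≤ _ := h3
        _ = _ := by ring
    have h5 := le_of_mul_le_mul_right h4 hl0
    calc ms p S * NT / (16 * Δ) = ms p S / 16 * (NT / Δ) := by field_simp
      _ ≤ (tme p (fun ω => S ω ∧ E ω) lam T l).card * (Δ / NT) * (NT / Δ) :=
        mul_le_mul_of_nonneg_right h5 (by positivity)
      _ = (tme p (fun ω => S ω ∧ E ω) lam T l).card := by field_simp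
  · have h1 : ms p (fun ω => S ω ∧ E ω ∧ lam ω ∉ Lg) =
        ∑ l ∈ (univ.image lam).filter (fun l => l ∉ Lg),
          ms p (fun ω => lam ω = l ∧ S ω ∧ E ω ∧ lam ω ∉ Lg) := by
      refine ms_eq_sum p _ _ fun ω h2 h3 => ?_
      rw [Finset.mem_filter]
      exact ⟨Finset.mem_image_of_mem _ (Finset.mem_univ ω), h2.2.2⟩
    rw [h1]
    have h2 : ∀ l ∈ (univ.image lam).filter (fun l => l ∉ Lg),
        ms p (fun ω => lam ω = l ∧ S ω ∧ E ω ∧ lam ω ∉ Lg) ≤ ms p S / 16 * law p lam l := by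
      intro l hl
      rw [Finset.mem_filter] at hl
      have h3 : ms p (fun ω => lam ω = l ∧ S ω ∧ E ω ∧ lam ω ∉ Lg) ≤
          ms p (fun ω => lam ω = l ∧ S ω ∧ E ω) :=
        ms_mono hp0 fun ω _ h => ⟨h.1, h.2.1, h.2.2.1⟩
      rcases (law_nonneg hp0 lam l).eq_or_lt with h0 | h0
      · have h4 : ms p (fun ω => lam ω = l ∧ S ω ∧ E ω) ≤ law p lam l := by
          rw [law_eq_ms]
          exact ms_mono hp0 fun ω _ h => h.1
        rw [← h0] at h4 ⊢
        rw [mul_zero]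
        exact h3.trans h4
      · have h4 : ¬ ms p S / 16 * law p lam l ≤ ms p (fun ω => lam ω = l ∧ S ω ∧ E ω) := by
          intro h5
          apply hl.2
          rw [hLg, Finset.mem_filter]
          exact ⟨hl.1, h0, h5⟩
        exact h3.trans (not_le.1 h4).le
    calc _ ≤ ∑ l ∈ (univ.image lam).filter (fun l => l ∉ Lg), ms p S / 16 * law p lam l :=
          Finset.sum_le_sum h2
      _ ≤ ∑ l ∈ univ.image lam, ms p S / 16 * law p lam l :=
          Finset.sum_le_sum_of_subset_of_nonneg (Finset.filter_subset _ _) fun l _ _ =>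
            mul_nonneg (by positivity) (law_nonneg hp0 lam l)
      _ = ms p S / 16 := by
          rw [← Finset.mul_sum, sum_law, hp.sum_one, mul_one]

/-- Lipschitz bound in one variable, general bound. -/
lemma lip2 (d : ℕ) : ∃ C : ℝ, 1 ≤ C ∧ ∀ (P : Polynomial ℝ) (S : Finset ℕ) (N : ℕ) (A G : ℝ),
    P.natDegree ≤ d → 1 ≤ A → 0 < N → C * A ≤ N → 0 < G → (∀ t ∈ S, t < N) →
    (N : ℝ) / A ≤ S.card → (∀ t ∈ S, |P.eval ((t : ℝ) / N)| ≤ G) →
    ∀ t t' : ℝ, |t| ≤ 2 → |t'| ≤ 2 → |P.eval t - P.eval t'| ≤ C * A ^ d * G * |t - t'| := by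
  obtain ⟨C, hC, h⟩ := lip1 d
  refine ⟨C, hC, ?_⟩
  intro P S N A G hP hA hN hCA hG hS hcard hSP t t' ht ht'
  have hev : ∀ z : ℝ, (Polynomial.C (1 / G) * P).eval z = P.eval z / G := by
    intro z
    rw [Polynomial.eval_mul, Polynomial.eval_C]
    ring
  have h1 := h (Polynomial.C (1 / G) * P) S N A ((Polynomial.natDegree_C_mul_le _ _).trans hP)
    hA hN hCA hS hcard (fun t ht => by
      rw [hev, abs_div, abs_of_pos hG, div_le_one hG]
      exact hSP t ht) t t' ht ht'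
  rw [hev, hev, ← sub_div, abs_div, abs_of_pos hG, div_le_iff₀ hG] at h1
  calc |P.eval t - P.eval t'| ≤ C * A ^ d * |t - t'| * G := h1
    _ = C * A ^ d * G * |t - t'| := by ring

end Pool.REG
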