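import Pool.Agent.H37.REG.Lip

/-!
# Ranks of the lines of one nominal line

Module REG (regularity of closed labels).
-/

set_option autoImplicit false

namespace Pool.REG

open Finset Real
open Pool.Agent.H49.Ent Pool.Agent.H32.Dense Pool.STK Pool.KAL

/-- Remez inequality in one variable, from a dense set of times. -/
lemma rem1 (d : ℕ) : ∃ C : ℝ, 1 ≤ C ∧ ∀ (P : Polynomial ℝ) (S : Finset ℕ) (N : ℕ) (A E : ℝ),
    P.natDegree ≤ d → 1 ≤ A → 0 < N → C * A ≤ N → (∀ t ∈ S, t < N) → (N : ℝ) / A ≤ S.card →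
    (∀ t ∈ S, |P.eval ((t : ℝ) / N)| ≤ E) → ∀ t : ℝ, |t| ≤ 4 → |P.eval t| ≤ C * A ^ d * E := by
  set K : ℝ := (d + 1) * (20 * (d + 1)) ^ d with hK
  have hd0 : (0 : ℝ) ≤ d := Nat.cast_nonneg d
  have hK1 : 1 ≤ K := by
    have h1 : (1 : ℝ) ≤ (20 * (d + 1)) ^ d := one_le_pow₀ (by linarith)
    rw [hK]
    nlinarith
  refine ⟨max (2 * ((d : ℝ) + 1)) K, ?_, ?_⟩
  · refine le_max_of_le_left ?_
    linarith
  intro P S N A E₀ hP hA hN hCA hS hcard hSP x hx
  have hN' : (0 : ℝ) < N := by exact_mod_cast hN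
  have hA0 : 0 < A := by linarith
  have hbig : 2 * (d + 1) * A ≤ N := by
    have := mul_le_mul_of_nonneg_right (le_max_left (2 * ((d : ℝ) + 1)) K) hA0.le
    linarith
  have hSne : S.Nonempty := by
    have : (0 : ℝ) < S.card := lt_of_lt_of_le (by positivity) hcard
    exact Finset.card_pos.1 (by exact_mod_cast this)
  have hE0 : 0 ≤ E₀ := by
    obtain ⟨t, ht⟩ := hSne
    exact (abs_nonneg _).trans (hSP t ht)
  -- the step
  set s : ℕ := ⌊(N : ℝ) / (2 * (d + 1) * A)⌋₊ with hs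
  have hs1 : 1 ≤ s := by
    rw [hs, Nat.one_le_floor_iff, le_div_iff₀ (by positivity), one_mul]
    exact hbig
  have hsle : (s : ℝ) ≤ (N : ℝ) / (2 * (d + 1) * A) := Nat.floor_le (by positivity)
  have hsge : (N : ℝ) / (2 * (d + 1) * A) ≤ 2 * s := by
    have h1 := Nat.lt_floor_add_one ((N : ℝ) / (2 * (d + 1) * A))
    have h2 : (1 : ℝ) ≤ s := by exact_mod_cast hs1
    rw [← hs] at h1
    linarith
  have hScard : s * d + 1 ≤ S.card := by
    have h1 : (s : ℝ) * d + 1 ≤ (S.card : ℝ) := by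
      have h2 : (s : ℝ) * (d + 1) ≤ (N : ℝ) / (2 * A) := by
        have := mul_le_mul_of_nonneg_right hsle (by linarith : (0 : ℝ) ≤ d + 1)
        have e1 : (N : ℝ) / (2 * (d + 1) * A) * (d + 1) = N / (2 * A) := by
          field_simp
        linarith
      have h3 : (N : ℝ) / (2 * A) ≤ N / A := by
        refine div_le_div_of_nonneg_left hN'.le hA0 ?_
        linarith
      have h4 : (1 : ℝ) ≤ s := by exact_mod_cast hs1
      nlinarith
    exact_mod_cast h1
  set E : Finset ℤ := S.image fun t : ℕ => (t : ℤ) with hE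
  have hEcard : E.card = S.card :=
    Finset.card_image_of_injective _ Nat.cast_injective
  set R : Polynomial ℝ := P.comp (Polynomial.C (1 / (N : ℝ)) * Polynomial.X) with hR
  have hRev : ∀ z : ℝ, R.eval z = P.eval (z / N) := by
    intro z
    rw [hR, Polynomial.eval_comp, Polynomial.eval_mul, Polynomial.eval_C, Polynomial.eval_X]
    congr 1
    ring
  have hRdeg : R.natDegree ≤ d := by
    rw [hR]
    refine (Polynomial.natDegree_comp_le).trans ?_
    have h1 : (Polynomial.C (1 / (N : ℝ)) * Polynomial.X).natDegree ≤ 1 :=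
      (Polynomial.natDegree_C_mul_le _ _).trans Polynomial.natDegree_X.le
    calc P.natDegree * (Polynomial.C (1 / (N : ℝ)) * Polynomial.X).natDegree ≤ d * 1 :=
          Nat.mul_le_mul hP h1
      _ = d := mul_one d
  have h := rmg_thm d s R E (N * x) (5 * N) E₀ hRdeg hs1 (by rw [hEcard]; exact hScard)
    (by
      intro e he
      rw [hE, Finset.mem_image] at he
      obtain ⟨t, ht, rfl⟩ := he
      have h1 := hS t ht
      have h2 : (t : ℝ) ≤ N := by exact_mod_cast h1.le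
      have h3 : (0 : ℝ) ≤ t := Nat.cast_nonneg t
      rw [Int.cast_natCast]
      rw [abs_le] at hx ⊢
      constructor <;> nlinarith [hx.1, hx.2]) (by
      intro e he
      rw [hE, Finset.mem_image] at he
      obtain ⟨t, ht, rfl⟩ := he
      rw [hRev, Int.cast_natCast]
      exact hSP t ht)
  rw [hRev, mul_div_cancel_left₀ _ hN'.ne'] at h
  have h5 : (5 * N : ℝ) / s ≤ 20 * (d + 1) * A := by
    have hs0 : (0 : ℝ) < s := by exact_mod_cast hs1
    rw [div_le_iff₀ hs0]
    have h6 : (N : ℝ) ≤ 2 * s * (2 * (d + 1) * A) := by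
      rw [div_le_iff₀ (by positivity)] at hsge
      exact hsge
    nlinarith
  calc |P.eval x| ≤ (d + 1) * (5 * N / s) ^ d * E₀ := h
    _ ≤ (d + 1) * (20 * (d + 1) * A) ^ d * E₀ := by
      refine mul_le_mul_of_nonneg_right ?_ hE0
      refine mul_le_mul_of_nonneg_left ?_ (by linarith)
      exact pow_le_pow_left₀ (by positivity) h5 d
    _ = K * A ^ d * E₀ := by
      rw [hK, mul_pow (20 * ((d : ℝ) + 1)) A]
      ring
    _ ≤ max (2 * ((d : ℝ) + 1)) K * A ^ d * E₀ := by
      refine mul_le_mul_of_nonneg_right ?_ hE0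
      exact mul_le_mul_of_nonneg_right (le_max_right _ _) (by positivity)

/-- Few dense sets with small pairwise intersections. -/
lemma corradi {ι : Type} (R : Finset ι) (S : ι → Finset ℕ) {N : ℕ} {A : ℝ} (hN : 0 < N)
    (hA : 1 ≤ A) (hS : ∀ i ∈ R, ∀ t ∈ S i, t < N) (hcard : ∀ i ∈ R, (N : ℝ) / A ≤ (S i).card)
    (hpair : ∀ i ∈ R, ∀ j ∈ R, i ≠ j → (((S i ∩ S j).card : ℕ) : ℝ) ≤ N / (2 * A ^ 2)) :
    (R.card : ℝ) ≤ 2 * A ^ 2 := by
  classical
  have hN' : (0 : ℝ) < N := by exact_mod_cast hN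
  have hA0 : 0 < A := by linarith
  set c : ℕ → ℝ := fun t => ∑ i ∈ R, if t ∈ S i then 1 else 0 with hc
  have hsw : ∀ F : Finset ℕ, (∀ t ∈ F, t < N) →
      ∑ t ∈ range N, (if t ∈ F then (1 : ℝ) else 0) = F.card := by
    intro F hF
    rw [← Finset.sum_filter, Finset.sum_const, nsmul_eq_mul, mul_one]
    congr 2
    ext t
    rw [Finset.mem_filter, Finset.mem_range]
    exact ⟨fun h => h.2, fun h => ⟨hF t h, h⟩⟩
  have h1 : ∑ t ∈ range N, c t = ∑ i ∈ R, ((S i).card : ℝ) := by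
    rw [hc, Finset.sum_comm]
    exact Finset.sum_congr rfl fun i hi => hsw _ (hS i hi)
  have h2 : (R.card : ℝ) * (N / A) ≤ ∑ t ∈ range N, c t := by
    rw [h1, ← nsmul_eq_mul]
    exact Finset.card_nsmul_le_sum _ _ _ hcard
  have h3 : ∑ t ∈ range N, c t ^ 2 = ∑ i ∈ R, ∑ j ∈ R, (((S i ∩ S j).card : ℕ) : ℝ) := by
    have e1 : ∀ t ∈ range N, c t ^ 2 = ∑ i ∈ R, ∑ j ∈ R, if t ∈ S i ∩ S j then (1 : ℝ) else 0 := by
      intro t _
      rw [hc, sq, Finset.sum_mul_sum]
      refine Finset.sum_congr rfl fun i _ => Finset.sum_congr rfl fun j _ => ?_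
      simp only [Finset.mem_inter]
      by_cases a : t ∈ S i <;> by_cases b : t ∈ S j <;> simp [a, b]
    rw [Finset.sum_congr rfl e1, Finset.sum_comm]
    refine Finset.sum_congr rfl fun i hi => ?_
    rw [Finset.sum_comm]
    refine Finset.sum_congr rfl fun j _ => hsw _ fun t ht => ?_
    exact hS i hi t (Finset.mem_inter.1 ht).1
  have h4 : ∑ i ∈ R, ∑ j ∈ R, (((S i ∩ S j).card : ℕ) : ℝ) ≤
      R.card * (N + R.card * (N / (2 * A ^ 2))) := by
    rw [← nsmul_eq_mul]
    refine Finset.sum_le_card_nsmul _ _ _ fun i hi => ?_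
    have e1 : ∀ j ∈ R, (((S i ∩ S j).card : ℕ) : ℝ) ≤
        (if j = i then (N : ℝ) else 0) + N / (2 * A ^ 2) := by
      intro j hj
      by_cases hij : i = j
      · subst hij
        rw [if_pos rfl, Finset.inter_self]
        have e2 : (S i).card ≤ N := by
          calc (S i).card ≤ (range N).card :=
                Finset.card_le_card fun t ht => Finset.mem_range.2 (hS i hi t ht)
            _ = N := Finset.card_range N
        have e3 : ((S i).card : ℝ) ≤ N := by exact_mod_cast e2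
        have e4 : 0 ≤ (N : ℝ) / (2 * A ^ 2) := by positivity
        linarith
      · rw [if_neg (fun h => hij h.symm), zero_add]
        exact hpair i hi j hj hij
    calc ∑ j ∈ R, (((S i ∩ S j).card : ℕ) : ℝ) ≤
        ∑ j ∈ R, ((if j = i then (N : ℝ) else 0) + N / (2 * A ^ 2)) := Finset.sum_le_sum e1
      _ = N + R.card * (N / (2 * A ^ 2)) := by
        rw [Finset.sum_add_distrib, Finset.sum_ite_eq' R i, if_pos hi, Finset.sum_const,
          nsmul_eq_mul]
  have h5 : (∑ t ∈ range N, c t) ^ 2 ≤ N * ∑ t ∈ range N, c t ^ 2 := by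
    have := sq_sum_le_card_mul_sum_sq (s := range N) (f := c)
    rw [Finset.card_range] at this
    exact this
  have h6 : ((R.card : ℝ) * (N / A)) ^ 2 ≤ N * (R.card * (N + R.card * (N / (2 * A ^ 2)))) := by
    calc ((R.card : ℝ) * (N / A)) ^ 2 ≤ (∑ t ∈ range N, c t) ^ 2 :=
          pow_le_pow_left₀ (by positivity) h2 2
      _ ≤ N * ∑ t ∈ range N, c t ^ 2 := h5
      _ ≤ _ := by
        rw [h3]
        exact mul_le_mul_of_nonneg_left h4 hN'.le
  rcases Nat.eq_zero_or_pos R.card with h0 | h0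
  · rw [h0, Nat.cast_zero]
    positivity
  · have hR' : (0 : ℝ) < R.card := by exact_mod_cast h0
    have h7 : (R.card : ℝ) * (N ^ 2 * R.card / (2 * A ^ 2)) ≤ R.card * (N ^ 2 * 1) := by
      have e1 : ((R.card : ℝ) * (N / A)) ^ 2 = R.card * (N ^ 2 * R.card / A ^ 2) := by
        field_simp
      have e2 : (N : ℝ) * (R.card * (N + R.card * (N / (2 * A ^ 2)))) =
          R.card * (N ^ 2 * 1) + R.card * (N ^ 2 * R.card / (2 * A ^ 2)) := by
        field_simp
      have e3 : (R.card : ℝ) * (N ^ 2 * R.card / A ^ 2) =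
          2 * (R.card * (N ^ 2 * R.card / (2 * A ^ 2))) := by
        field_simp
      rw [e1, e2, e3] at h6
      linarith
    have h8 := le_of_mul_le_mul_left h7 hR'
    have h9 : (N : ℝ) ^ 2 * (R.card / (2 * A ^ 2)) ≤ N ^ 2 * 1 := by
      calc (N : ℝ) ^ 2 * (R.card / (2 * A ^ 2)) = N ^ 2 * R.card / (2 * A ^ 2) := by ring
        _ ≤ _ := h8
    have h10 := le_of_mul_le_mul_left h9 (by positivity)
    rw [div_le_one (by positivity)] at h10
    exact h10

/-- Ranks: the lines of one nominal line have few different polynomials. -/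
lemma ranks (d : ℕ) : ∃ C : ℝ, 1 ≤ C ∧ ∀ (Λ N : Type) [Nonempty Λ] (Lg : Finset Λ)
    (nom : Λ → N) (S : Λ → Finset ℕ) (P : Λ → Polynomial ℝ) (NT : ℕ) (A E : ℝ), 1 ≤ A →
    0 < NT → C * A ^ 2 ≤ NT → (∀ l ∈ Lg, (P l).natDegree ≤ d) →
    (∀ l ∈ Lg, ∀ t ∈ S l, t < NT) → (∀ l ∈ Lg, (NT : ℝ) / A ≤ (S l).card) →
    (∀ l ∈ Lg, ∀ l' ∈ Lg, nom l = nom l' → ∀ t ∈ S l, t ∈ S l' →
      |(P l).eval ((t : ℝ) / NT) - (P l').eval ((t : ℝ) / NT)| ≤ E) →
    ∃ (rk : Λ → ℕ) (st : N → ℕ → Λ), ∀ l ∈ Lg, (rk l : ℝ) < 2 * A ^ 2 ∧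
      st (nom l) (rk l) ∈ Lg ∧ nom (st (nom l) (rk l)) = nom l ∧
      ∀ t : ℝ, |t| ≤ 2 → |(P l).eval t - (P (st (nom l) (rk l))).eval t| ≤
        C * A ^ (2 * d) * E := by
  classical
  obtain ⟨C₀, hC₀, hrem⟩ := rem1 d
  have h2d : (1 : ℝ) ≤ 2 ^ d := one_le_pow₀ (by norm_num)
  refine ⟨2 * C₀ * 2 ^ d, by nlinarith, ?_⟩
  intro Λ N _ Lg nom S P NT A E hA hNT hCA hdeg hS hcard hag
  have hNT' : (0 : ℝ) < NT := by exact_mod_cast hNT
  have hA0 : 0 < A := by linarith
  -- far lines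
  set Far : Λ → Λ → Prop := fun l l' =>
    ¬ ∀ t : ℝ, |t| ≤ 2 → |(P l).eval t - (P l').eval t| ≤ 2 * C₀ * 2 ^ d * A ^ (2 * d) * E with hFar
  have hfar : ∀ l ∈ Lg, ∀ l' ∈ Lg, nom l = nom l' → Far l l' →
      (((S l ∩ S l').card : ℕ) : ℝ) ≤ NT / (2 * A ^ 2) := by
    intro l hl l' hl' hn hF
    by_contra hcon
    push Not at hcon
    apply hF
    intro t ht
    have hne : (S l ∩ S l').Nonempty := by
      have : (0 : ℝ) < ((S l ∩ S l').card : ℕ) := lt_of_le_of_lt (by positivity) hcon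
      exact Finset.card_pos.1 (by exact_mod_cast this)
    have hE0 : 0 ≤ E := by
      obtain ⟨t, ht⟩ := hne
      rw [Finset.mem_inter] at ht
      exact (abs_nonneg _).trans (hag l hl l' hl' hn t ht.1 ht.2)
    have h := hrem (P l - P l') (S l ∩ S l') NT (2 * A ^ 2) E
      ((Polynomial.natDegree_sub_le _ _).trans (max_le (hdeg l hl) (hdeg l' hl')))
      (by nlinarith) hNT (by
        refine le_trans ?_ hCA
        calc C₀ * (2 * A ^ 2) = 2 * C₀ * 1 * A ^ 2 := by ring
          _ ≤ 2 * C₀ * 2 ^ d * A ^ 2 := by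
            refine mul_le_mul_of_nonneg_right ?_ (by positivity)
            exact mul_le_mul_of_nonneg_left h2d (by positivity)) (by
        intro t ht
        exact hS l hl t (Finset.mem_inter.1 ht).1) hcon.le (by
        intro t ht
        rw [Finset.mem_inter] at ht
        rw [Polynomial.eval_sub]
        exact hag l hl l' hl' hn t ht.1 ht.2) t (by linarith)
    rw [Polynomial.eval_sub] at h
    refine h.trans ?_
    have e1 : C₀ * (2 * A ^ 2) ^ d * E = C₀ * 2 ^ d * A ^ (2 * d) * E := by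
      rw [mul_pow, ← pow_mul]
      ring
    rw [e1]
    refine mul_le_mul_of_nonneg_right ?_ hE0
    refine mul_le_mul_of_nonneg_right ?_ (by positivity)
    refine mul_le_mul_of_nonneg_right ?_ (by positivity)
    linarith
  -- maximal far sets
  have hmax : ∀ v : N, ∃ R : Finset Λ, R ⊆ Lg.filter (fun l => nom l = v) ∧
      (∀ l ∈ R, ∀ l' ∈ R, l ≠ l' → Far l l') ∧
      ∀ l ∈ Lg.filter (fun l => nom l = v), l ∉ R → ∃ r ∈ R, ¬ Far l r ∨ ¬ Far r l := by
    intro v
    set 𝒮 : Finset (Finset Λ) := (Lg.filter fun l => nom l = v).powerset.filter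
      fun R => ∀ l ∈ R, ∀ l' ∈ R, l ≠ l' → Far l l' with h𝒮
    have hne : 𝒮.Nonempty := ⟨∅, by
      rw [h𝒮, Finset.mem_filter, Finset.mem_powerset]
      exact ⟨Finset.empty_subset _, fun l hl => absurd hl (Finset.notMem_empty l)⟩⟩
    obtain ⟨R, hR, hRmax⟩ := Finset.exists_max_image 𝒮 Finset.card hne
    rw [h𝒮, Finset.mem_filter, Finset.mem_powerset] at hR
    refine ⟨R, hR.1, hR.2, ?_⟩
    intro l hl hlR
    by_contra hcon0
    have hcon : ∀ r ∈ R, Far l r ∧ Far r l := by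
      intro r hr
      by_contra h
      rw [not_and_or] at h
      exact hcon0 ⟨r, hr, h⟩
    have h1 : insert l R ∈ 𝒮 := by
      rw [h𝒮, Finset.mem_filter, Finset.mem_powerset]
      refine ⟨Finset.insert_subset hl hR.1, ?_⟩
      intro a ha b hb hab
      rw [Finset.mem_insert] at ha hb
      rcases ha with rfl | ha
      · rcases hb with rfl | hb
        · exact absurd rfl hab
        · exact (hcon b hb).1
      · rcases hb with rfl | hb
        · exact (hcon a ha).2
        · exact hR.2 a ha b hb hab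
    have h2 := hRmax _ h1
    rw [Finset.card_insert_of_notMem hlR] at h2
    omega
  choose R hR1 hR2 hR3 using hmax
  have hsym : ∀ l l', ¬ Far l l' → ¬ Far l' l := by
    intro l l' h h'
    apply h
    rw [hFar] at h' ⊢
    intro h2
    apply h'
    intro t ht
    rw [abs_sub_comm]
    exact h2 t ht
  have hRcard : ∀ v, ((R v).card : ℝ) ≤ 2 * A ^ 2 := by
    intro v
    refine corradi (R v) S hNT hA ?_ ?_ ?_
    · intro l hl
      exact hS l (Finset.mem_filter.1 (hR1 v hl)).1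
    · intro l hl
      exact hcard l (Finset.mem_filter.1 (hR1 v hl)).1
    · intro l hl l' hl' hne
      have h1 := Finset.mem_filter.1 (hR1 v hl)
      have h2 := Finset.mem_filter.1 (hR1 v hl')
      exact hfar l h1.1 l' h2.1 (h1.2.trans h2.2.symm) (hR2 v l hl l' hl' hne)
  -- the representative
  have hrep : ∀ l ∈ Lg, ∃ i : ℕ, ∃ h : i < (R (nom l)).card,
      ¬ Far l ((R (nom l)).equivFin.symm ⟨i, h⟩ : Λ) := by
    intro l hl
    have hl' : l ∈ Lg.filter (fun l' => nom l' = nom l) := Finset.mem_filter.2 ⟨hl, rfl⟩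
    obtain ⟨r, hr, hfr⟩ : ∃ r ∈ R (nom l), ¬ Far l r := by
      by_cases h : l ∈ R (nom l)
      · refine ⟨l, h, ?_⟩
        rw [hFar]
        intro h2
        apply h2
        intro t _
        rw [sub_self, abs_zero]
        obtain ⟨t, ht⟩ : (S l).Nonempty := by
          have : (0 : ℝ) < (S l).card := lt_of_lt_of_le (by positivity) (hcard l hl)
          exact Finset.card_pos.1 (by exact_mod_cast this)
        have hE0 : 0 ≤ E := (abs_nonneg _).trans (hag l hl l hl rfl t ht ht)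
        positivity
      · obtain ⟨r, hr, h3⟩ := hR3 (nom l) l hl' h
        refine ⟨r, hr, ?_⟩
        rcases h3 with h3 | h3
        · exact h3
        · exact hsym _ _ h3
    refine ⟨((R (nom l)).equivFin ⟨r, hr⟩ : ℕ), ((R (nom l)).equivFin ⟨r, hr⟩).2, ?_⟩
    have e1 : (⟨((R (nom l)).equivFin ⟨r, hr⟩ : ℕ), ((R (nom l)).equivFin ⟨r, hr⟩).2⟩ :
        Fin (R (nom l)).card) = (R (nom l)).equivFin ⟨r, hr⟩ := rfl
    rw [e1, Equiv.symm_apply_apply]
    exact hfr
  choose! rk hrk using hrep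
  refine ⟨rk, fun v i => if h : i < (R v).card then ((R v).equivFin.symm ⟨i, h⟩ : Λ) else
    Classical.arbitrary Λ, ?_⟩
  intro l hl
  obtain ⟨h, hfr⟩ := hrk l hl
  have hst : (if h : rk l < (R (nom l)).card then ((R (nom l)).equivFin.symm ⟨rk l, h⟩ : Λ) else
    Classical.arbitrary Λ) = ((R (nom l)).equivFin.symm ⟨rk l, h⟩ : Λ) := dif_pos h
  simp only [hst]
  have hmem := Finset.mem_filter.1 (hR1 (nom l) ((R (nom l)).equivFin.symm ⟨rk l, h⟩).2)
  refine ⟨?_, hmem.1, hmem.2, ?_⟩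
  · have : (rk l : ℝ) < (R (nom l)).card := by exact_mod_cast h
    linarith [hRcard (nom l)]
  · rw [hFar] at hfr
    push Not at hfr
    exact hfr

end Pool.REG
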