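import Pool.Agent.H82.KAL.BOX
import Pool.Agent.H82.KAL.BXI
import Pool.Agent.H31.KAL.BXC
import Pool.Agent.H77.KAL.RMN
import Pool.Agent.H37.REG.Lip
import Mathlib.LinearAlgebra.Matrix.AbsoluteValue

/-!
# The box lemma in skew coordinates

Module REG (regularity of closed labels), step 4.
-/

set_option autoImplicit false

namespace Pool.REG

open Finset Real
open Pool.Agent.H49.Ent Pool.Agent.H32.Dense Pool.STK Pool.KAL

/-- Bound for the inverse matrix. -/
lemma inv_bound {n : ℕ} (B : Matrix (Fin n) (Fin n) ℝ) {C s : ℝ} (hC : 1 ≤ C) (hs : 0 < s)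
    (hB : ∀ i j, |B i j| ≤ C) (hdet : s ^ n ≤ |B.det|) (i j : Fin n) :
    |B⁻¹ i j| ≤ n.factorial * C ^ n / s ^ n := by
  classical
  have hdpos : 0 < |B.det| := lt_of_lt_of_le (pow_pos hs n) hdet
  have hdne : B.det ≠ 0 := abs_pos.1 hdpos
  rw [Matrix.inv_def, Ring.inverse_eq_inv', Matrix.smul_apply, smul_eq_mul, abs_mul, abs_inv,
    inv_mul_eq_div]
  have h1 : |B.adjugate i j| ≤ n.factorial * C ^ n := by
    rw [Matrix.adjugate_apply]
    have h2 := Matrix.det_le (A := B.updateRow j (Pi.single i 1)) (abv := AbsoluteValue.abs)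
      (x := C) (by
        intro a b
        rw [AbsoluteValue.abs_apply]
        by_cases ha : a = j
        · subst ha
          rw [Matrix.updateRow_self]
          by_cases hb : b = i
          · subst hb
            rw [Pi.single_eq_same, abs_one]
            exact hC
          · rw [Pi.single_eq_of_ne hb, abs_zero]
            linarith
        · rw [Matrix.updateRow_ne ha]
          exact hB a b)
    rw [AbsoluteValue.abs_apply, Fintype.card_fin, nsmul_eq_mul] at h2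
    exact h2
  calc |B.adjugate i j| / |B.det| ≤ (n.factorial * C ^ n) / |B.det| :=
        div_le_div_of_nonneg_right h1 (abs_nonneg _)
    _ ≤ (n.factorial * C ^ n) / s ^ n :=
        div_le_div_of_nonneg_left (by positivity) (pow_pos hs n) hdet

lemma totalDegree_le {n d : ℕ} (Q : MvPolynomial (Fin n) ℝ) (h : ∀ i, Q.degreeOf i ≤ d) :
    Q.totalDegree ≤ n * d := by
  classical
  unfold MvPolynomial.totalDegree
  refine Finset.sup_le fun α hα => ?_
  rw [Finsupp.sum_fintype _ _ (fun _ => rfl)]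
  calc ∑ i, α i ≤ ∑ _i : Fin n, d := by
        refine Finset.sum_le_sum fun i _ => ?_
        refine le_trans ?_ (h i)
        exact MvPolynomial.monomial_le_degreeOf i hα
    _ = n * d := by simp

/-- Close integers in one residue class are equal. -/
lemma eq_of_res {a b : ℤ} {L : ℕ} (h : (a : ZMod L) = b) (hab : |(a : ℝ) - b| < L) : a = b := by
  rw [ZMod.intCast_eq_intCast_iff_dvd_sub] at h
  have h1 : |b - a| < (L : ℤ) := by
    have : |((b - a : ℤ) : ℝ)| < (L : ℝ) := by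
      push_cast
      rw [abs_sub_comm]
      exact hab
    exact_mod_cast this
  have := Int.eq_zero_of_abs_lt_dvd h h1
  omega

/-- Pigeonhole for colours. -/
lemma colour {α β : Type} [Fintype β] [Nonempty β] [DecidableEq β] (X : Finset α) (c : α → β) :
    ∃ b, (X.card : ℝ) ≤ Fintype.card β * ((X.filter fun a => c a = b).card : ℝ) := by
  by_contra hcon
  push Not at hcon
  have h1 : X.card = ∑ b : β, (X.filter fun a => c a = b).card :=
    Finset.card_eq_sum_card_fiberwise (fun a _ => Finset.mem_coe.2 (Finset.mem_univ (c a)))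
  have h2 : (X.card : ℝ) = ∑ b : β, ((X.filter fun a => c a = b).card : ℝ) := by
    exact_mod_cast h1
  have hpos : (0 : ℝ) < Fintype.card β := by exact_mod_cast Fintype.card_pos
  have h3 : ∑ b : β, ((X.filter fun a => c a = b).card : ℝ) <
      ∑ _b : β, (X.card : ℝ) / Fintype.card β := by
    refine Finset.sum_lt_sum_of_nonempty Finset.univ_nonempty fun b _ => ?_
    rw [lt_div_iff₀ hpos, mul_comm]
    exact hcon b
  rw [Finset.sum_const, Finset.card_univ, nsmul_eq_mul, mul_div_cancel₀ _ hpos.ne'] at h3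
  linarith

/-- The skew coordinates of the point `y`. -/
noncomputable def cc {n : ℕ} (e : Fin n → Fin n → ℝ) (y : Fin n → ℝ) (k : Fin n) : ℝ :=
  ∑ i, (Matrix.of fun i j => e j i)⁻¹ k i * y i

lemma cc_sum {n : ℕ} {e : Fin n → Fin n → ℝ} (h : (Matrix.of fun i j => e j i).det ≠ 0)
    (y : Fin n → ℝ) (i : Fin n) : ∑ j, cc e y j * e j i = y i := by
  classical
  have h1 : (Matrix.of fun i j => e j i) * (Matrix.of fun i j => e j i)⁻¹ = 1 :=
    Matrix.mul_nonsing_inv _ (isUnit_iff_ne_zero.2 h)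
  have h2 : ∑ j, cc e y j * e j i = ∑ k, (∑ j, (Matrix.of fun i j => e j i) i j *
      (Matrix.of fun i j => e j i)⁻¹ j k) * y k := by
    unfold cc
    simp only [Finset.sum_mul]
    rw [Finset.sum_comm]
    refine Finset.sum_congr rfl fun k _ => Finset.sum_congr rfl fun j _ => ?_
    simp only [Matrix.of_apply]
    ring
  rw [h2]
  have h3 : ∀ k, ∑ j, (Matrix.of fun i j => e j i) i j *
      (Matrix.of fun i j => e j i)⁻¹ j k = if i = k then 1 else 0 := by
    intro k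
    have := congrFun (congrFun h1 i) k
    rw [Matrix.mul_apply, Matrix.one_apply] at this
    exact this
  simp only [h3]
  simp

lemma cc_le {n : ℕ} {e : Fin n → Fin n → ℝ} {C s r : ℝ} (hC : 1 ≤ C) (hs : 0 < s)
    (hB : ∀ j i, |e j i| ≤ C) (hdet : s ^ n ≤ |(Matrix.of fun i j => e j i).det|)
    (y : Fin n → ℝ) (hy : ∀ i, |y i| ≤ r) (k : Fin n) :
    |cc e y k| ≤ n * (n.factorial * C ^ n / s ^ n) * r := by
  unfold cc
  refine (Finset.abs_sum_le_sum_abs _ _).trans ?_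
  have h1 : ∀ i ∈ (univ : Finset (Fin n)), |(Matrix.of fun i j => e j i)⁻¹ k i * y i| ≤
      (n.factorial * C ^ n / s ^ n) * r := by
    intro i _
    rw [abs_mul]
    have h2 := inv_bound (Matrix.of fun i j => e j i) hC hs (fun i j => hB j i) hdet k i
    exact mul_le_mul h2 (hy i) (abs_nonneg _) (by positivity)
  refine (Finset.sum_le_sum h1).trans ?_
  rw [Finset.sum_const, Finset.card_univ, Fintype.card_fin, nsmul_eq_mul]
  exact le_of_eq (by ring)

lemma cc_sub {n : ℕ} (e : Fin n → Fin n → ℝ) (y y' : Fin n → ℝ) (k : Fin n) :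
    cc e (fun i => y i - y' i) k = cc e y k - cc e y' k := by
  unfold cc
  rw [← Finset.sum_sub_distrib]
  exact Finset.sum_congr rfl fun i _ => by ring

lemma skew_grid {n : ℕ} {C₁ C₂ s : ℝ} (hC₁ : 1 ≤ C₁) {M : ℕ}
    (i₀ : Fin n) (e : Fin n → Fin n → ℝ) (hs : 0 < s) (hB : ∀ j i, |e j i| ≤ C₁)
    (htime : ∀ j, e j i₀ = 1) (hdet : s ^ n ≤ |(Matrix.of fun i j => e j i).det|)
    (X : Finset (Fin n → ℤ)) (hX : ∀ γ ∈ X, ∀ i, 0 ≤ γ i ∧ γ i ≤ M)
    (ν : Fin n → (Fin n → ℤ) → (Fin n → ℤ))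
    (hν : ∀ γ ∈ X, ∀ j i, |(ν j γ i : ℝ) - (γ i - γ i₀ * e j i)| ≤ C₂) (R L L' : ℕ)
    (hR : n * (n.factorial * C₁ ^ n / s ^ n) ≤ R) (hL : n * C₁ < L)
    (hL' : 2 * n * C₁ + 2 * C₂ < L') (hL0 : 0 < L) (hL'0 : 0 < L') :
    ∃ (X₁ : Finset (Fin n → ℤ)) (g : (Fin n → ℤ) → Fin n → Fin (2 * R * M + 1)), X₁ ⊆ X ∧
      (X.card : ℝ) ≤ (L ^ n * (L' ^ n) ^ n : ℕ) * X₁.card ∧ Set.InjOn g X₁ ∧
      (∀ γ ∈ X₁, ∀ k, ((g γ k : ℕ) : ℝ) ≤ cc e (fun i => (γ i : ℝ)) k + R * M ∧
        cc e (fun i => (γ i : ℝ)) k + R * M < (g γ k : ℕ) + 1) ∧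
      (∀ γ ∈ X₁, ∀ γ' ∈ X₁, ∀ j, (∀ k, k ≠ j → g γ k = g γ' k) → ν j γ = ν j γ') := by
  classical
  have : NeZero L := ⟨hL0.ne'⟩
  have : NeZero L' := ⟨hL'0.ne'⟩
  have hdne : (Matrix.of fun i j => e j i).det ≠ 0 :=
    abs_pos.1 (lt_of_lt_of_le (pow_pos hs n) hdet)
  have hC₁0 : 0 < C₁ := by linarith
  -- the colours
  obtain ⟨b, hb⟩ := colour X (fun γ : Fin n → ℤ =>
    ((fun i => ((γ i : ℤ) : ZMod L)), (fun j i => ((ν j γ i : ℤ) : ZMod L'))))
  set X₁ : Finset (Fin n → ℤ) := X.filter fun γ => ((fun i => ((γ i : ℤ) : ZMod L)),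
    (fun j i => ((ν j γ i : ℤ) : ZMod L'))) = b with hX₁
  have hcard : Fintype.card ((Fin n → ZMod L) × (Fin n → Fin n → ZMod L')) =
      L ^ n * (L' ^ n) ^ n := by
    rw [Fintype.card_prod, Fintype.card_fun, Fintype.card_fun, Fintype.card_fun, ZMod.card,
      ZMod.card, Fintype.card_fin]
  rw [hcard] at hb
  have hcol : ∀ γ ∈ X₁, ∀ γ' ∈ X₁, (∀ i, ((γ i : ℤ) : ZMod L) = ((γ' i : ℤ) : ZMod L)) ∧
      ∀ j i, ((ν j γ i : ℤ) : ZMod L') = ((ν j γ' i : ℤ) : ZMod L') := by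
    intro γ hγ γ' hγ'
    have h1 := (Finset.mem_filter.1 hγ).2
    have h2 := (Finset.mem_filter.1 hγ').2
    rw [← h2] at h1
    refine ⟨fun i => congrFun (Prod.ext_iff.1 h1).1 i, fun j i => ?_⟩
    exact congrFun (congrFun (Prod.ext_iff.1 h1).2 j) i
  -- the grid map
  set g : (Fin n → ℤ) → Fin n → Fin (2 * R * M + 1) := fun γ k =>
    ⟨min ⌊cc e (fun i => (γ i : ℝ)) k + R * M⌋₊ (2 * R * M),
      Nat.lt_succ_of_le (min_le_right _ _)⟩ with hg
  have hcc : ∀ γ ∈ X, ∀ k, |cc e (fun i => (γ i : ℝ)) k| ≤ R * M := by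
    intro γ hγ k
    refine (cc_le hC₁ hs hB hdet _ (r := M) (fun i => ?_) k).trans ?_
    · have h1 := hX γ hγ i
      have h2 : (0 : ℝ) ≤ γ i := by exact_mod_cast h1.1
      have h3 : (γ i : ℝ) ≤ M := by exact_mod_cast h1.2
      rw [abs_of_nonneg h2]
      exact h3
    · exact mul_le_mul_of_nonneg_right hR (Nat.cast_nonneg M)
  have hgb : ∀ γ ∈ X, ∀ k, ((g γ k : ℕ) : ℝ) ≤ cc e (fun i => (γ i : ℝ)) k + R * M ∧
        cc e (fun i => (γ i : ℝ)) k + R * M < (g γ k : ℕ) + 1 := by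
    intro γ hγ k
    have h1 := hcc γ hγ k
    rw [abs_le] at h1
    have h2 : 0 ≤ cc e (fun i => (γ i : ℝ)) k + R * M := by linarith [h1.1]
    have h3 : ⌊cc e (fun i => (γ i : ℝ)) k + R * M⌋₊ ≤ 2 * R * M := by
      have h4 : cc e (fun i => (γ i : ℝ)) k + R * M ≤ ((2 * R * M : ℕ) : ℝ) := by
        push_cast
        linarith [h1.2]
      calc ⌊cc e (fun i => (γ i : ℝ)) k + R * M⌋₊ ≤ ⌊((2 * R * M : ℕ) : ℝ)⌋₊ :=
            Nat.floor_mono h4
        _ = 2 * R * M := Nat.floor_natCast _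
    have h5 : ((g γ k : ℕ)) = ⌊cc e (fun i => (γ i : ℝ)) k + R * M⌋₊ := by
      simp only [hg]
      exact min_eq_left h3
    rw [h5]
    exact ⟨Nat.floor_le h2, Nat.lt_floor_add_one _⟩
  have hX₁X : X₁ ⊆ X := Finset.filter_subset _ _
  -- close coordinates
  have hclose : ∀ γ ∈ X₁, ∀ γ' ∈ X₁, ∀ k, g γ k = g γ' k →
      |cc e (fun i => (γ i : ℝ)) k - cc e (fun i => (γ' i : ℝ)) k| ≤ 1 := by
    intro γ hγ γ' hγ' k hk
    have h1 := hgb γ (hX₁X hγ) k
    have h2 := hgb γ' (hX₁X hγ') k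
    rw [hk] at h1
    rw [abs_le]
    constructor <;> linarith [h1.1, h1.2, h2.1, h2.2]
  refine ⟨X₁, g, hX₁X, hb, ?_, fun γ hγ => hgb γ (hX₁X hγ), ?_⟩
  · intro γ hγ γ' hγ' hgg
    have hγ := Finset.mem_coe.1 hγ
    have hγ' := Finset.mem_coe.1 hγ'
    funext i
    refine eq_of_res ((hcol γ hγ γ' hγ').1 i) ?_
    have h1 : (γ i : ℝ) - γ' i = ∑ j, (cc e (fun i => (γ i : ℝ)) j -
        cc e (fun i => (γ' i : ℝ)) j) * e j i := by
      have e1 := cc_sum hdne (fun i => (γ i : ℝ)) i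
      have e2 := cc_sum hdne (fun i => (γ' i : ℝ)) i
      rw [← e1, ← e2, ← Finset.sum_sub_distrib]
      exact Finset.sum_congr rfl fun j _ => by ring
    rw [h1]
    refine lt_of_le_of_lt (Finset.abs_sum_le_sum_abs _ _) ?_
    refine lt_of_le_of_lt (Finset.sum_le_sum (g := fun _ => C₁) fun j _ => ?_) ?_
    · rw [abs_mul]
      have h2 := hclose γ hγ γ' hγ' j (congrFun hgg j)
      have h3 := hB j i
      have h4 := abs_nonneg (e j i)
      nlinarith [abs_nonneg (cc e (fun i => (γ i : ℝ)) j - cc e (fun i => (γ' i : ℝ)) j)]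
    · rw [Finset.sum_const, Finset.card_univ, Fintype.card_fin, nsmul_eq_mul]
      exact hL
  · intro γ hγ γ' hγ' j hk
    funext i
    refine eq_of_res ((hcol γ hγ γ' hγ').2 j i) ?_
    -- the foot of the line
    have hfoot : ∀ γ : Fin n → ℤ, (γ i : ℝ) - γ i₀ * e j i =
        ∑ k, cc e (fun i => (γ i : ℝ)) k * (e k i - e j i) := by
      intro γ
      have e1 := cc_sum hdne (fun i => (γ i : ℝ)) i
      have e2 := cc_sum hdne (fun i => (γ i : ℝ)) i₀
      simp only [htime, mul_one] at e2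
      rw [← e1, ← e2, Finset.sum_mul, ← Finset.sum_sub_distrib]
      exact Finset.sum_congr rfl fun k _ => by ring
    have h1 : |((γ i : ℝ) - γ i₀ * e j i) - ((γ' i : ℝ) - γ' i₀ * e j i)| ≤ 2 * n * C₁ := by
      rw [hfoot, hfoot, ← Finset.sum_sub_distrib]
      refine (Finset.abs_sum_le_sum_abs _ _).trans ?_
      refine (Finset.sum_le_sum (g := fun _ => 2 * C₁) fun k _ => ?_).trans ?_
      · by_cases hkj : k = j
        · rw [hkj, sub_self, mul_zero, mul_zero, sub_self, abs_zero]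
          linarith
        · rw [← sub_mul, abs_mul]
          have h2 := hclose γ hγ γ' hγ' k (hk k hkj)
          have h3 : |e k i - e j i| ≤ 2 * C₁ := by
            have := abs_sub (e k i) (e j i)
            linarith [hB k i, hB j i]
          have h4 := abs_nonneg (e k i - e j i)
          nlinarith [abs_nonneg (cc e (fun i => (γ i : ℝ)) k - cc e (fun i => (γ' i : ℝ)) k)]
      · rw [Finset.sum_const, Finset.card_univ, Fintype.card_fin, nsmul_eq_mul]
        exact le_of_eq (by ring)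
    have h2 := hν γ (hX₁X hγ) j i
    have h3 := hν γ' (hX₁X hγ') j i
    have h4 : |(ν j γ i : ℝ) - ν j γ' i| ≤ C₂ + 2 * n * C₁ + C₂ := by
      rw [abs_le] at h1 h2 h3 ⊢
      constructor <;> linarith [h1.1, h1.2, h2.1, h2.2, h3.1, h3.2]
    linarith

end Pool.REG
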