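import Pool.Agent.H37.REG.Core1
import Pool.Agent.H37.REG.Ranks
import Pool.Agent.H37.REG.Dirs3
import Pool.Agent.H37.REG.Skew

/-!
# The data on the cells

Module REG (regularity of closed labels).
-/

set_option autoImplicit false

namespace Pool.REG

open Finset Real
open Pool.Agent.H49.Ent Pool.Agent.H32.Dense Pool.STK Pool.KAL

/-- The rounded direction. -/
noncomputable def dv {Ω Λ : Type} {n : ℕ} (M : ℕ) (B : Λ → Fin n → ℝ) (lam : Ω → Λ) (ω : Ω) :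
    Fin n → ℤ := fun i => ⌊(M : ℝ) * B (lam ω) i⌋

/-- The data of the block lemma, with pointwise bounds on a typical event `E`. -/
structure Dat {Ω Λ V : Type} [Fintype Ω] {n : ℕ} (d NT M : ℕ) (C₀ δ Δ : ℝ) (p : Ω → ℝ)
    (cell : Ω → Fin n → ℤ) (val : Ω → V) (lam : Ω → Λ) (T : Ω → ℕ) (i₀ : Fin n)
    (A B : Λ → Fin n → ℝ) (P : Λ → Polynomial ℝ) (ψ : Ω → ℝ) (E : Ω → Prop) : Prop where
  isLaw : IsLaw p
  M_pos : 0 < M
  M_le : M ≤ NT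
  T_lt : ∀ ω, T ω < NT
  cell_mem : ∀ ω, 0 < p ω → ∀ i, 0 ≤ cell ω i ∧ cell ω i < M
  near : ∀ ω, 0 < p ω → ∀ i,
    |(cell ω i : ℝ) - M * (A (lam ω) i + (T ω : ℝ) / NT * B (lam ω) i)| ≤ C₀
  A_zero : ∀ ω, 0 < p ω → A (lam ω) i₀ = 0
  B_one : ∀ ω, 0 < p ω → B (lam ω) i₀ = 1
  B_le : ∀ ω, 0 < p ω → ∀ i, |B (lam ω) i| ≤ C₀
  psi_le : ∀ ω, 0 < p ω → |ψ ω| ≤ 1
  deg : ∀ l, (P l).natDegree ≤ d
  line : ∀ ω, 0 < p ω → |ψ ω - (P (lam ω)).eval ((T ω : ℝ) / NT)| ≤ C₀ / M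
  val_eq : ∀ ω ω', 0 < p ω → 0 < p ω' → cell ω = cell ω' → val ω = val ω' →
    |ψ ω - ψ ω'| ≤ C₀ / M
  ncf : ∀ (γ : Fin n → ℤ) (v : V) (u : Fin n → ℝ), (∀ i, |u i| ≤ 1) → (∃ i, |u i| = 1) →
    ms p (fun ω => (cell ω = γ ∧ val ω = v) ∧ |∑ i, u i * B (lam ω) i| ≤ δ) ≤
      1 / 64 * ms p (fun ω => cell ω = γ ∧ val ω = v)
  mE : ms p (fun ω => ¬ E ω) ≤ 1 / 64
  mv : ms p (fun ω => law p (fun ω => (val ω, cell ω)) (val ω, cell ω) <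
    1 / Δ * law p cell (cell ω)) ≤ 1 / 4
  e1 : ∀ ω, 0 < p ω → E ω → law p cell (cell ω) ≤ Δ / (M : ℝ) ^ n
  e2 : ∀ ω, 0 < p ω → E ω →
    law p (fun ω => (cell ω, dv M B lam ω)) (cell ω, dv M B lam ω) ≤
      Δ * law p cell (cell ω) * law p (dv M B lam) (dv M B lam ω)
  e3 : ∀ ω, 0 < p ω → E ω → law p (fun ω => (lam ω, T ω)) (lam ω, T ω) ≤
    Δ / NT * law p lam (lam ω)

/-- The nominal line. -/
noncomputable def nm {Λ : Type} {n : ℕ} (M : ℕ) (A B : Λ → Fin n → ℝ) (l : Λ) :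
    (Fin n → ℤ) × (Fin n → ℤ) :=
  (fun i => ⌊(M : ℝ) * A l i⌋, fun i => ⌊(M : ℝ) * B l i⌋)

lemma floor_close {x y : ℝ} (h : ⌊x⌋ = ⌊y⌋) : |x - y| ≤ 1 := by
  have h1 := Int.floor_le x
  have h2 := Int.lt_floor_add_one x
  have h3 := Int.floor_le y
  have h4 := Int.lt_floor_add_one y
  rw [h] at h1 h2
  rw [abs_le]
  constructor <;> linarith

/-- Two incidences of the same nominal line and the same time have close cells. -/
lemma cell_close {Ω Λ V : Type} [Fintype Ω] {n d NT M : ℕ} {C₀ δ Δ : ℝ} {p : Ω → ℝ}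
    {cell : Ω → Fin n → ℤ} {val : Ω → V} {lam : Ω → Λ} {T : Ω → ℕ} {i₀ : Fin n}
    {A B : Λ → Fin n → ℝ} {P : Λ → Polynomial ℝ} {ψ : Ω → ℝ} {E : Ω → Prop}
    (D : Dat d NT M C₀ δ Δ p cell val lam T i₀ A B P ψ E) {ω ω' : Ω} (hω : 0 < p ω)
    (hω' : 0 < p ω') (hT : T ω = T ω') (hn : nm M A B (lam ω) = nm M A B (lam ω')) (i : Fin n) :
    |(cell ω i : ℝ) - cell ω' i| ≤ 2 * C₀ + 2 := by
  have h1 := D.near ω hω i
  have h2 := D.near ω' hω' i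
  have h3 : |(M : ℝ) * A (lam ω) i - M * A (lam ω') i| ≤ 1 :=
    floor_close (congrFun (congrArg Prod.fst hn) i)
  have h4 : |(M : ℝ) * B (lam ω) i - M * B (lam ω') i| ≤ 1 :=
    floor_close (congrFun (congrArg Prod.snd hn) i)
  have hNT : (0 : ℝ) < NT := by exact_mod_cast lt_of_lt_of_le D.M_pos D.M_le
  have hτ0 : 0 ≤ (T ω : ℝ) / NT := by positivity
  have hτ1 : (T ω : ℝ) / NT ≤ 1 := by
    rw [div_le_one hNT]
    exact_mod_cast (D.T_lt ω).le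
  rw [← hT] at h2
  have h5 : |(T ω : ℝ) / NT * (M * B (lam ω) i - M * B (lam ω') i)| ≤ 1 := by
    rw [abs_mul, abs_of_nonneg hτ0]
    calc (T ω : ℝ) / NT * |(M : ℝ) * B (lam ω) i - M * B (lam ω') i| ≤ 1 * 1 :=
          mul_le_mul hτ1 h4 (abs_nonneg _) zero_le_one
      _ = 1 := one_mul 1
  rw [abs_le] at *
  constructor <;> nlinarith [h1.1, h1.2, h2.1, h2.2, h3.1, h3.2, h5.1, h5.2]

/-- The colour of a cell. -/
def cl {n : ℕ} (L : ℕ) (γ : Fin n → ℤ) : Fin n → ZMod L := fun i => (γ i : ZMod L)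

lemma cell_eq {n L : ℕ} {γ γ' : Fin n → ℤ} (hc : cl L γ = cl L γ')
    (h : ∀ i, |(γ i : ℝ) - γ' i| < L) : γ = γ' := by
  funext i
  exact eq_of_res (congrFun hc i) (h i)

end Pool.REG
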