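import Pool.Agent.H37.REG.Core2

/-!
# Assembly of the data on the cells

Module REG (regularity of closed labels).
-/

set_option autoImplicit false

namespace Pool.REG

open Finset Real
open Pool.Agent.H49.Ent Pool.Agent.H32.Dense Pool.STK Pool.KAL

lemma exists_pos {Ω : Type} [Fintype Ω] {q : Ω → ℝ} (hq : IsLaw q) : ∃ ω, 0 < q ω := by
  by_contra hcon
  push Not at hcon
  have : ∑ ω, q ω ≤ 0 := Finset.sum_nonpos fun ω _ => hcon ω
  rw [hq.sum_one] at this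
  linarith

/-- The mass of the good incidences in the point event. -/
lemma good_mass {Ω Γ Λ : Type} [Fintype Ω] {p : Ω → ℝ} (hp : IsLaw p) (cell : Ω → Γ)
    (lam : Ω → Λ) (S E : Ω → Prop) (Lg : Finset Λ) (hPS : 0 < ms p S)
    (h5 : ∀ ω, S ω → ms p (fun ω' => cell ω' = cell ω ∧ S ω' ∧ ¬ E ω') ≤
      1 / 16 * ms p (fun ω' => cell ω' = cell ω ∧ S ω'))
    (hL : ms p (fun ω => S ω ∧ E ω ∧ lam ω ∉ Lg) ≤ ms p S / 16) :
    1 / 2 ≤ ms (rs p S) (fun ω => S ω ∧ E ω ∧ lam ω ∈ Lg) := by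
  classical
  have hp0 := hp.nonneg
  have h1 : ms p (fun ω => S ω ∧ ¬ E ω) ≤ 1 / 16 * ms p S := by
    set F : Finset Γ := (univ.filter fun ω => S ω).image cell with hF
    have e1 : ms p (fun ω => S ω ∧ ¬ E ω) = ∑ γ ∈ F, ms p (fun ω => cell ω = γ ∧ S ω ∧ ¬ E ω) :=
      ms_eq_sum p _ _ fun ω h _ => Finset.mem_image_of_mem _
        (Finset.mem_filter.2 ⟨Finset.mem_univ _, h.1⟩)
    have e2 : ms p S = ∑ γ ∈ F, ms p (fun ω => cell ω = γ ∧ S ω) :=
      ms_eq_sum p _ _ fun ω h _ => Finset.mem_image_of_mem _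
        (Finset.mem_filter.2 ⟨Finset.mem_univ _, h⟩)
    rw [e1, e2, Finset.mul_sum]
    refine Finset.sum_le_sum fun γ hγ => ?_
    rw [hF, Finset.mem_image] at hγ
    obtain ⟨ω, hω, rfl⟩ := hγ
    exact h5 ω (Finset.mem_filter.1 hω).2
  have h2 : ms p S ≤ ms p (fun ω => (S ω ∧ E ω ∧ lam ω ∈ Lg) ∧ S ω) +
      (ms p (fun ω => S ω ∧ ¬ E ω) + ms p (fun ω => S ω ∧ E ω ∧ lam ω ∉ Lg)) := by
    refine le_trans (ms_mono hp0 (F := fun ω => ((S ω ∧ E ω ∧ lam ω ∈ Lg) ∧ S ω) ∨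
      ((S ω ∧ ¬ E ω) ∨ (S ω ∧ E ω ∧ lam ω ∉ Lg))) fun ω _ h => ?_) ?_
    · by_cases a : E ω
      · by_cases b : lam ω ∈ Lg
        · exact Or.inl ⟨⟨h, a, b⟩, h⟩
        · exact Or.inr (Or.inr ⟨h, a, b⟩)
      · exact Or.inr (Or.inl ⟨h, a⟩)
    · exact (ms_or hp0 _ _).trans (add_le_add le_rfl (ms_or hp0 _ _))
  rw [ms_rs, le_div_iff₀ hPS]
  linarith

lemma card_box {n M : ℕ} (F : Finset (Fin n → ℤ)) (h : ∀ γ ∈ F, ∀ i, 0 ≤ γ i ∧ γ i < M) :
    (F.card : ℝ) ≤ (M : ℝ) ^ n := by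
  classical
  have h1 : F ⊆ Fintype.piFinset fun _ : Fin n => Finset.Ico (0 : ℤ) M := by
    intro γ hγ
    rw [Fintype.mem_piFinset]
    intro i
    rw [Finset.mem_Ico]
    exact h γ hγ i
  have h2 := Finset.card_le_card h1
  rw [Fintype.card_piFinset] at h2
  simp only [Int.card_Ico, sub_zero, Int.toNat_natCast, Finset.prod_const, Finset.card_univ,
    Fintype.card_fin] at h2
  exact_mod_cast h2

/-- The nonconcentration for rounded directions. -/
lemma ncf_round {Ω Λ V : Type} [Fintype Ω] {n d NT M : ℕ} {C₀ δ Δ : ℝ} {p : Ω → ℝ}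
    {cell : Ω → Fin n → ℤ} {val : Ω → V} {lam : Ω → Λ} {T : Ω → ℕ} {i₀ : Fin n}
    {A B : Λ → Fin n → ℝ} {P : Λ → Polynomial ℝ} {ψ : Ω → ℝ} {E : Ω → Prop}
    (D : Dat d NT M C₀ δ Δ p cell val lam T i₀ A B P ψ E) {s : ℝ} (hs0 : 0 < s)
    (hsδ : s + n / M ≤ δ) {S : Ω → Prop}
    (hS1 : ∀ ω ω', cell ω = cell ω' → val ω = val ω' → S ω → S ω')
    (hS2 : ∀ ω ω', S ω → S ω' → cell ω = cell ω' → val ω = val ω')
    (γ : Fin n → ℤ) (u : Fin n → ℝ) (hu : ∃ i, 1 ≤ |u i|) :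
    ms p (fun ω => (cell ω = γ ∧ |∑ i, u i * ((dv M B lam ω i : ℝ) / M)| ≤ s) ∧ S ω) ≤
      1 / 64 * ms p (fun ω => cell ω = γ ∧ S ω) := by
  classical
  have hp0 := D.isLaw.nonneg
  have hM : (0 : ℝ) < M := by exact_mod_cast D.M_pos
  by_cases hex : ∃ ω₀, cell ω₀ = γ ∧ S ω₀
  · obtain ⟨ω₀, hc₀, hS₀⟩ := hex
    have hiff : ∀ ω, (cell ω = γ ∧ S ω) ↔ (cell ω = γ ∧ val ω = val ω₀) := by
      intro ω
      constructor
      · rintro ⟨h1, h2⟩
        exact ⟨h1, hS2 ω ω₀ h2 hS₀ (h1.trans hc₀.symm)⟩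
      · rintro ⟨h1, h2⟩
        exact ⟨h1, hS1 ω₀ ω (hc₀.trans h1.symm) h2.symm hS₀⟩
    rw [ms_congr hiff]
    obtain ⟨i₁, _, hi₁⟩ := Finset.exists_max_image (univ : Finset (Fin n)) (fun i => |u i|)
      ⟨i₀, Finset.mem_univ _⟩
    have hU : 1 ≤ |u i₁| := by
      obtain ⟨i, hi⟩ := hu
      exact hi.trans (hi₁ i (Finset.mem_univ _))
    have hU0 : 0 < |u i₁| := by linarith
    have h1 := D.ncf γ (val ω₀) (fun i => u i / |u i₁|) (fun i => by
      rw [abs_div, abs_abs, div_le_one hU0]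
      exact hi₁ i (Finset.mem_univ _)) ⟨i₁, by
      rw [abs_div, abs_abs]
      exact div_self hU0.ne'⟩
    refine le_trans (ms_mono hp0 fun ω hω h => ?_) h1
    obtain ⟨⟨h2, h3⟩, h4⟩ := h
    refine ⟨(hiff ω).1 ⟨h2, h4⟩, ?_⟩
    have e1 : ∑ i, u i / |u i₁| * B (lam ω) i =
        (∑ i, u i * ((dv M B lam ω i : ℝ) / M)) / |u i₁| +
          ∑ i, u i / |u i₁| * (B (lam ω) i - (dv M B lam ω i : ℝ) / M) := by
      rw [Finset.sum_div, ← Finset.sum_add_distrib]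
      exact Finset.sum_congr rfl fun i _ => by ring
    have e2 : |(∑ i, u i * ((dv M B lam ω i : ℝ) / M)) / (|u i₁|)| ≤ s := by
      rw [abs_div, abs_abs, div_le_iff₀ hU0]
      calc |∑ i, u i * ((dv M B lam ω i : ℝ) / M)| ≤ s * 1 := by rw [mul_one]; exact h3
        _ ≤ s * |u i₁| := mul_le_mul_of_nonneg_left hU hs0.le
    have e3 : |∑ i, u i / |u i₁| * (B (lam ω) i - (dv M B lam ω i : ℝ) / M)| ≤ n / M := by
      refine (Finset.abs_sum_le_sum_abs _ _).trans ?_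
      have : ∀ i ∈ (univ : Finset (Fin n)),
          |u i / |u i₁| * (B (lam ω) i - (dv M B lam ω i : ℝ) / M)| ≤ 1 / M := by
        intro i _
        rw [abs_mul, abs_div, abs_abs]
        have f1 : |u i| / |u i₁| ≤ 1 := by
          rw [div_le_one hU0]
          exact hi₁ i (Finset.mem_univ _)
        have f2 : |B (lam ω) i - (dv M B lam ω i : ℝ) / M| ≤ 1 / M := by
          have g1 : B (lam ω) i - (dv M B lam ω i : ℝ) / M =
              (M * B (lam ω) i - (dv M B lam ω i : ℝ)) / M := by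
            field_simp
          rw [g1, abs_div, abs_of_pos hM]
          refine div_le_div_of_nonneg_right ?_ hM.le
          unfold dv
          have g2 := Int.floor_le ((M : ℝ) * B (lam ω) i)
          have g3 := Int.lt_floor_add_one ((M : ℝ) * B (lam ω) i)
          rw [abs_le]
          constructor <;> linarith
        calc |u i| / |u i₁| * |B (lam ω) i - (dv M B lam ω i : ℝ) / M| ≤ 1 * (1 / M) :=
              mul_le_mul f1 f2 (abs_nonneg _) zero_le_one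
          _ = 1 / M := one_mul _
      refine (Finset.sum_le_sum this).trans ?_
      rw [Finset.sum_const, Finset.card_univ, Fintype.card_fin, nsmul_eq_mul]
      exact (le_of_eq (by ring))
    rw [e1]
    have e4 := abs_add_le ((∑ i, u i * ((dv M B lam ω i : ℝ) / M)) / |u i₁|)
      (∑ i, u i / |u i₁| * (B (lam ω) i - (dv M B lam ω i : ℝ) / M))
    linarith
  · have h1 : ms p (fun ω => (cell ω = γ ∧ |∑ i, u i * ((dv M B lam ω i : ℝ) / M)| ≤ s) ∧
        S ω) ≤ 0 := by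
      unfold ms
      refine Finset.sum_nonpos fun ω _ => ?_
      rw [if_neg]
      rintro ⟨⟨h2, _⟩, h3⟩
      exact hex ⟨ω, h2, h3⟩
    have h2 := ms_nonneg hp0 (fun ω => cell ω = γ ∧ S ω)
    linarith

/-- The weights of the labels. -/
noncomputable def wt {Ω Λ : Type} [Fintype Ω] {n : ℕ} (M : ℕ) (B : Λ → Fin n → ℝ) (p : Ω → ℝ)
    (lam : Ω → Λ) (R : ℕ) (D : (Fin n → ℤ) × ℕ) : ℝ :=
  if D.2 < R then law p (dv M B lam) D.1 / R else 0

lemma wt_nonneg {Ω Λ : Type} [Fintype Ω] {n : ℕ} (M : ℕ) (B : Λ → Fin n → ℝ) {p : Ω → ℝ}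
    (hp : ∀ ω, 0 ≤ p ω) (lam : Ω → Λ) (R : ℕ) (D : (Fin n → ℤ) × ℕ) : 0 ≤ wt M B p lam R D := by
  unfold wt
  split_ifs
  · exact div_nonneg (law_nonneg hp _ _) (Nat.cast_nonneg _)
  · exact le_rfl

lemma sum_wt {Ω Λ : Type} [Fintype Ω] {n : ℕ} (M : ℕ) (B : Λ → Fin n → ℝ) {p : Ω → ℝ}
    (hp : IsLaw p) (lam : Ω → Λ) {R : ℕ} (hR : 0 < R) (F : Finset ((Fin n → ℤ) × ℕ)) :
    ∑ D ∈ F, wt M B p lam R D ≤ 1 := by
  classical
  have hp0 := hp.nonneg
  have hR' : (0 : ℝ) < R := by exact_mod_cast hR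
  set G : Finset (Fin n → ℤ) := F.image Prod.fst with hG
  have h1 : F ⊆ G ×ˢ (F.image Prod.snd) := by
    intro D hD
    rw [Finset.mem_product]
    exact ⟨Finset.mem_image_of_mem _ hD, Finset.mem_image_of_mem _ hD⟩
  calc ∑ D ∈ F, wt M B p lam R D ≤ ∑ D ∈ G ×ˢ (F.image Prod.snd), wt M B p lam R D :=
        Finset.sum_le_sum_of_subset_of_nonneg h1 fun D _ _ => wt_nonneg M B hp0 lam R D
    _ = ∑ g ∈ G, ∑ r ∈ F.image Prod.snd, wt M B p lam R (g, r) := Finset.sum_product _ _ _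
    _ ≤ ∑ g ∈ G, law p (dv M B lam) g := by
      refine Finset.sum_le_sum fun g _ => ?_
      calc ∑ r ∈ F.image Prod.snd, wt M B p lam R (g, r) =
          ∑ r ∈ (F.image Prod.snd).filter (fun r => r < R), law p (dv M B lam) g / R := by
            rw [Finset.sum_filter]
            rfl
        _ ≤ ∑ r ∈ Finset.range R, law p (dv M B lam) g / R := by
            refine Finset.sum_le_sum_of_subset_of_nonneg ?_ fun r _ _ =>
              div_nonneg (law_nonneg hp0 _ _) hR'.le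
            intro r hr
            rw [Finset.mem_range]
            exact (Finset.mem_filter.1 hr).2
        _ = law p (dv M B lam) g := by
            rw [Finset.sum_const, Finset.card_range, nsmul_eq_mul]
            field_simp
    _ ≤ ∑ g ∈ G ∪ univ.image (dv M B lam), law p (dv M B lam) g :=
        Finset.sum_le_sum_of_subset_of_nonneg Finset.subset_union_left fun g _ _ =>
          law_nonneg hp0 _ _
    _ = ∑ g ∈ univ.image (dv M B lam), law p (dv M B lam) g := by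
        symm
        refine Finset.sum_subset Finset.subset_union_right fun g _ hg => ?_
        exact law_eq_zero_of_notMem p _ hg
    _ = 1 := sum_law_one hp.sum_one _

end Pool.REG
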