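import Pool.Agent.H37.REG.Core3

/-!
# The data on the cells, assembly

Module REG (regularity of closed labels).
-/

set_option autoImplicit false

namespace Pool.REG

open Finset Real
open Pool.Agent.H49.Ent Pool.Agent.H32.Dense Pool.STK Pool.KAL

lemma dt_eq {n : ℕ} (e : ℕ → Fin n → ℝ) :
    dt n e = (Matrix.of fun i j : Fin n => e (j : ℕ) i).det := by
  unfold dt
  congr 1
  ext i j
  rw [Matrix.of_apply, Matrix.of_apply]
  unfold Pool.KS3.MKC.vx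
  rw [dif_pos i.2]

lemma coreA (n d : ℕ) : ∃ Cr Cl : ℝ, 1 ≤ Cr ∧ 1 ≤ Cl ∧
    ∀ (Ω Λ V : Type) [Fintype Ω] (NT M : ℕ) (C₀ δ Δ : ℝ) (p : Ω → ℝ)
      (cell : Ω → Fin n → ℤ) (val : Ω → V) (lam : Ω → Λ) (T : Ω → ℕ) (i₀ : Fin n)
      (A B : Λ → Fin n → ℝ) (P : Λ → Polynomial ℝ) (ψ : Ω → ℝ) (E : Ω → Prop)
      (L₃ : ℕ) (a Aq s AI A₀ : ℝ),
      Dat d NT M C₀ δ Δ p cell val lam T i₀ A B P ψ E → 1 ≤ C₀ → 1 ≤ Δ →
      2 * C₀ + 2 < L₃ → a = 2 * (L₃ : ℝ) ^ n → Aq = 16 * a * Δ ^ 2 → 0 < s →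
      s + n / M ≤ δ → AI = Δ ^ 2 * (2 * Aq ^ 2 + 1) → A₀ = a * Δ ^ 2 → Cr * Aq ^ 2 ≤ NT →
      Cl * Aq ≤ NT →
      ∃ (S : Ω → Prop) (e : Fin n → Fin n → ℝ) (X : Finset (Fin n → ℤ)) (f : (Fin n → ℤ) → ℝ)
        (ν : Fin n → (Fin n → ℤ) → Fin n → ℤ) (PP : Fin n → (Fin n → ℤ) → Polynomial ℝ),
        (∀ j i, |e j i| ≤ C₀ + 1) ∧ (∀ j, e j i₀ = 1) ∧
        s ^ n ≤ |(Matrix.of fun i j => e j i).det| ∧
        (∀ γ ∈ X, ∀ i, 0 ≤ γ i ∧ γ i < M) ∧
        (∀ γ ∈ X, ∀ j i, |(ν j γ i : ℝ) - (γ i - γ i₀ * e j i)| ≤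
          2 + C₀ + C₀ * (C₀ + 1)) ∧
        (∀ γ ∈ X, ∀ j, (PP j (ν j γ)).natDegree ≤ d ∧
          |f γ - (PP j (ν j γ)).eval ((γ i₀ : ℝ) / M)| ≤
            (2 * C₀ + Cr * Aq ^ (2 * d) * (3 * C₀) + Cl * Aq ^ d * (2 * C₀) * C₀) / M ∧
          ∀ t t' : ℝ, |t| ≤ 2 → |t'| ≤ 2 →
            |(PP j (ν j γ)).eval t - (PP j (ν j γ)).eval t'| ≤
              Cl * Aq ^ d * (2 * C₀) * |t - t'|) ∧
        (∀ γ ∈ X, |f γ| ≤ 1) ∧
        (1 / (16 * AI)) ^ n * (1 / (4 * A₀)) * (M : ℝ) ^ n ≤ X.card ∧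
        (∀ ω, 0 < p ω → S ω → cell ω ∈ X → |ψ ω - f (cell ω)| ≤ C₀ / M) ∧
        ∀ γ ∈ X, 1 / (8 * a * Δ) / (M : ℝ) ^ n ≤ ms p (fun ω => cell ω = γ ∧ S ω) := by
  classical
  obtain ⟨Cr, hCr, hranks⟩ := ranks d
  obtain ⟨Cl, hCl, hlip⟩ := lip2 d
  refine ⟨Cr, Cl, hCr, hCl, ?_⟩
  intro Ω Λ V _ NT M C₀ δ Δ p cell val lam T i₀ A B P ψ E L₃ a Aq s AI A₀ D hC₀ hΔ hL₃ ha hAq
    hs hsδ hAI hA₀ hCrNT hClNT
  have hp := D.isLaw
  have hp0 := hp.nonneg
  have hM : (0 : ℝ) < M := by exact_mod_cast D.M_pos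
  have hM1 : (1 : ℝ) ≤ M := by exact_mod_cast D.M_pos
  have hNTpos : 0 < NT := lt_of_lt_of_le D.M_pos D.M_le
  have hNT : (0 : ℝ) < NT := by exact_mod_cast hNTpos
  have hΔ0 : 0 < Δ := by linarith
  have hL₃pos : 0 < L₃ := by
    have : (0 : ℝ) < L₃ := by linarith
    exact_mod_cast this
  have : NeZero L₃ := ⟨hL₃pos.ne'⟩
  have hL₃1 : (1 : ℝ) ≤ (L₃ : ℝ) ^ n := one_le_pow₀ (by exact_mod_cast hL₃pos)
  have ha2 : 2 ≤ a := by rw [ha]; linarith
  have hΔ2 : 1 ≤ Δ ^ 2 := one_le_pow₀ hΔ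
  have hAq1 : 1 ≤ Aq := by
    rw [hAq]
    nlinarith
  have hAq0 : 0 < Aq := by linarith
  obtain ⟨ωp, hωp⟩ := exists_pos hp
  have : Nonempty Ω := ⟨ωp⟩
  have : Nonempty Λ := ⟨lam ωp⟩
  -- the point event
  obtain ⟨S, hS1, hS2, hS3, hS4, hS5⟩ := select hp cell val (cl L₃) E (c := 1 / Δ)
    (by positivity) D.mE D.mv
  have hPS : 1 / (a * Δ) ≤ ms p S := by
    refine le_trans (le_of_eq ?_) hS4
    rw [Fintype.card_fun, Fintype.card_fin, ZMod.card, ha]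
    push_cast
    field_simp
  have hPS0 : 0 < ms p S := lt_of_lt_of_le (by positivity) hPS
  have hPSinv : 1 / ms p S ≤ a * Δ := by
    rw [div_le_iff₀ hPS0]
    have := mul_le_mul_of_nonneg_left hPS (show 0 ≤ a * Δ by positivity)
    rwa [mul_one_div_cancel (by positivity : a * Δ ≠ 0)] at this
  -- lines with many times
  obtain ⟨Lg, hLg1, hLg2⟩ := lines hp S E lam T hΔ0 hNTpos D.e3 hPS0
  set tm : Λ → Finset ℕ := fun l => tme p (fun ω => S ω ∧ E ω) lam T l with htm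
  have hdens : ∀ l ∈ Lg, (NT : ℝ) / Aq ≤ (tm l).card := by
    intro l hl
    refine le_trans ?_ (hLg1 l hl)
    rw [hAq]
    calc (NT : ℝ) / (16 * a * Δ ^ 2) = 1 / (a * Δ) * NT / (16 * Δ) := by field_simp
      _ ≤ ms p S * NT / (16 * Δ) := by
        refine div_le_div_of_nonneg_right ?_ (by positivity)
        exact mul_le_mul_of_nonneg_right hPS hNT.le
  have htmlt : ∀ l ∈ Lg, ∀ t ∈ tm l, t < NT := by
    intro l _ t ht
    obtain ⟨ω, _, _, _, h4⟩ := mem_tme.1 ht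
    rw [← h4]
    exact D.T_lt ω
  have hcell : ∀ ω ω', 0 < p ω → 0 < p ω' → S ω → S ω' → T ω = T ω' →
      nm M A B (lam ω) = nm M A B (lam ω') → cell ω = cell ω' := by
    intro ω ω' h1 h2 h3 h4 h5 h6
    refine cell_eq (L := L₃) (hS3 ω ω' h3 h4) fun i => ?_
    exact lt_of_le_of_lt (cell_close D h1 h2 h5 h6 i) hL₃
  have hcv : ∀ ω ω', 0 < p ω → 0 < p ω' → S ω → S ω' → cell ω = cell ω' →
      |ψ ω - ψ ω'| ≤ C₀ / M := fun ω ω' h1 h2 h3 h4 h5 =>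
    D.val_eq ω ω' h1 h2 h5 (hS2 ω ω' h3 h4 h5)
  obtain ⟨rk, st, hrk⟩ := hranks Λ ((Fin n → ℤ) × (Fin n → ℤ)) Lg (nm M A B) tm P NT Aq
    (3 * C₀ / M) hAq1 hNTpos hCrNT (fun l _ => D.deg l) htmlt hdens (by
      intro l _ l' _ hn t ht ht'
      obtain ⟨ω, h1, h2, h3, h4⟩ := mem_tme.1 ht
      obtain ⟨ω', h1', h2', h3', h4'⟩ := mem_tme.1 ht'
      have h5 := hcell ω ω' h1 h1' h2.1 h2'.1 (h4.trans h4'.symm) (by rw [h3, h3', hn])
      have h6 := hcv ω ω' h1 h1' h2.1 h2'.1 h5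
      have h7 := D.line ω h1
      have h8 := D.line ω' h1'
      rw [h3, h4] at h7
      rw [h3', h4'] at h8
      have e1 : 3 * C₀ / M = C₀ / M + C₀ / M + C₀ / M := by ring
      rw [e1]
      rw [abs_le] at h6 h7 h8 ⊢
      constructor <;> linarith [h6.1, h6.2, h7.1, h7.2, h8.1, h8.2])
  -- the restricted law
  set q : Ω → ℝ := rs p S with hq
  have hqlaw : IsLaw q := rs_isLaw hp0 hPS0
  set E' : Ω → Prop := fun ω => S ω ∧ E ω ∧ lam ω ∈ Lg with hE'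
  have hE'm : 1 / 2 ≤ ms q E' := good_mass hp cell lam S E Lg hPS0 (fun ω h => (hS5 ω h).1) hLg2
  set R : ℕ := ⌈2 * Aq ^ 2⌉₊ with hR
  have hR0 : 0 < R := Nat.ceil_pos.2 (by positivity)
  have hRle : (R : ℝ) ≤ 2 * Aq ^ 2 + 1 := (Nat.ceil_lt_add_one (by positivity)).le
  have hR' : (0 : ℝ) < R := by exact_mod_cast hR0
  have hAI0 : 0 < AI := by rw [hAI]; positivity
  have hA₀0 : 0 < A₀ := by rw [hA₀]; positivity
  have hAIR : Δ ^ 2 * R ≤ AI := by
    rw [hAI]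
    exact mul_le_mul_of_nonneg_left hRle (by positivity)
  obtain ⟨e, X, hdet, hX1, hX2, hX3⟩ := dirs3 hqlaw cell
    (fun ω => (dv M B lam ω, rk (lam ω))) (fun D i => (D.1 i : ℝ) / M)
    (wt M B p lam R) E' (W := (M : ℝ) ^ n) (A₀ := A₀) (AI := AI) (κ := 1) (η := 1 / 2) (s := s)
    (ε₀ := 1 / 64) (by positivity) (wt_nonneg M B hp0 lam R) (sum_wt M B hp lam hR0) hA₀0 hAI0
    le_rfl (by norm_num) hs (by
      rw [one_mul]
      refine card_box _ fun γ hγ i => ?_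
      simp only [Finset.mem_image, Finset.mem_filter, Finset.mem_univ, true_and] at hγ
      obtain ⟨ω, hω, rfl⟩ := hγ
      exact D.cell_mem ω (rs_pos hp0 hω).2 i) hE'm (by
      intro ω hω hEω
      rw [hq, law_rs, hA₀]
      have h1 : ms p (fun ω' => cell ω' = cell ω ∧ S ω') ≤ law p cell (cell ω) := by
        rw [law_eq_ms]
        exact ms_mono hp0 fun ω' _ h => h.1
      have h2 := D.e1 ω (rs_pos hp0 hω).2 hEω.2.1
      calc ms p (fun ω' => cell ω' = cell ω ∧ S ω') / ms p S ≤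
          Δ / (M : ℝ) ^ n / ms p S :=
            div_le_div_of_nonneg_right (h1.trans h2) hPS0.le
        _ = Δ / (M : ℝ) ^ n * (1 / ms p S) := by ring
        _ ≤ Δ / (M : ℝ) ^ n * (a * Δ) := mul_le_mul_of_nonneg_left hPSinv (by positivity)
        _ = a * Δ ^ 2 / (M : ℝ) ^ n := by ring) (by
      intro ω hω hEω
      have hpω := (rs_pos hp0 hω).2
      have hrkω := (hrk (lam ω) hEω.2.2).1
      have hrkR : rk (lam ω) < R := by
        have h1 : (rk (lam ω) : ℝ) < R := lt_of_lt_of_le hrkω (Nat.le_ceil _)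
        exact_mod_cast h1
      have hwt : wt M B p lam R (dv M B lam ω, rk (lam ω)) =
          law p (dv M B lam) (dv M B lam ω) / R := if_pos hrkR
      rw [hwt, hq, law_rs, law_rs]
      have h1 : ms p (fun ω' => (cell ω', dv M B lam ω', rk (lam ω')) =
          (cell ω, dv M B lam ω, rk (lam ω)) ∧ S ω') ≤
          law p (fun ω => (cell ω, dv M B lam ω)) (cell ω, dv M B lam ω) := by
        rw [law_eq_ms]
        refine ms_mono hp0 fun ω' _ h => ?_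
        have h2 := h.1
        rw [Prod.ext_iff, Prod.ext_iff] at h2
        exact Prod.ext h2.1 h2.2.1
      have h2 := D.e2 ω hpω hEω.2.1
      have h3 := (hS5 ω hEω.1).2
      have h4 : law p cell (cell ω) ≤ Δ * ms p (fun ω' => cell ω' = cell ω ∧ S ω') := by
        have := mul_le_mul_of_nonneg_left h3 hΔ0.le
        rwa [← mul_assoc, mul_one_div_cancel hΔ0.ne', one_mul] at this
      have h5 : 0 ≤ law p (dv M B lam) (dv M B lam ω) := law_nonneg hp0 _ _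
      have h6 : 0 ≤ ms p (fun ω' => cell ω' = cell ω ∧ S ω') := ms_nonneg hp0 _
      have h7 : Δ * law p cell (cell ω) * law p (dv M B lam) (dv M B lam ω) ≤
          Δ * (Δ * ms p (fun ω' => cell ω' = cell ω ∧ S ω')) *
            law p (dv M B lam) (dv M B lam ω) :=
        mul_le_mul_of_nonneg_right (mul_le_mul_of_nonneg_left h4 hΔ0.le) h5
      have h8 : Δ * (Δ * ms p (fun ω' => cell ω' = cell ω ∧ S ω')) *
          law p (dv M B lam) (dv M B lam ω) / ms p S =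
          Δ ^ 2 * R * (ms p (fun ω' => cell ω' = cell ω ∧ S ω') / ms p S) *
            (law p (dv M B lam) (dv M B lam ω) / R) := by
        field_simp
      calc _ ≤ Δ * (Δ * ms p (fun ω' => cell ω' = cell ω ∧ S ω')) *
          law p (dv M B lam) (dv M B lam ω) / ms p S :=
            div_le_div_of_nonneg_right ((h1.trans h2).trans h7) hPS0.le
        _ = Δ ^ 2 * R * (ms p (fun ω' => cell ω' = cell ω ∧ S ω') / ms p S) *
            (law p (dv M B lam) (dv M B lam ω) / R) := h8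
        _ ≤ AI * (ms p (fun ω' => cell ω' = cell ω ∧ S ω') / ms p S) *
            (law p (dv M B lam) (dv M B lam ω) / R) := by
          refine mul_le_mul_of_nonneg_right ?_ (by positivity)
          exact mul_le_mul_of_nonneg_right hAIR (by positivity)) (by
      intro γ u hu
      have h1 := ncf_round D hs hsδ hS1 hS2 γ u hu
      rw [hq, law_rs]
      refine le_trans (le_of_eq (?_ : _ = ms (rs p S) (fun ω => cell ω = γ ∧
        |∑ i, u i * ((dv M B lam ω i : ℝ) / M)| ≤ s))) ?_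
      · unfold ms
        refine Finset.sum_congr rfl fun ω _ => ?_
        by_cases h : cell ω = γ ∧ |∑ i, u i * ((dv M B lam ω i : ℝ) / M)| ≤ s
        · rw [if_pos h, if_pos h]
        · rw [if_neg h, if_neg h]
      rw [ms_rs]
      calc _ ≤ 1 / 64 * ms p (fun ω => cell ω = γ ∧ S ω) / ms p S :=
            div_le_div_of_nonneg_right h1 hPS0.le
        _ = 1 / 64 * (ms p (fun ω => cell ω = γ ∧ S ω) / ms p S) := by ring) (by norm_num) n le_rfl
  -- the cells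
  have hMn : (0 : ℝ) < (M : ℝ) ^ n := by positivity
  have hcount : (1 / (16 * AI)) ^ n * (1 / (4 * A₀)) * (M : ℝ) ^ n ≤ X.card := by
    have e1 : 1 / 2 / (8 * AI) = 1 / (16 * AI) := by
      field_simp
      norm_num
    have e2 : 1 / 2 / (2 * A₀) = 1 / (4 * A₀) := by
      field_simp
      norm_num
    rw [e1, e2] at hX3
    exact hX3
  have hXne : X.Nonempty := by
    have : (0 : ℝ) < X.card := lt_of_lt_of_le (by positivity) hcount
    exact Finset.card_pos.1 (by exact_mod_cast this)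
  have hn : 0 < n := i₀.pos
  have hmass : ∀ γ ∈ X, 1 / (8 * a * Δ) / (M : ℝ) ^ n ≤ ms p (fun ω => cell ω = γ ∧ S ω) := by
    intro γ hγ
    have h1 := (hX1 γ hγ).1
    rw [hq, law_rs, le_div_iff₀ hPS0] at h1
    refine le_trans ?_ h1
    have e1 : (1 : ℝ) / 2 / (4 * 1) / (M : ℝ) ^ n * ms p S = ms p S / (8 * (M : ℝ) ^ n) := by
      field_simp
      norm_num
    rw [e1, le_div_iff₀ (by positivity)]
    refine le_trans (le_of_eq ?_) hPS
    field_simp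
  choose! om hom using hX2
  have hom1 : ∀ γ ∈ X, ∀ i < n, 0 < p (om γ i) ∧ S (om γ i) ∧ lam (om γ i) ∈ Lg ∧
      cell (om γ i) = γ ∧ dv M B lam (om γ i) = (e i).1 ∧ rk (lam (om γ i)) = (e i).2 := by
    intro γ hγ i hi
    obtain ⟨h1, h2, h3, h4⟩ := hom γ hγ i hi
    exact ⟨(rs_pos hp0 h1).2, h2.1, h2.2.2, h3, congrArg Prod.fst h4, congrArg Prod.snd h4⟩
  refine ⟨S, fun j i => ((e j).1 i : ℝ) / M, X, fun γ => ψ (om γ 0),
    fun j γ i => ⌊(M : ℝ) * A (lam (om γ j)) i⌋,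
    fun j v => P (st (v, (e j).1) (e j).2), ?_, ?_, ?_, ?_, ?_, ?_, ?_, hcount, ?_, hmass⟩
  · intro j i
    obtain ⟨γ, hγ⟩ := hXne
    obtain ⟨h1, _, _, _, h5, _⟩ := hom1 γ hγ j j.2
    show |((e j).1 i : ℝ) / M| ≤ C₀ + 1
    rw [← h5]
    have h6 := D.B_le _ h1 i
    have h7 : |((dv M B lam (om γ j) i : ℤ) : ℝ) - M * B (lam (om γ j)) i| ≤ 1 := by
      unfold dv
      have g2 := Int.floor_le ((M : ℝ) * B (lam (om γ j)) i)
      have g3 := Int.lt_floor_add_one ((M : ℝ) * B (lam (om γ j)) i)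
      rw [abs_le]
      constructor <;> linarith
    rw [abs_div, abs_of_pos hM, div_le_iff₀ hM]
    have h8 : |(M : ℝ) * B (lam (om γ j)) i| ≤ M * C₀ := by
      rw [abs_mul, abs_of_pos hM]
      exact mul_le_mul_of_nonneg_left h6 hM.le
    rw [abs_le] at h7 h8 ⊢
    constructor <;> nlinarith [h7.1, h7.2, h8.1, h8.2]
  · intro j
    obtain ⟨γ, hγ⟩ := hXne
    obtain ⟨h1, _, _, _, h5, _⟩ := hom1 γ hγ j j.2
    show ((e j).1 i₀ : ℝ) / M = 1
    rw [← h5]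
    unfold dv
    rw [D.B_one _ h1, mul_one, Int.floor_natCast, Int.cast_natCast]
    exact div_self hM.ne'
  · rw [dt_eq] at hdet
    exact hdet
  · intro γ hγ i
    obtain ⟨h1, _, _, h4, _, _⟩ := hom1 γ hγ 0 hn
    rw [← h4]
    exact D.cell_mem _ h1 i
  · intro γ hγ j i
    obtain ⟨h1, _, _, h4, h5, _⟩ := hom1 γ hγ j j.2
    set ω := om γ j with hω
    show |((⌊(M : ℝ) * A (lam ω) i⌋ : ℤ) : ℝ) - (γ i - γ i₀ * (((e j).1 i : ℝ) / M))| ≤ _
    rw [← h5, ← h4]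
    have h6 := D.near ω h1 i
    have h7 := D.near ω h1 i₀
    rw [D.A_zero ω h1, D.B_one ω h1, zero_add, mul_one] at h7
    have h8 := D.B_le ω h1 i
    set τ : ℝ := (T ω : ℝ) / NT with hτ
    have hτ0 : 0 ≤ τ := by positivity
    have hτ1 : τ ≤ 1 := by
      rw [hτ, div_le_one hNT]
      exact_mod_cast (D.T_lt ω).le
    have h9 : |B (lam ω) i - (dv M B lam ω i : ℝ) / M| ≤ 1 / M := by
      have g1 : B (lam ω) i - (dv M B lam ω i : ℝ) / M =
          (M * B (lam ω) i - (dv M B lam ω i : ℝ)) / M := by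
        field_simp
      rw [g1, abs_div, abs_of_pos hM]
      refine div_le_div_of_nonneg_right ?_ hM.le
      unfold dv
      have g2 := Int.floor_le ((M : ℝ) * B (lam ω) i)
      have g3 := Int.lt_floor_add_one ((M : ℝ) * B (lam ω) i)
      rw [abs_le]
      constructor <;> linarith
    have h10 : |(dv M B lam ω i : ℝ) / M| ≤ C₀ + 1 := by
      have g1 : 1 / (M : ℝ) ≤ 1 := by
        rw [div_le_one hM]
        exact hM1
      have g2 := abs_sub_comm (B (lam ω) i) ((dv M B lam ω i : ℝ) / M)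
      rw [abs_le] at h8 h9 ⊢
      constructor <;> linarith [h8.1, h8.2, h9.1, h9.2]
    have e1 : ((⌊(M : ℝ) * A (lam ω) i⌋ : ℤ) : ℝ) -
        ((cell ω i : ℝ) - cell ω i₀ * ((dv M B lam ω i : ℝ) / M)) =
        (((⌊(M : ℝ) * A (lam ω) i⌋ : ℤ) : ℝ) - M * A (lam ω) i) -
          ((cell ω i : ℝ) - M * (A (lam ω) i + τ * B (lam ω) i)) +
          (cell ω i₀ - M * τ) * ((dv M B lam ω i : ℝ) / M) -
          M * τ * (B (lam ω) i - (dv M B lam ω i : ℝ) / M) := by ring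
    rw [e1]
    have f1 : |((⌊(M : ℝ) * A (lam ω) i⌋ : ℤ) : ℝ) - M * A (lam ω) i| ≤ 1 := by
      have g2 := Int.floor_le ((M : ℝ) * A (lam ω) i)
      have g3 := Int.lt_floor_add_one ((M : ℝ) * A (lam ω) i)
      rw [abs_le]
      constructor <;> linarith
    have f2 : |((cell ω i₀ : ℝ) - M * τ) * ((dv M B lam ω i : ℝ) / M)| ≤ C₀ * (C₀ + 1) := by
      rw [abs_mul]
      exact mul_le_mul h7 h10 (abs_nonneg _) (by linarith)
    have f3 : |M * τ * (B (lam ω) i - (dv M B lam ω i : ℝ) / M)| ≤ 1 := by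
      rw [abs_mul, abs_mul, abs_of_pos hM, abs_of_nonneg hτ0]
      calc (M : ℝ) * τ * |B (lam ω) i - (dv M B lam ω i : ℝ) / M| ≤ M * 1 * (1 / M) :=
            mul_le_mul (mul_le_mul_of_nonneg_left hτ1 hM.le) h9 (abs_nonneg _) (by positivity)
        _ = 1 := by field_simp
    rw [abs_le] at f1 f2 f3 h6 ⊢
    constructor <;> linarith [f1.1, f1.2, f2.1, f2.2, f3.1, f3.2, h6.1, h6.2]
  · intro γ hγ j
    obtain ⟨h1, hS', hLg', h4, h5, h6⟩ := hom1 γ hγ j j.2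
    obtain ⟨h1', hS'', _, h4', _, _⟩ := hom1 γ hγ 0 hn
    set ω := om γ j with hω
    have hnm : ((fun i => ⌊(M : ℝ) * A (lam ω) i⌋, (e j).1) : (Fin n → ℤ) × (Fin n → ℤ)) =
        nm M A B (lam ω) := by
      rw [← h5]
      rfl
    show (P (st (fun i => ⌊(M : ℝ) * A (lam ω) i⌋, (e j).1) (e j).2)).natDegree ≤ d ∧ _
    show _ ∧ |ψ (om γ 0) - (P (st (fun i => ⌊(M : ℝ) * A (lam ω) i⌋, (e j).1) (e j).2)).eval
      ((γ i₀ : ℝ) / M)| ≤ _ ∧ ∀ t t' : ℝ, |t| ≤ 2 → |t'| ≤ 2 →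
      |(P (st (fun i => ⌊(M : ℝ) * A (lam ω) i⌋, (e j).1) (e j).2)).eval t -
      (P (st (fun i => ⌊(M : ℝ) * A (lam ω) i⌋, (e j).1) (e j).2)).eval t'| ≤ _
    rw [hnm, ← h6]
    obtain ⟨_, hstL, hstn, hstc⟩ := hrk (lam ω) hLg'
    set l' := st (nm M A B (lam ω)) (rk (lam ω)) with hl'
    have hlipl : ∀ t t' : ℝ, |t| ≤ 2 → |t'| ≤ 2 →
        |(P l').eval t - (P l').eval t'| ≤ Cl * Aq ^ d * (2 * C₀) * |t - t'| := by
      refine hlip (P l') (tm l') NT Aq (2 * C₀) (D.deg l') hAq1 hNTpos hClNT (by linarith)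
        (htmlt l' hstL) (hdens l' hstL) ?_
      intro t ht
      obtain ⟨ω', g1, g2, g3, g4⟩ := mem_tme.1 ht
      have g5 := D.line ω' g1
      have g6 := D.psi_le ω' g1
      rw [g3, g4] at g5
      have g7 : C₀ / M ≤ C₀ := div_le_self (by linarith) hM1
      rw [abs_le] at g5 g6 ⊢
      constructor <;> linarith [g5.1, g5.2, g6.1, g6.2]
    refine ⟨D.deg l', ?_, hlipl⟩
    set τ : ℝ := (T ω : ℝ) / NT with hτ
    have hτ0 : 0 ≤ τ := by positivity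
    have hτ1 : τ ≤ 1 := by
      rw [hτ, div_le_one hNT]
      exact_mod_cast (D.T_lt ω).le
    have g1 : |ψ (om γ 0) - ψ ω| ≤ C₀ / M := hcv _ _ h1' h1 hS'' hS' (h4'.trans h4.symm)
    have g2 := D.line ω h1
    have g3 := hstc τ (by rw [abs_of_nonneg hτ0]; linarith)
    have g4 := D.near ω h1 i₀
    rw [D.A_zero ω h1, D.B_one ω h1, zero_add, mul_one, h4] at g4
    have g5 : |τ - (γ i₀ : ℝ) / M| ≤ C₀ / M := by
      have e1 : τ - (γ i₀ : ℝ) / M = -(((γ i₀ : ℝ) - M * τ) / M) := by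
        field_simp
        ring
      rw [e1, abs_neg, abs_div, abs_of_pos hM]
      exact div_le_div_of_nonneg_right g4 hM.le
    have g6 := D.cell_mem ω h1 i₀
    rw [h4] at g6
    have g7 : |(γ i₀ : ℝ) / M| ≤ 2 := by
      have a1 : (0 : ℝ) ≤ γ i₀ := by exact_mod_cast g6.1
      have a2 : (γ i₀ : ℝ) ≤ M := by exact_mod_cast g6.2.le
      rw [abs_of_nonneg (by positivity)]
      have : (γ i₀ : ℝ) / M ≤ 1 := by
        rw [div_le_one hM]
        exact a2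
      linarith
    have g8 := hlipl τ ((γ i₀ : ℝ) / M) (by rw [abs_of_nonneg hτ0]; linarith) g7
    have g9 : Cl * Aq ^ d * (2 * C₀) * |τ - (γ i₀ : ℝ) / M| ≤
        Cl * Aq ^ d * (2 * C₀) * (C₀ / M) :=
      mul_le_mul_of_nonneg_left g5 (by positivity)
    have e1 : (2 * C₀ + Cr * Aq ^ (2 * d) * (3 * C₀) + Cl * Aq ^ d * (2 * C₀) * C₀) / M =
        C₀ / M + C₀ / M + Cr * Aq ^ (2 * d) * (3 * C₀ / M) +
          Cl * Aq ^ d * (2 * C₀) * (C₀ / M) := by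
      field_simp
      ring
    rw [e1]
    have g10 := g8.trans g9
    rw [abs_le] at g1 g2 g3 g10 ⊢
    constructor <;> linarith [g1.1, g1.2, g2.1, g2.2, g3.1, g3.2, g10.1, g10.2]
  · intro γ hγ
    exact D.psi_le _ (hom1 γ hγ 0 hn).1
  · intro ω hω hSω hX
    obtain ⟨h1, hS', _, h4, _, _⟩ := hom1 _ hX 0 hn
    exact hcv ω _ hω h1 hSω hS' h4.symm

end Pool.REG
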