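import Pool.Agent.H45.KAL.MKC

/-!
# Common directions

Module REG (regularity of closed labels), step 3: a nondegenerate tuple of nominal directions which
is available at many cells.
-/

set_option autoImplicit false

namespace Pool.REG

open Finset Real
open Pool.Agent.H49.Ent Pool.Agent.H32.Dense Pool.STK

/-- The determinant of the first `k` vectors, first `k` coordinates. -/
noncomputable def dt {n : ℕ} (k : ℕ) (e : ℕ → Fin n → ℝ) : ℝ :=
  Matrix.det (Matrix.of fun i j : Fin k => Pool.KS3.MKC.vx (e j) i)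

lemma cofactor {n k : ℕ} (hk : k + 1 ≤ n) (e : ℕ → Fin n → ℝ) {s : ℝ} (hs : 0 < s)
    (hdet : s ^ k ≤ |dt k e|) :
    ∃ u : Fin n → ℝ, (∃ i, 1 ≤ |u i|) ∧ ∀ v : Fin n → ℝ, s < |∑ i, u i * v i| →
      s ^ (k + 1) ≤ |dt (k + 1) (fun j => if j < k then e j else v)| := by
  classical
  have hlt : ∀ i : Fin (k + 1), (i : ℕ) < n := fun i => lt_of_lt_of_le i.2 hk
  set M₀ : Matrix (Fin (k + 1)) (Fin (k + 1)) ℝ :=
    Matrix.of fun i j : Fin (k + 1) => Pool.KS3.MKC.vx (e j) i with hM₀
  set co : Fin (k + 1) → ℝ := fun i =>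
    (-1) ^ ((i : ℕ) + (Fin.last k : Fin (k + 1))) *
      (M₀.submatrix i.succAbove (Fin.last k).succAbove).det with hco
  have hform : ∀ v : Fin n → ℝ, dt (k + 1) (fun j => if j < k then e j else v) =
      ∑ i : Fin (k + 1), co i * Pool.KS3.MKC.vx v i := by
    intro v
    unfold dt
    rw [Matrix.det_succ_column _ (Fin.last k)]
    refine Finset.sum_congr rfl fun i _ => ?_
    have e1 : (Matrix.of fun i j : Fin (k + 1) => Pool.KS3.MKC.vx
        ((fun j : ℕ => if j < k then e j else v) j) i) i (Fin.last k) =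
        Pool.KS3.MKC.vx v i := by
      simp only [Matrix.of_apply, Fin.val_last, lt_irrefl, if_false]
    have e2 : (Matrix.of fun i j : Fin (k + 1) => Pool.KS3.MKC.vx
        ((fun j : ℕ => if j < k then e j else v) j) i).submatrix i.succAbove
        (Fin.last k).succAbove =
        M₀.submatrix i.succAbove (Fin.last k).succAbove := by
      ext a b
      simp only [Matrix.submatrix_apply, Matrix.of_apply, hM₀, Fin.succAbove_last,
        Fin.val_castSucc, Fin.is_lt, if_true]
    rw [e1, e2]
    simp only [hco]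
    ring
  have hlast : |co (Fin.last k)| = |dt k e| := by
    simp only [hco]
    rw [abs_mul, abs_pow, abs_neg, abs_one, one_pow, one_mul]
    unfold dt
    congr 2
    ext a b
    simp only [Matrix.submatrix_apply, Matrix.of_apply, hM₀, Fin.succAbove_last,
      Fin.val_castSucc]
  set u : Fin n → ℝ := fun i =>
    if h : (i : ℕ) < k + 1 then co ⟨i, h⟩ / s ^ k else 0 with hu
  have hsum : ∀ v : Fin n → ℝ, ∑ i, u i * v i =
      (∑ i : Fin (k + 1), co i * Pool.KS3.MKC.vx v i) / s ^ k := by
    intro v
    rw [Finset.sum_div]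
    have e1 : ∀ i : Fin (k + 1), co i * Pool.KS3.MKC.vx v i / s ^ k =
        (fun i : Fin n => u i * v i) (Fin.castLE hk i) := by
      intro i
      have h1 : ((Fin.castLE hk i : Fin n) : ℕ) < k + 1 := i.2
      simp only [hu, Pool.KS3.MKC.vx]
      rw [dif_pos h1, dif_pos (hlt i)]
      have h2 : (⟨((Fin.castLE hk i : Fin n) : ℕ), h1⟩ : Fin (k + 1)) = i := rfl
      have h3 : (⟨(i : ℕ), hlt i⟩ : Fin n) = Fin.castLE hk i := rfl
      rw [h2, h3]
      ring
    rw [Finset.sum_congr rfl fun i _ => e1 i]
    rw [← Finset.sum_image (f := fun i : Fin n => u i * v i)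
      (g := fun i : Fin (k + 1) => Fin.castLE hk i) (s := univ)
      (fun a _ b _ h => Fin.castLE_injective hk h)]
    symm
    refine Finset.sum_subset (Finset.subset_univ _) ?_
    intro i _ hi
    have h1 : ¬ (i : ℕ) < k + 1 := by
      intro h
      apply hi
      rw [Finset.mem_image]
      exact ⟨⟨i, h⟩, Finset.mem_univ _, rfl⟩
    simp only [hu]
    rw [dif_neg h1, zero_mul]
  refine ⟨u, ⟨⟨k, by omega⟩, ?_⟩, ?_⟩
  · have h1 : u ⟨k, by omega⟩ = co (Fin.last k) / s ^ k := by
      simp only [hu]
      rw [dif_pos (Nat.lt_succ_self k)]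
      rfl
    rw [h1, abs_div, abs_of_pos (pow_pos hs k), le_div_iff₀ (pow_pos hs k), one_mul, hlast]
    exact hdet
  · intro v hv
    rw [hform]
    rw [hsum, abs_div, abs_of_pos (pow_pos hs k), lt_div_iff₀ (pow_pos hs k)] at hv
    rw [pow_succ]
    linarith

/-- Common directions. `W` is the number of cells, `m` the number of directions. -/
lemma dirs {Ω Γ : Type} [Fintype Ω] {n : ℕ} {q : Ω → ℝ} (hq : IsLaw q) (cell : Ω → Γ)
    (dir : Ω → Fin n → ℝ) (E : Ω → Prop) {W m A₀ AI κ η s ε₀ : ℝ} (hW : 0 < W) (hm0 : 0 < m)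
    (hA₀ : 1 ≤ A₀) (hAI : 1 ≤ AI) (hκ : 1 ≤ κ) (hη : 0 < η) (hs : 0 < s)
    (hcell : (open Classical in ((((univ.filter fun ω => 0 < q ω).image cell).card : ℕ) : ℝ)) ≤
      κ * W)
    (hdir : (open Classical in ((((univ.filter fun ω => 0 < q ω).image dir).card : ℕ) : ℝ)) ≤ m)
    (hE : η ≤ ∑ ω, (open Classical in if E ω then q ω else 0))
    (h2 : ∀ γ, law q cell γ ≤ A₀ / W)
    (h3 : ∀ γ d, law q (fun ω => (cell ω, dir ω)) (γ, d) ≤ AI / (W * m))
    (h5 : ∀ γ (u : Fin n → ℝ), (∃ i, 1 ≤ |u i|) → ∑ ω, (open Classical in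
      if cell ω = γ ∧ |∑ i, u i * dir ω i| ≤ s then q ω else 0) ≤ ε₀ * law q cell γ)
    (hε : ε₀ ≤ η / 8) (j : ℕ) (hj : j ≤ n) :
    ∃ (e : ℕ → Fin n → ℝ) (X : Finset Γ), s ^ j ≤ |dt j e| ∧
      (∀ γ ∈ X, η / (4 * κ) / W ≤ law q cell γ ∧ η / 4 * law q cell γ ≤
        ∑ ω, (open Classical in if cell ω = γ ∧ E ω then q ω else 0)) ∧
      (∀ γ ∈ X, ∀ i < j, ∃ ω, 0 < q ω ∧ E ω ∧ cell ω = γ ∧ dir ω = e i) ∧
      (η ^ 2 / (32 * κ * AI)) ^ j * (η / (2 * A₀)) * W ≤ X.card := by
  classical
  have hq0 := hq.nonneg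
  induction j with
  | zero =>
    set Call : Finset Γ := (univ.filter fun ω => 0 < q ω).image cell with hCall
    set τ : ℝ := η / (4 * κ) with hτ
    have hτ0 : 0 < τ := by positivity
    set F : Γ → ℝ := fun γ => ∑ ω, if cell ω = γ ∧ E ω then q ω else 0 with hF
    have hF0 : ∀ γ, 0 ≤ F γ := fun γ => Finset.sum_nonneg fun ω _ => by
      split_ifs
      · exact hq0 ω
      · exact le_rfl
    have hFle : ∀ γ, F γ ≤ law q cell γ := by
      intro γ
      rw [hF]
      unfold law
      refine Finset.sum_le_sum fun ω _ => ?_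
      by_cases h : cell ω = γ
      · by_cases h' : E ω
        · rw [if_pos ⟨h, h'⟩, if_pos h]
        · rw [if_neg (fun hh => h' hh.2), if_pos h]
          exact hq0 ω
      · rw [if_neg (fun hh => h hh.1), if_neg h]
    set X : Finset Γ := Call.filter fun γ => τ / W ≤ law q cell γ ∧
      η / 4 * law q cell γ ≤ F γ with hX
    refine ⟨fun _ _ => 0, X, ?_, ?_, ?_, ?_⟩
    · simp [dt]
    · intro γ hγ
      rw [hX, Finset.mem_filter] at hγ
      exact hγ.2
    · intro γ _ i hi
      exact absurd hi (Nat.not_lt_zero i)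
    · rw [pow_zero, one_mul]
      -- the mass of `E` in the good cells
      have hsumE : ∑ ω, (if E ω then q ω else 0) = ∑ γ ∈ Call, F γ := by
        rw [hF]
        simp only
        rw [Finset.sum_comm]
        refine Finset.sum_congr rfl fun ω _ => ?_
        rcases (hq0 ω).eq_or_lt with h0 | h0
        · rw [← h0]
          simp
        · by_cases h' : E ω
          · simp only [h', and_true, if_true]
            rw [Finset.sum_ite_eq, if_pos]
            rw [hCall, Finset.mem_image]
            exact ⟨ω, by simp [h0], rfl⟩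
          · simp only [h', and_false, if_false, Finset.sum_const_zero]
      have hlaw1 : ∑ γ ∈ Call, law q cell γ ≤ 1 := by
        have h1 : ∑ γ ∈ Call, law q cell γ ≤ ∑ γ ∈ univ.image cell, law q cell γ := by
          refine Finset.sum_le_sum_of_subset_of_nonneg ?_ fun γ _ _ => law_nonneg hq0 cell γ
          rw [hCall]
          exact Finset.image_subset_image (Finset.filter_subset _ _)
        rw [sum_law, hq.sum_one] at h1
        exact h1
      have hsplit : ∑ γ ∈ Call, F γ ≤ ∑ γ ∈ X, F γ + ∑ γ ∈ Call, τ / W +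
          ∑ γ ∈ Call, η / 4 * law q cell γ := by
        have h1 : ∑ γ ∈ Call, F γ = ∑ γ ∈ X, F γ + ∑ γ ∈ Call.filter (fun γ => ¬ (τ / W ≤
            law q cell γ ∧ η / 4 * law q cell γ ≤ F γ)), F γ := by
          rw [hX, Finset.sum_filter_add_sum_filter_not]
        have h2 : ∑ γ ∈ Call.filter (fun γ => ¬ (τ / W ≤
            law q cell γ ∧ η / 4 * law q cell γ ≤ F γ)), F γ ≤
            ∑ γ ∈ Call.filter (fun γ => ¬ (τ / W ≤
            law q cell γ ∧ η / 4 * law q cell γ ≤ F γ)), (τ / W + η / 4 * law q cell γ) := by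
          refine Finset.sum_le_sum fun γ hγ => ?_
          have h3 := (Finset.mem_filter.1 hγ).2
          have h4 := law_nonneg hq0 cell γ
          have h5 := hFle γ
          have h6 : 0 ≤ τ / W := by positivity
          have h7 : 0 ≤ η / 4 * law q cell γ := by positivity
          by_cases h8 : τ / W ≤ law q cell γ
          · have h9 : ¬ η / 4 * law q cell γ ≤ F γ := fun h => h3 ⟨h8, h⟩
            linarith [not_le.1 h9]
          · linarith [not_le.1 h8]
        have h3 : ∑ γ ∈ Call.filter (fun γ => ¬ (τ / W ≤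
            law q cell γ ∧ η / 4 * law q cell γ ≤ F γ)), (τ / W + η / 4 * law q cell γ) ≤
            ∑ γ ∈ Call, (τ / W + η / 4 * law q cell γ) := by
          refine Finset.sum_le_sum_of_subset_of_nonneg (Finset.filter_subset _ _) ?_
          intro γ _ _
          have h4 := law_nonneg hq0 cell γ
          positivity
        have h4 := h2.trans h3
        rw [Finset.sum_add_distrib] at h4
        linarith
      have ha : ∑ _γ ∈ Call, τ / W ≤ η / 4 := by
        rw [Finset.sum_const, nsmul_eq_mul]
        calc (Call.card : ℝ) * (τ / W) ≤ κ * W * (τ / W) :=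
              mul_le_mul_of_nonneg_right hcell (by positivity)
          _ = η / 4 := by
            rw [hτ]
            field_simp
      have hb : ∑ γ ∈ Call, η / 4 * law q cell γ ≤ η / 4 := by
        rw [← Finset.mul_sum]
        nlinarith
      have hXF : ∑ γ ∈ X, F γ ≤ X.card * (A₀ / W) := by
        rw [← nsmul_eq_mul]
        exact Finset.sum_le_card_nsmul _ _ _ fun γ _ => (hFle γ).trans (h2 γ)
      have h8 : η / 2 ≤ X.card * (A₀ / W) := by
        rw [hsumE] at hE
        linarith
      calc η / (2 * A₀) * W = η / 2 * (W / A₀) := by field_simp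
        _ ≤ X.card * (A₀ / W) * (W / A₀) := mul_le_mul_of_nonneg_right h8 (by positivity)
        _ = X.card := by field_simp
  | succ j ih =>
    obtain ⟨e, X, hdet, hX1, hX2, hX3⟩ := ih (by omega)
    obtain ⟨u, hu, hv⟩ := cofactor hj e hs hdet
    set τ : ℝ := η / (4 * κ) with hτ
    have hτ0 : 0 < τ := by positivity
    -- the mass of the good incidences transverse to the previous directions
    set g : Γ → (Fin n → ℝ) → ℝ := fun γ d => ∑ ω,
      if cell ω = γ ∧ dir ω = d ∧ E ω ∧ s < |∑ i, u i * dir ω i| then q ω else 0 with hg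
    have hg0 : ∀ γ d, 0 ≤ g γ d := fun γ d => Finset.sum_nonneg fun ω _ => by
      split_ifs
      · exact hq0 ω
      · exact le_rfl
    set Dall : Finset (Fin n → ℝ) := (univ.filter fun ω => 0 < q ω).image dir with hDall
    have hcellmass : ∀ γ ∈ X, η / 8 * (τ / W) ≤ ∑ d ∈ Dall, g γ d := by
      intro γ hγ
      have h1 := hX1 γ hγ
      have h4 := h5 γ u hu
      have h6 : ∑ ω, (if cell ω = γ ∧ E ω then q ω else 0) ≤
          ∑ ω, (if cell ω = γ ∧ |∑ i, u i * dir ω i| ≤ s then q ω else 0) +
          ∑ d ∈ Dall, g γ d := by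
        have h7 : ∑ d ∈ Dall, g γ d = ∑ ω, if cell ω = γ ∧ E ω ∧ s < |∑ i, u i * dir ω i|
            then q ω else 0 := by
          rw [hg]
          simp only
          rw [Finset.sum_comm]
          refine Finset.sum_congr rfl fun ω _ => ?_
          rcases (hq0 ω).eq_or_lt with h0 | h0
          · rw [← h0]
            simp
          · by_cases h' : cell ω = γ ∧ E ω ∧ s < |∑ i, u i * dir ω i|
            · rw [if_pos h']
              rw [Finset.sum_eq_single (dir ω)]
              · rw [if_pos ⟨h'.1, rfl, h'.2⟩]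
              · intro d _ hd
                rw [if_neg (fun hh => hd hh.2.1.symm)]
              · intro hd
                refine absurd ?_ hd
                rw [hDall, Finset.mem_image]
                exact ⟨ω, by simp [h0], rfl⟩
            · rw [if_neg h']
              refine Finset.sum_eq_zero fun d _ => ?_
              rw [if_neg (fun hh => h' ⟨hh.1, hh.2.2⟩)]
        rw [h7, ← Finset.sum_add_distrib]
        refine Finset.sum_le_sum fun ω _ => ?_
        have hω := hq0 ω
        by_cases a : cell ω = γ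
        · by_cases b : E ω
          · by_cases c : s < |∑ i, u i * dir ω i|
            · rw [if_pos (show cell ω = γ ∧ E ω from ⟨a, b⟩), if_pos (show cell ω = γ ∧ E ω ∧
                s < |∑ i, u i * dir ω i| from ⟨a, b, c⟩)]
              split_ifs <;> linarith
            · rw [if_pos (show cell ω = γ ∧ E ω from ⟨a, b⟩), if_pos (show cell ω = γ ∧
                |∑ i, u i * dir ω i| ≤ s from ⟨a, not_lt.1 c⟩)]
              split_ifs <;> linarith
          · rw [if_neg (fun hh => b hh.2)]
            split_ifs <;> linarith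
        · rw [if_neg (fun hh => a hh.1)]
          split_ifs <;> linarith
      have h8 : 0 ≤ law q cell γ := law_nonneg hq0 cell γ
      have h9 : ε₀ * law q cell γ ≤ η / 8 * law q cell γ := mul_le_mul_of_nonneg_right hε h8
      have h10 : η / 8 * (τ / W) ≤ η / 8 * law q cell γ :=
        mul_le_mul_of_nonneg_left h1.1 (by positivity)
      linarith [h1.2]
    have htot : (X.card : ℝ) * (η / 8 * (τ / W)) ≤ ∑ d ∈ Dall, ∑ γ ∈ X, g γ d := by
      rw [Finset.sum_comm, ← nsmul_eq_mul]
      exact Finset.card_nsmul_le_sum _ _ _ hcellmass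
    -- a popular direction
    have hDne : Dall.Nonempty := by
      obtain ⟨ω, _, hω⟩ : ∃ ω ∈ (univ : Finset Ω), 0 < q ω := by
        by_contra hcon
        push Not at hcon
        have : ∑ ω, q ω ≤ 0 := Finset.sum_nonpos hcon
        rw [hq.sum_one] at this
        linarith
      exact ⟨dir ω, by rw [hDall, Finset.mem_image]; exact ⟨ω, by simp [hω], rfl⟩⟩
    obtain ⟨d, hd, hdm⟩ : ∃ d ∈ Dall, (X.card : ℝ) * (η / 8 * (τ / W)) / m ≤
        ∑ γ ∈ X, g γ d := by
      by_contra hcon
      push Not at hcon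
      have h1 : ∑ d ∈ Dall, ∑ γ ∈ X, g γ d <
          ∑ _d ∈ Dall, (X.card : ℝ) * (η / 8 * (τ / W)) / m :=
        Finset.sum_lt_sum_of_nonempty hDne hcon
      rw [Finset.sum_const, nsmul_eq_mul] at h1
      have h6 : (Dall.card : ℝ) * ((X.card : ℝ) * (η / 8 * (τ / W)) / m) ≤
          m * ((X.card : ℝ) * (η / 8 * (τ / W)) / m) :=
        mul_le_mul_of_nonneg_right hdir (by positivity)
      have h7 : m * ((X.card : ℝ) * (η / 8 * (τ / W)) / m) =
          (X.card : ℝ) * (η / 8 * (τ / W)) := by
        field_simp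
      linarith
    set X' : Finset Γ := X.filter fun γ => 0 < g γ d with hX'
    have hcard : ∑ γ ∈ X, g γ d ≤ X'.card * (AI / (W * m)) := by
      have h1 : ∑ γ ∈ X, g γ d = ∑ γ ∈ X', g γ d := by
        rw [hX', Finset.sum_filter]
        refine Finset.sum_congr rfl fun γ _ => ?_
        split_ifs with h
        · rfl
        · exact le_antisymm (not_lt.1 h) (hg0 γ d)
      rw [h1, ← nsmul_eq_mul]
      refine Finset.sum_le_card_nsmul _ _ _ fun γ _ => ?_
      refine le_trans ?_ (h3 γ d)
      rw [hg]
      unfold law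
      refine Finset.sum_le_sum fun ω _ => ?_
      by_cases h : cell ω = γ ∧ dir ω = d ∧ E ω ∧ s < |∑ i, u i * dir ω i|
      · rw [if_pos h, if_pos (by simp only [h.1, h.2.1])]
      · rw [if_neg h]
        split_ifs
        · exact hq0 ω
        · exact le_rfl
    -- a good incidence for every cell of `X'`
    have hinc : ∀ γ ∈ X', ∃ ω, 0 < q ω ∧ E ω ∧ cell ω = γ ∧ dir ω = d ∧
        s < |∑ i, u i * d i| := by
      intro γ hγ
      have h1 := (Finset.mem_filter.1 hγ).2
      by_contra hcon
      push Not at hcon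
      have h6 : g γ d ≤ 0 := by
        rw [hg]
        refine Finset.sum_nonpos fun ω _ => ?_
        by_cases h : cell ω = γ ∧ dir ω = d ∧ E ω ∧ s < |∑ i, u i * dir ω i|
        · rw [if_pos h]
          by_contra hc
          push Not at hc
          have h7 := hcon ω hc h.2.2.1 h.1 h.2.1
          rw [h.2.1] at h
          linarith [h.2.2.2]
        · rw [if_neg h]
      linarith
    refine ⟨fun i => if i < j then e i else d, X', ?_, ?_, ?_, ?_⟩
    · -- the determinant
      by_cases hne : X'.Nonempty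
      · obtain ⟨γ, hγ⟩ := hne
        obtain ⟨ω, _, _, _, _, hs'⟩ := hinc γ hγ
        exact hv d hs'
      · exfalso
        rw [Finset.not_nonempty_iff_eq_empty] at hne
        rw [hne, Finset.card_empty, Nat.cast_zero, zero_mul] at hcard
        have hXpos : 0 < (X.card : ℝ) := lt_of_lt_of_le (by positivity) hX3
        have : 0 < (X.card : ℝ) * (η / 8 * (τ / W)) / m := by positivity
        linarith
    · intro γ hγ
      exact hX1 γ (Finset.mem_filter.1 hγ).1
    · intro γ hγ i hi
      by_cases hij : i < j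
      · obtain ⟨ω, a, b, c, f⟩ := hX2 γ (Finset.mem_filter.1 hγ).1 i hij
        refine ⟨ω, a, b, c, ?_⟩
        show dir ω = if i < j then e i else d
        rw [if_pos hij, f]
      · obtain ⟨ω, a, b, c, f, _⟩ := hinc γ hγ
        refine ⟨ω, a, b, c, ?_⟩
        show dir ω = if i < j then e i else d
        rw [if_neg hij, f]
    · have h1 : (X.card : ℝ) * (η / 8 * (τ / W)) / m ≤ X'.card * (AI / (W * m)) :=
        hdm.trans hcard
      have h6 : (X.card : ℝ) * (η ^ 2 / (32 * κ * AI)) ≤ X'.card := by
        have e1 : (X.card : ℝ) * (η / 8 * (τ / W)) / m =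
            (X.card : ℝ) * (η ^ 2 / (32 * κ * AI)) * (AI / (W * m)) := by
          rw [hτ]
          field_simp
          ring
        rw [e1] at h1
        exact le_of_mul_le_mul_right h1 (by positivity)
      calc (η ^ 2 / (32 * κ * AI)) ^ (j + 1) * (η / (2 * A₀)) * W =
          ((η ^ 2 / (32 * κ * AI)) ^ j * (η / (2 * A₀)) * W) * (η ^ 2 / (32 * κ * AI)) := by
            ring
        _ ≤ X.card * (η ^ 2 / (32 * κ * AI)) :=
            mul_le_mul_of_nonneg_right hX3 (by positivity)
        _ ≤ X'.card := h6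

end Pool.REG
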