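import Pool.Agent.H37.REG.Dirs

/-!
# Common directions, with an event

Module REG (regularity of closed labels). Version of `dirs` in which all bounds are pointwise and
on an event only.
-/

set_option autoImplicit false

namespace Pool.REG

open Finset Real
open Pool.Agent.H49.Ent Pool.Agent.H32.Dense Pool.STK Pool.KAL

/-- Common directions. `W` is the number of cells. -/
lemma dirs2 {Ω Γ : Type} [Fintype Ω] {n : ℕ} {q : Ω → ℝ} (hq : IsLaw q) (cell : Ω → Γ)
    (dir : Ω → Fin n → ℝ) (E : Ω → Prop) {W A₀ AI κ η s ε₀ : ℝ} (hW : 0 < W)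
    (hA₀ : 0 < A₀) (hAI : 0 < AI) (hκ : 1 ≤ κ) (hη : 0 < η) (hs : 0 < s)
    (hcell : (open Classical in ((((univ.filter fun ω => 0 < q ω).image cell).card : ℕ) : ℝ)) ≤
      κ * W)
    (hE : η ≤ ∑ ω, (open Classical in if E ω then q ω else 0))
    (h2 : ∀ ω, 0 < q ω → E ω → law q cell (cell ω) ≤ A₀ / W)
    (h3 : ∀ ω, 0 < q ω → E ω → law q (fun ω => (cell ω, dir ω)) (cell ω, dir ω) ≤
      AI * law q cell (cell ω) * law q dir (dir ω))
    (h5 : ∀ γ (u : Fin n → ℝ), (∃ i, 1 ≤ |u i|) → ∑ ω, (open Classical in
      if cell ω = γ ∧ |∑ i, u i * dir ω i| ≤ s then q ω else 0) ≤ ε₀ * law q cell γ)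
    (hε : ε₀ ≤ η / 8) (j : ℕ) (hj : j ≤ n) :
    ∃ (e : ℕ → Fin n → ℝ) (X : Finset Γ), s ^ j ≤ |dt j e| ∧
      (∀ γ ∈ X, η / (4 * κ) / W ≤ law q cell γ ∧ η / 4 * law q cell γ ≤
        ∑ ω, (open Classical in if cell ω = γ ∧ E ω then q ω else 0)) ∧
      (∀ γ ∈ X, ∀ i < j, ∃ ω, 0 < q ω ∧ E ω ∧ cell ω = γ ∧ dir ω = e i) ∧
      (η / (8 * AI)) ^ j * (η / (2 * A₀)) * W ≤ X.card := by
  classical
  have hq0 := hq.nonneg
  induction j with
  | zero =>
    set Call : Finset Γ := (univ.filter fun ω => 0 < q ω).image cell with hCall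
    set τ : ℝ := η / (4 * κ) with hτ
    have hτ0 : 0 < τ := by positivity
    set F : Γ → ℝ := fun γ => ∑ ω, if cell ω = γ ∧ E ω then q ω else 0 with hF
    have hF0 : ∀ γ, 0 ≤ F γ := fun γ => Finset.sum_nonneg fun ω _ => by
      split_ifs
      · exact hq0 ω
      · exact le_rfl
    have hFle : ∀ γ, F γ ≤ law q cell γ := by
      intro γ
      rw [hF]
      unfold law
      refine Finset.sum_le_sum fun ω _ => ?_
      by_cases h : cell ω = γ
      · by_cases h' : E ω
        · rw [if_pos ⟨h, h'⟩, if_pos h]
        · rw [if_neg (fun hh => h' hh.2), if_pos h]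
          exact hq0 ω
      · rw [if_neg (fun hh => h hh.1), if_neg h]
    set X : Finset Γ := Call.filter fun γ => τ / W ≤ law q cell γ ∧
      η / 4 * law q cell γ ≤ F γ with hX
    refine ⟨fun _ _ => 0, X, ?_, ?_, ?_, ?_⟩
    · simp [dt]
    · intro γ hγ
      rw [hX, Finset.mem_filter] at hγ
      exact hγ.2
    · intro γ _ i hi
      exact absurd hi (Nat.not_lt_zero i)
    · rw [pow_zero, one_mul]
      -- the mass of `E` in the good cells
      have hsumE : ∑ ω, (if E ω then q ω else 0) = ∑ γ ∈ Call, F γ := by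
        rw [hF]
        simp only
        rw [Finset.sum_comm]
        refine Finset.sum_congr rfl fun ω _ => ?_
        rcases (hq0 ω).eq_or_lt with h0 | h0
        · rw [← h0]
          simp
        · by_cases h' : E ω
          · simp only [h', and_true, if_true]
            rw [Finset.sum_ite_eq, if_pos]
            rw [hCall, Finset.mem_image]
            exact ⟨ω, by simp [h0], rfl⟩
          · simp only [h', and_false, if_false, Finset.sum_const_zero]
      have hlaw1 : ∑ γ ∈ Call, law q cell γ ≤ 1 := by
        have h1 : ∑ γ ∈ Call, law q cell γ ≤ ∑ γ ∈ univ.image cell, law q cell γ := by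
          refine Finset.sum_le_sum_of_subset_of_nonneg ?_ fun γ _ _ => law_nonneg hq0 cell γ
          rw [hCall]
          exact Finset.image_subset_image (Finset.filter_subset _ _)
        rw [sum_law, hq.sum_one] at h1
        exact h1
      have hsplit : ∑ γ ∈ Call, F γ ≤ ∑ γ ∈ X, F γ + ∑ γ ∈ Call, τ / W +
          ∑ γ ∈ Call, η / 4 * law q cell γ := by
        have h1 : ∑ γ ∈ Call, F γ = ∑ γ ∈ X, F γ + ∑ γ ∈ Call.filter (fun γ => ¬ (τ / W ≤
            law q cell γ ∧ η / 4 * law q cell γ ≤ F γ)), F γ := by
          rw [hX, Finset.sum_filter_add_sum_filter_not]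
        have h2 : ∑ γ ∈ Call.filter (fun γ => ¬ (τ / W ≤
            law q cell γ ∧ η / 4 * law q cell γ ≤ F γ)), F γ ≤
            ∑ γ ∈ Call.filter (fun γ => ¬ (τ / W ≤
            law q cell γ ∧ η / 4 * law q cell γ ≤ F γ)), (τ / W + η / 4 * law q cell γ) := by
          refine Finset.sum_le_sum fun γ hγ => ?_
          have h3 := (Finset.mem_filter.1 hγ).2
          have h4 := law_nonneg hq0 cell γ
          have h5 := hFle γ
          have h6 : 0 ≤ τ / W := by positivity
          have h7 : 0 ≤ η / 4 * law q cell γ := by positivity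
          by_cases h8 : τ / W ≤ law q cell γ
          · have h9 : ¬ η / 4 * law q cell γ ≤ F γ := fun h => h3 ⟨h8, h⟩
            linarith [not_le.1 h9]
          · linarith [not_le.1 h8]
        have h3 : ∑ γ ∈ Call.filter (fun γ => ¬ (τ / W ≤
            law q cell γ ∧ η / 4 * law q cell γ ≤ F γ)), (τ / W + η / 4 * law q cell γ) ≤
            ∑ γ ∈ Call, (τ / W + η / 4 * law q cell γ) := by
          refine Finset.sum_le_sum_of_subset_of_nonneg (Finset.filter_subset _ _) ?_
          intro γ _ _
          have h4 := law_nonneg hq0 cell γ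
          positivity
        have h4 := h2.trans h3
        rw [Finset.sum_add_distrib] at h4
        linarith
      have ha : ∑ _γ ∈ Call, τ / W ≤ η / 4 := by
        rw [Finset.sum_const, nsmul_eq_mul]
        calc (Call.card : ℝ) * (τ / W) ≤ κ * W * (τ / W) :=
              mul_le_mul_of_nonneg_right hcell (by positivity)
          _ = η / 4 := by
            rw [hτ]
            field_simp
      have hb : ∑ γ ∈ Call, η / 4 * law q cell γ ≤ η / 4 := by
        rw [← Finset.mul_sum]
        nlinarith
      have hXF : ∑ γ ∈ X, F γ ≤ X.card * (A₀ / W) := by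
        rw [← nsmul_eq_mul]
        refine Finset.sum_le_card_nsmul _ _ _ fun γ hγ => (hFle γ).trans ?_
        obtain ⟨ω, h6, h7, h8⟩ : ∃ ω, 0 < q ω ∧ E ω ∧ cell ω = γ := by
          by_contra hcon
          push Not at hcon
          have h6 : F γ ≤ 0 := by
            rw [hF]
            refine Finset.sum_nonpos fun ω _ => ?_
            by_cases h : cell ω = γ ∧ E ω
            · rw [if_pos h]
              by_contra hc
              push Not at hc
              exact hcon ω hc h.2 h.1
            · rw [if_neg h]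
          rw [hX, Finset.mem_filter] at hγ
          have h7 : 0 < law q cell γ := lt_of_lt_of_le (by positivity) hγ.2.1
          have h8 : 0 < η / 4 * law q cell γ := by positivity
          linarith [hγ.2.2]
        rw [← h8]
        exact h2 ω h6 h7
      have h8 : η / 2 ≤ X.card * (A₀ / W) := by
        rw [hsumE] at hE
        linarith
      calc η / (2 * A₀) * W = η / 2 * (W / A₀) := by field_simp
        _ ≤ X.card * (A₀ / W) * (W / A₀) := mul_le_mul_of_nonneg_right h8 (by positivity)
        _ = X.card := by field_simp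
  | succ j ih =>
    obtain ⟨e, X, hdet, hX1, hX2, hX3⟩ := ih (by omega)
    obtain ⟨u, hu, hv⟩ := cofactor hj e hs hdet
    set τ : ℝ := η / (4 * κ) with hτ
    have hτ0 : 0 < τ := by positivity
    -- the mass of the good incidences transverse to the previous directions
    set g : Γ → (Fin n → ℝ) → ℝ := fun γ d => ∑ ω,
      if cell ω = γ ∧ dir ω = d ∧ E ω ∧ s < |∑ i, u i * dir ω i| then q ω else 0 with hg
    have hg0 : ∀ γ d, 0 ≤ g γ d := fun γ d => Finset.sum_nonneg fun ω _ => by
      split_ifs
      · exact hq0 ω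
      · exact le_rfl
    set Dall : Finset (Fin n → ℝ) := (univ.filter fun ω => 0 < q ω).image dir with hDall
    have hcellmass : ∀ γ ∈ X, η / 8 * law q cell γ ≤ ∑ d ∈ Dall, g γ d := by
      intro γ hγ
      have h1 := hX1 γ hγ
      have h4 := h5 γ u hu
      have h6 : ∑ ω, (if cell ω = γ ∧ E ω then q ω else 0) ≤
          ∑ ω, (if cell ω = γ ∧ |∑ i, u i * dir ω i| ≤ s then q ω else 0) +
          ∑ d ∈ Dall, g γ d := by
        have h7 : ∑ d ∈ Dall, g γ d = ∑ ω, if cell ω = γ ∧ E ω ∧ s < |∑ i, u i * dir ω i|
            then q ω else 0 := by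
          rw [hg]
          simp only
          rw [Finset.sum_comm]
          refine Finset.sum_congr rfl fun ω _ => ?_
          rcases (hq0 ω).eq_or_lt with h0 | h0
          · rw [← h0]
            simp
          · by_cases h' : cell ω = γ ∧ E ω ∧ s < |∑ i, u i * dir ω i|
            · rw [if_pos h']
              rw [Finset.sum_eq_single (dir ω)]
              · rw [if_pos ⟨h'.1, rfl, h'.2⟩]
              · intro d _ hd
                rw [if_neg (fun hh => hd hh.2.1.symm)]
              · intro hd
                refine absurd ?_ hd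
                rw [hDall, Finset.mem_image]
                exact ⟨ω, by simp [h0], rfl⟩
            · rw [if_neg h']
              refine Finset.sum_eq_zero fun d _ => ?_
              rw [if_neg (fun hh => h' ⟨hh.1, hh.2.2⟩)]
        rw [h7, ← Finset.sum_add_distrib]
        refine Finset.sum_le_sum fun ω _ => ?_
        have hω := hq0 ω
        by_cases a : cell ω = γ
        · by_cases b : E ω
          · by_cases c : s < |∑ i, u i * dir ω i|
            · rw [if_pos (show cell ω = γ ∧ E ω from ⟨a, b⟩), if_pos (show cell ω = γ ∧ E ω ∧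
                s < |∑ i, u i * dir ω i| from ⟨a, b, c⟩)]
              split_ifs <;> linarith
            · rw [if_pos (show cell ω = γ ∧ E ω from ⟨a, b⟩), if_pos (show cell ω = γ ∧
                |∑ i, u i * dir ω i| ≤ s from ⟨a, not_lt.1 c⟩)]
              split_ifs <;> linarith
          · rw [if_neg (fun hh => b hh.2)]
            split_ifs <;> linarith
        · rw [if_neg (fun hh => a hh.1)]
          split_ifs <;> linarith
      have h8 : 0 ≤ law q cell γ := law_nonneg hq0 cell γ
      have h9 : ε₀ * law q cell γ ≤ η / 8 * law q cell γ := mul_le_mul_of_nonneg_right hε h8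
      linarith [h1.2]
    have hinc0 : ∀ γ d, 0 < g γ d → ∃ ω, 0 < q ω ∧ E ω ∧ cell ω = γ ∧ dir ω = d ∧
        s < |∑ i, u i * d i| := by
      intro γ d h1
      by_contra hcon
      push Not at hcon
      have h6 : g γ d ≤ 0 := by
        rw [hg]
        refine Finset.sum_nonpos fun ω _ => ?_
        by_cases h : cell ω = γ ∧ dir ω = d ∧ E ω ∧ s < |∑ i, u i * dir ω i|
        · rw [if_pos h]
          by_contra hc
          push Not at hc
          have h7 := hcon ω hc h.2.2.1 h.1 h.2.1
          rw [h.2.1] at h
          linarith [h.2.2.2]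
        · rw [if_neg h]
      linarith
    -- the mass of a cell and a direction
    have hgle : ∀ γ d, g γ d ≤ AI * law q cell γ * (if 0 < g γ d then law q dir d else 0) := by
      intro γ d
      split_ifs with h
      · obtain ⟨ω, a, b, c, f, _⟩ := hinc0 γ d h
        have h6 := h3 ω a b
        rw [c, f] at h6
        refine le_trans ?_ h6
        rw [hg]
        unfold law
        refine Finset.sum_le_sum fun ω _ => ?_
        by_cases h : cell ω = γ ∧ dir ω = d ∧ E ω ∧ s < |∑ i, u i * dir ω i|
        · rw [if_pos h, if_pos (by simp only [h.1, h.2.1])]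
        · rw [if_neg h]
          split_ifs
          · exact hq0 ω
          · exact le_rfl
      · rw [mul_zero]
        exact not_lt.1 h
    have hcell2 : ∀ γ ∈ X, η / (8 * AI) ≤ ∑ d ∈ Dall, (if 0 < g γ d then law q dir d else 0) := by
      intro γ hγ
      have h1 : 0 < law q cell γ := lt_of_lt_of_le (by positivity) (hX1 γ hγ).1
      have h6 : η / 8 * law q cell γ ≤ AI * law q cell γ *
          ∑ d ∈ Dall, (if 0 < g γ d then law q dir d else 0) := by
        rw [Finset.mul_sum]
        exact (hcellmass γ hγ).trans (Finset.sum_le_sum fun d _ => hgle γ d)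
      have h7 : η / 8 ≤ AI * ∑ d ∈ Dall, (if 0 < g γ d then law q dir d else 0) := by
        refine le_of_mul_le_mul_right ?_ h1
        calc η / 8 * law q cell γ ≤ _ := h6
          _ = _ := by ring
      calc η / (8 * AI) = η / 8 / AI := by field_simp
        _ ≤ _ := by
          rw [div_le_iff₀ hAI, mul_comm]
          exact h7
    have hDlaw : ∑ d ∈ Dall, law q dir d ≤ 1 := by
      have h1 : ∑ d ∈ Dall, law q dir d ≤ ∑ d ∈ univ.image dir, law q dir d := by
        refine Finset.sum_le_sum_of_subset_of_nonneg ?_ fun d _ _ => law_nonneg hq0 dir d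
        rw [hDall]
        exact Finset.image_subset_image (Finset.filter_subset _ _)
      rw [sum_law, hq.sum_one] at h1
      exact h1
    have htot : (X.card : ℝ) * (η / (8 * AI)) ≤
        ∑ d ∈ Dall, law q dir d * ((X.filter fun γ => 0 < g γ d).card : ℝ) := by
      have h1 : ∑ d ∈ Dall, law q dir d * ((X.filter fun γ => 0 < g γ d).card : ℝ) =
          ∑ γ ∈ X, ∑ d ∈ Dall, (if 0 < g γ d then law q dir d else 0) := by
        rw [Finset.sum_comm]
        refine Finset.sum_congr rfl fun d _ => ?_
        rw [← Finset.sum_filter, Finset.sum_const, nsmul_eq_mul, mul_comm]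
      rw [h1, ← nsmul_eq_mul]
      exact Finset.card_nsmul_le_sum _ _ _ hcell2
    -- a popular direction
    have hDne : Dall.Nonempty := by
      obtain ⟨ω, _, hω⟩ : ∃ ω ∈ (univ : Finset Ω), 0 < q ω := by
        by_contra hcon
        push Not at hcon
        have : ∑ ω, q ω ≤ 0 := Finset.sum_nonpos hcon
        rw [hq.sum_one] at this
        linarith
      exact ⟨dir ω, by rw [hDall, Finset.mem_image]; exact ⟨ω, by simp [hω], rfl⟩⟩
    have hDpos : ∀ d ∈ Dall, 0 < law q dir d := by
      intro d hd
      rw [hDall, Finset.mem_image] at hd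
      obtain ⟨ω, hω, rfl⟩ := hd
      exact lt_of_lt_of_le (by simpa using hω) (le_law hq0 dir ω)
    obtain ⟨d, hd, hdm⟩ : ∃ d ∈ Dall, (X.card : ℝ) * (η / (8 * AI)) ≤
        ((X.filter fun γ => 0 < g γ d).card : ℝ) := by
      by_contra hcon
      push Not at hcon
      have h1 : ∑ d ∈ Dall, law q dir d * ((X.filter fun γ => 0 < g γ d).card : ℝ) <
          ∑ d ∈ Dall, law q dir d * ((X.card : ℝ) * (η / (8 * AI))) :=
        Finset.sum_lt_sum_of_nonempty hDne fun d hd =>
          mul_lt_mul_of_pos_left (hcon d hd) (hDpos d hd)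
      rw [← Finset.sum_mul] at h1
      have h6 : (∑ d ∈ Dall, law q dir d) * ((X.card : ℝ) * (η / (8 * AI))) ≤
          1 * ((X.card : ℝ) * (η / (8 * AI))) :=
        mul_le_mul_of_nonneg_right hDlaw (by positivity)
      linarith
    set X' : Finset Γ := X.filter fun γ => 0 < g γ d with hX'
    have hXpos : 0 < (X.card : ℝ) := lt_of_lt_of_le (by positivity) hX3
    -- a good incidence for every cell of `X'`
    have hinc : ∀ γ ∈ X', ∃ ω, 0 < q ω ∧ E ω ∧ cell ω = γ ∧ dir ω = d ∧
        s < |∑ i, u i * d i| := by
      intro γ hγ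
      exact hinc0 γ d (Finset.mem_filter.1 hγ).2
    refine ⟨fun i => if i < j then e i else d, X', ?_, ?_, ?_, ?_⟩
    · -- the determinant
      by_cases hne : X'.Nonempty
      · obtain ⟨γ, hγ⟩ := hne
        obtain ⟨ω, _, _, _, _, hs'⟩ := hinc γ hγ
        exact hv d hs'
      · exfalso
        rw [Finset.not_nonempty_iff_eq_empty] at hne
        rw [hne, Finset.card_empty, Nat.cast_zero] at hdm
        have : 0 < (X.card : ℝ) * (η / (8 * AI)) := by positivity
        linarith
    · intro γ hγ
      exact hX1 γ (Finset.mem_filter.1 hγ).1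
    · intro γ hγ i hi
      by_cases hij : i < j
      · obtain ⟨ω, a, b, c, f⟩ := hX2 γ (Finset.mem_filter.1 hγ).1 i hij
        refine ⟨ω, a, b, c, ?_⟩
        show dir ω = if i < j then e i else d
        rw [if_pos hij, f]
      · obtain ⟨ω, a, b, c, f, _⟩ := hinc γ hγ
        refine ⟨ω, a, b, c, ?_⟩
        show dir ω = if i < j then e i else d
        rw [if_neg hij, f]
    · calc (η / (8 * AI)) ^ (j + 1) * (η / (2 * A₀)) * W =
          ((η / (8 * AI)) ^ j * (η / (2 * A₀)) * W) * (η / (8 * AI)) := by
            ring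
        _ ≤ X.card * (η / (8 * AI)) := mul_le_mul_of_nonneg_right hX3 (by positivity)
        _ ≤ X'.card := hdm

end Pool.REG
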