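import Pool.Agent.H90.STK.Defs
import Pool.Agent.H32.Dense.EntX

/-!
# One line for every nominal line

Module REG (regularity of closed labels), step 1.
-/

set_option autoImplicit false

namespace Pool.REG

open Finset Real
open Pool.Agent.H49.Ent Pool.Agent.H32.Dense Pool.STK

/-- The times of a line. -/
noncomputable def tms {Ω Λ : Type} [Fintype Ω] (q : Ω → ℝ) (lam : Ω → Λ) (T : Ω → ℕ) (l : Λ) :
    Finset ℕ := by
  classical
  exact (univ.filter fun ω => 0 < q ω ∧ lam ω = l).image T

lemma mem_tms {Ω Λ : Type} [Fintype Ω] {q : Ω → ℝ} {lam : Ω → Λ} {T : Ω → ℕ} {l : Λ} {t : ℕ} :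
    t ∈ tms q lam T l ↔ ∃ ω, 0 < q ω ∧ lam ω = l ∧ T ω = t := by
  classical
  unfold tms
  simp only [Finset.mem_image, Finset.mem_filter, Finset.mem_univ, true_and, and_assoc]

lemma star {Ω Λ N : Type} [Fintype Ω] {q : Ω → ℝ} (hq : IsLaw q) (lam : Ω → Λ) (nom : Λ → N)
    (T : Ω → ℕ) {NT : ℕ} {m A : ℝ} (hA : 1 ≤ A) (hNT : 0 < NT) (hm0 : 0 < m)
    (hT : ∀ ω, 0 < q ω → T ω < NT)
    (hm : (open Classical in ((((univ.filter fun ω => 0 < q ω).image lam).card : ℕ) : ℝ)) ≤ m)
    (h : ∀ l t, law q (fun ω => (lam ω, T ω)) (l, t) ≤ A / (m * NT)) :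
    ∃ st : N → Λ, 1 / (2 * A) ≤ ∑ ω, (open Classical in
      if 0 < q ω ∧ nom (st (nom (lam ω))) = nom (lam ω) ∧
        T ω ∈ tms q lam T (st (nom (lam ω))) ∧
        (NT : ℝ) / (2 * A ^ 2) ≤ (tms q lam T (st (nom (lam ω)))).card then q ω else 0) := by
  classical
  have hq0 := hq.nonneg
  have hNT' : (0 : ℝ) < NT := by exact_mod_cast hNT
  have hA0 : 0 < A := by linarith
  set Lall : Finset Λ := (univ.filter fun ω => 0 < q ω).image lam with hLall
  set V : Finset N := Lall.image nom with hV
  set Lv : N → Finset Λ := fun v => Lall.filter fun l => nom l = v with hLv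
  set S : Λ → Finset ℕ := fun l => tms q lam T l with hS
  set μ : N → ℕ → ℝ := fun v t => ∑ ω, if nom (lam ω) = v ∧ T ω = t then q ω else 0 with hμ
  have hμ0 : ∀ v t, 0 ≤ μ v t := fun v t => Finset.sum_nonneg fun ω _ => by
    split_ifs
    · exact hq0 ω
    · exact le_rfl
  set β : ℝ := A / (m * NT) with hβ
  have hβ0 : 0 < β := by positivity
  -- the mass of one time is at most `β` times the number of lines
  have hμle : ∀ v t, μ v t ≤ β * (((Lv v).filter fun l => t ∈ S l).card : ℝ) := by
    intro v t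
    have h1 : μ v t ≤ ∑ l ∈ (Lv v).filter (fun l => t ∈ S l),
        law q (fun ω => (lam ω, T ω)) (l, t) := by
      rw [hμ]
      simp only
      unfold law
      rw [Finset.sum_comm]
      refine Finset.sum_le_sum fun ω _ => ?_
      by_cases hω : nom (lam ω) = v ∧ T ω = t
      · rw [if_pos hω]
        rcases (hq0 ω).eq_or_lt with h0 | h0
        · rw [← h0]
          exact Finset.sum_nonneg fun l _ => by split_ifs <;> simp
        · have hmem : lam ω ∈ (Lv v).filter (fun l => t ∈ S l) := by
            rw [Finset.mem_filter, hLv, Finset.mem_filter, hLall, Finset.mem_image]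
            refine ⟨⟨⟨ω, by simp [h0], rfl⟩, hω.1⟩, ?_⟩
            rw [hS]
            exact mem_tms.2 ⟨ω, h0, rfl, hω.2⟩
          refine le_trans (le_of_eq ?_) (Finset.single_le_sum (fun l _ => ?_) hmem)
          · rw [if_pos (by simp only [hω.2])]
          · split_ifs
            · exact hq0 ω
            · exact le_rfl
      · rw [if_neg hω]
        exact Finset.sum_nonneg fun l _ => by
          split_ifs
          · exact hq0 ω
          · exact le_rfl
    calc μ v t ≤ _ := h1
      _ ≤ ∑ _l ∈ (Lv v).filter (fun l => t ∈ S l), β := Finset.sum_le_sum fun l _ => h l t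
      _ = β * (((Lv v).filter fun l => t ∈ S l).card : ℝ) := by
        rw [Finset.sum_const, nsmul_eq_mul, mul_comm]
  -- the mass of a nominal line
  set Q : N → ℝ := fun v => ∑ t ∈ range NT, μ v t with hQ
  have hQ0 : ∀ v, 0 ≤ Q v := fun v => Finset.sum_nonneg fun t _ => hμ0 v t
  have hnv : ∀ v ∈ V, 0 < (Lv v).card := by
    intro v hv
    rw [hV, Finset.mem_image] at hv
    obtain ⟨l, hl, hlv⟩ := hv
    exact Finset.card_pos.2 ⟨l, by rw [hLv, Finset.mem_filter]; exact ⟨hl, hlv⟩⟩
  have hsumn : ∑ v ∈ V, ((Lv v).card : ℝ) ≤ m := by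
    have h1 : ∑ v ∈ V, (Lv v).card = Lall.card := by
      rw [Finset.card_eq_sum_card_fiberwise (f := nom) (t := V)]
      intro l hl
      exact Finset.mem_image_of_mem nom hl
    calc ∑ v ∈ V, ((Lv v).card : ℝ) = ((∑ v ∈ V, (Lv v).card : ℕ) : ℝ) := by push_cast; rfl
      _ = (Lall.card : ℝ) := by rw [h1]
      _ ≤ m := hm
  have hsumQ : ∑ v ∈ V, Q v = 1 := by
    rw [hQ]
    simp only [hμ]
    rw [← hq.sum_one]
    calc ∑ v ∈ V, ∑ t ∈ range NT, ∑ ω, (if nom (lam ω) = v ∧ T ω = t then q ω else 0) =
        ∑ v ∈ V, ∑ ω, ∑ t ∈ range NT, (if nom (lam ω) = v ∧ T ω = t then q ω else 0) := by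
          refine Finset.sum_congr rfl fun v _ => Finset.sum_comm
      _ = ∑ ω, ∑ v ∈ V, ∑ t ∈ range NT, (if nom (lam ω) = v ∧ T ω = t then q ω else 0) :=
          Finset.sum_comm
      _ = ∑ ω, q ω := by
          refine Finset.sum_congr rfl fun ω _ => ?_
          rcases (hq0 ω).eq_or_lt with h0 | h0
          · rw [← h0]
            simp
          · rw [Finset.sum_eq_single (nom (lam ω))]
            · rw [Finset.sum_eq_single (T ω)]
              · simp
              · intro t _ ht
                rw [if_neg (fun hh => ht hh.2.symm)]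
              · intro ht
                exact absurd (Finset.mem_range.2 (hT ω h0)) ht
            · intro v _ hv
              refine Finset.sum_eq_zero fun t _ => ?_
              rw [if_neg (fun hh => hv hh.1.symm)]
            · intro hv
              refine absurd ?_ hv
              rw [hV, Finset.mem_image]
              refine ⟨lam ω, ?_, rfl⟩
              rw [hLall, Finset.mem_image]
              exact ⟨ω, by simp [h0], rfl⟩
  -- choice of the line
  have hch : ∀ v ∈ V, ∃ l ∈ Lv v, m / A * Q v ^ 2 / (Lv v).card ≤ ∑ t ∈ S l, μ v t := by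
    intro v hv
    have hn := hnv v hv
    have hn' : (0 : ℝ) < (Lv v).card := by exact_mod_cast hn
    have h1 : m / A * Q v ^ 2 ≤ ∑ l ∈ Lv v, ∑ t ∈ S l, μ v t := by
      have hcs : Q v ^ 2 ≤ NT * ∑ t ∈ range NT, μ v t ^ 2 := by
        have := sq_sum_le_card_mul_sum_sq (s := range NT) (f := fun t => μ v t)
        rw [Finset.card_range] at this
        exact this
      have hsw : ∑ l ∈ Lv v, ∑ t ∈ S l, μ v t ≥
          ∑ t ∈ range NT, μ v t * (((Lv v).filter fun l => t ∈ S l).card : ℝ) := by
        have e1 : ∀ l ∈ Lv v, ∑ t ∈ S l, μ v t ≥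
            ∑ t ∈ range NT, if t ∈ S l then μ v t else 0 := by
          intro l _
          rw [← Finset.sum_filter]
          refine Finset.sum_le_sum_of_subset_of_nonneg ?_ fun t _ _ => hμ0 v t
          intro t ht
          exact (Finset.mem_filter.1 ht).2
        calc ∑ l ∈ Lv v, ∑ t ∈ S l, μ v t ≥
            ∑ l ∈ Lv v, ∑ t ∈ range NT, (if t ∈ S l then μ v t else 0) :=
              Finset.sum_le_sum e1
          _ = ∑ t ∈ range NT, ∑ l ∈ Lv v, (if t ∈ S l then μ v t else 0) := Finset.sum_comm
          _ = _ := by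
            refine Finset.sum_congr rfl fun t _ => ?_
            rw [← Finset.sum_filter, Finset.sum_const, nsmul_eq_mul, mul_comm]
      have hlow : ∑ t ∈ range NT, μ v t * (((Lv v).filter fun l => t ∈ S l).card : ℝ) ≥
          ∑ t ∈ range NT, μ v t * (μ v t / β) := by
        refine Finset.sum_le_sum fun t _ => mul_le_mul_of_nonneg_left ?_ (hμ0 v t)
        rw [div_le_iff₀ hβ0, mul_comm]
        exact hμle v t
      have hfin : ∑ t ∈ range NT, μ v t * (μ v t / β) = (∑ t ∈ range NT, μ v t ^ 2) / β := by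
        rw [Finset.sum_div]
        exact Finset.sum_congr rfl fun t _ => by ring
      have h5 : m / A * Q v ^ 2 ≤ (∑ t ∈ range NT, μ v t ^ 2) / β := by
        rw [le_div_iff₀ hβ0, hβ]
        have : m / A * Q v ^ 2 * (A / (m * NT)) = Q v ^ 2 / NT := by
          field_simp
        rw [this, div_le_iff₀ hNT', mul_comm]
        exact hcs
      linarith
    by_contra hcon
    push Not at hcon
    have h2 : ∑ l ∈ Lv v, ∑ t ∈ S l, μ v t <
        ∑ _l ∈ Lv v, m / A * Q v ^ 2 / (Lv v).card :=
      Finset.sum_lt_sum_of_nonempty (Finset.card_pos.1 hn) hcon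
    rw [Finset.sum_const, nsmul_eq_mul, mul_div_cancel₀ _ hn'.ne'] at h2
    linarith
  have : Nonempty Λ := by
    obtain ⟨ω, _, hω⟩ : ∃ ω ∈ (univ : Finset Ω), 0 < q ω := by
      by_contra hcon
      push Not at hcon
      have : ∑ ω, q ω ≤ 0 := Finset.sum_nonpos hcon
      rw [hq.sum_one] at this
      linarith
    exact ⟨lam ω⟩
  choose! st hst1 hst2 using hch
  refine ⟨st, ?_⟩
  -- masses of the good nominal lines
  set G : Finset N := V.filter fun v => ((Lv v).card : ℝ) / (2 * A * m) ≤ ∑ t ∈ S (st v), μ v t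
    with hG
  have hVne : 0 < ∑ v ∈ V, ((Lv v).card : ℝ) := by
    have hne : V.Nonempty := by
      by_contra hcon
      rw [Finset.not_nonempty_iff_eq_empty] at hcon
      rw [hcon, Finset.sum_empty] at hsumQ
      linarith
    exact Finset.sum_pos (fun v hv => by exact_mod_cast hnv v hv) hne
  have hcs2 : 1 / A ≤ ∑ v ∈ V, m / A * Q v ^ 2 / (Lv v).card := by
    have h1 := Finset.sq_sum_div_le_sum_sq_div V Q (g := fun v => ((Lv v).card : ℝ))
      (fun v hv => by exact_mod_cast hnv v hv)
    rw [hsumQ, one_pow] at h1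
    have h2 : 1 / m ≤ 1 / ∑ v ∈ V, ((Lv v).card : ℝ) := one_div_le_one_div_of_le hVne hsumn
    have h3 : ∑ v ∈ V, m / A * Q v ^ 2 / (Lv v).card =
        m / A * ∑ v ∈ V, Q v ^ 2 / ((Lv v).card : ℝ) := by
      rw [Finset.mul_sum]
      exact Finset.sum_congr rfl fun v _ => by ring
    rw [h3]
    calc 1 / A = m / A * (1 / m) := by field_simp
      _ ≤ m / A * ∑ v ∈ V, Q v ^ 2 / ((Lv v).card : ℝ) :=
        mul_le_mul_of_nonneg_left (h2.trans h1) (by positivity)
  have hbad : ∑ v ∈ V.filter (fun v => ¬ ((Lv v).card : ℝ) / (2 * A * m) ≤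
      ∑ t ∈ S (st v), μ v t), ∑ t ∈ S (st v), μ v t ≤ 1 / (2 * A) := by
    calc _ ≤ ∑ v ∈ V.filter (fun v => ¬ ((Lv v).card : ℝ) / (2 * A * m) ≤
        ∑ t ∈ S (st v), μ v t), ((Lv v).card : ℝ) / (2 * A * m) := by
          refine Finset.sum_le_sum fun v hv => ?_
          exact (not_le.1 (Finset.mem_filter.1 hv).2).le
      _ ≤ ∑ v ∈ V, ((Lv v).card : ℝ) / (2 * A * m) :=
          Finset.sum_le_sum_of_subset_of_nonneg (Finset.filter_subset _ _)
            fun v _ _ => by positivity
      _ = (∑ v ∈ V, ((Lv v).card : ℝ)) / (2 * A * m) := by rw [Finset.sum_div]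
      _ ≤ m / (2 * A * m) := div_le_div_of_nonneg_right hsumn (by positivity)
      _ = 1 / (2 * A) := by field_simp
  have hgood : 1 / (2 * A) ≤ ∑ v ∈ G, ∑ t ∈ S (st v), μ v t := by
    have h1 : ∑ v ∈ V, ∑ t ∈ S (st v), μ v t =
        ∑ v ∈ G, ∑ t ∈ S (st v), μ v t + ∑ v ∈ V.filter (fun v => ¬ ((Lv v).card : ℝ) /
          (2 * A * m) ≤ ∑ t ∈ S (st v), μ v t), ∑ t ∈ S (st v), μ v t := by
      rw [hG, Finset.sum_filter_add_sum_filter_not]
    have h2 : 1 / A ≤ ∑ v ∈ V, ∑ t ∈ S (st v), μ v t :=
      hcs2.trans (Finset.sum_le_sum fun v hv => hst2 v hv)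
    have h3 : 1 / A = 1 / (2 * A) + 1 / (2 * A) := by field_simp; norm_num
    linarith
  refine hgood.trans ?_
  -- rewrite as a sum over incidences
  have hdens : ∀ v ∈ G, (NT : ℝ) / (2 * A ^ 2) ≤ (S (st v)).card := by
    intro v hv
    rw [hG, Finset.mem_filter] at hv
    have hn : (0 : ℝ) < (Lv v).card := by exact_mod_cast hnv v hv.1
    have h1 : ∑ t ∈ S (st v), μ v t ≤ (S (st v)).card * (β * (Lv v).card) := by
      rw [← nsmul_eq_mul]
      refine Finset.sum_le_card_nsmul _ _ _ fun t _ => (hμle v t).trans ?_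
      refine mul_le_mul_of_nonneg_left ?_ hβ0.le
      exact_mod_cast Finset.card_filter_le _ _
    have h2 : ((Lv v).card : ℝ) / (2 * A * m) ≤ (S (st v)).card * (β * (Lv v).card) :=
      hv.2.trans h1
    have h3 : (S (st v)).card * (β * (Lv v).card) =
        ((Lv v).card : ℝ) / (2 * A * m) * ((S (st v)).card * (2 * A ^ 2) / NT) := by
      rw [hβ]
      field_simp
    rw [h3] at h2
    have h4 : 0 < ((Lv v).card : ℝ) / (2 * A * m) := by positivity
    have h5 : 1 ≤ (S (st v)).card * (2 * A ^ 2) / NT := by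
      by_contra hcon
      push Not at hcon
      have := mul_lt_mul_of_pos_left hcon h4
      linarith
    rw [le_div_iff₀ hNT', one_mul] at h5
    rw [div_le_iff₀ (by positivity)]
    exact h5
  calc ∑ v ∈ G, ∑ t ∈ S (st v), μ v t =
      ∑ v ∈ G, ∑ ω, ∑ t ∈ S (st v), (if nom (lam ω) = v ∧ T ω = t then q ω else 0) := by
        rw [hμ]
        exact Finset.sum_congr rfl fun v _ => Finset.sum_comm
    _ = ∑ ω, ∑ v ∈ G, ∑ t ∈ S (st v), (if nom (lam ω) = v ∧ T ω = t then q ω else 0) :=
        Finset.sum_comm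
    _ ≤ _ := by
        refine Finset.sum_le_sum fun ω _ => ?_
        by_cases hc : 0 < q ω ∧ nom (st (nom (lam ω))) = nom (lam ω) ∧
          T ω ∈ tms q lam T (st (nom (lam ω))) ∧
          (NT : ℝ) / (2 * A ^ 2) ≤ (tms q lam T (st (nom (lam ω)))).card
        · rw [if_pos hc]
          calc ∑ v ∈ G, ∑ t ∈ S (st v), (if nom (lam ω) = v ∧ T ω = t then q ω else 0) ≤
              ∑ v ∈ G, (if nom (lam ω) = v then q ω else 0) := by
                refine Finset.sum_le_sum fun v _ => ?_
                by_cases hv : nom (lam ω) = v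
                · simp only [hv, true_and, if_true]
                  rw [Finset.sum_ite_eq]
                  split_ifs
                  · exact le_rfl
                  · exact hq0 ω
                · simp only [hv, false_and, if_false, Finset.sum_const_zero, le_refl]
            _ ≤ q ω := by
                rw [Finset.sum_ite_eq]
                split_ifs
                · exact le_rfl
                · exact hq0 ω
        · rw [if_neg hc]
          refine Finset.sum_nonpos fun v hv => Finset.sum_nonpos fun t ht => ?_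
          by_cases h1 : nom (lam ω) = v ∧ T ω = t
          · rw [if_pos h1]
            by_contra hcon
            push Not at hcon
            apply hc
            have hv' := hv
            rw [hG, Finset.mem_filter] at hv'
            have hl := hst1 v hv'.1
            rw [hLv, Finset.mem_filter] at hl
            rw [h1.1]
            refine ⟨hcon, hl.2, ?_, hdens v hv⟩
            rw [h1.2]
            exact ht
          · rw [if_neg h1]

end Pool.REG
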