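import Pool.Agent.H37.S3.FIN

/-!
# One line for every nominal line, with an event

Module REG (regularity of closed labels). Version of `star` for a law with an event `E`; the only
hypothesis is the pointwise fullness of the time on `E`.
-/

set_option autoImplicit false

namespace Pool.REG

open Finset Real
open Pool.Agent.H49.Ent Pool.Agent.H32.Dense Pool.STK Pool.KAL

/-- The times of the good incidences of a line. -/
noncomputable def tme {Ω Λ : Type} [Fintype Ω] (q : Ω → ℝ) (E : Ω → Prop) (lam : Ω → Λ)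
    (T : Ω → ℕ) (l : Λ) : Finset ℕ := by
  classical
  exact (univ.filter fun ω => 0 < q ω ∧ E ω ∧ lam ω = l).image T

lemma mem_tme {Ω Λ : Type} [Fintype Ω] {q : Ω → ℝ} {E : Ω → Prop} {lam : Ω → Λ} {T : Ω → ℕ}
    {l : Λ} {t : ℕ} :
    t ∈ tme q E lam T l ↔ ∃ ω, 0 < q ω ∧ E ω ∧ lam ω = l ∧ T ω = t := by
  classical
  unfold tme
  simp only [Finset.mem_image, Finset.mem_filter, Finset.mem_univ, true_and, and_assoc]

lemma star2 {Ω Λ N : Type} [Fintype Ω] {q : Ω → ℝ} (hq : IsLaw q) (E : Ω → Prop) (lam : Ω → Λ)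
    (nom : Λ → N) (T : Ω → ℕ) {NT : ℕ} {η A : ℝ} (hA : 0 < A) (hNT : 0 < NT) (hη : 0 < η)
    (hT : ∀ ω, 0 < q ω → E ω → T ω < NT)
    (hE : η ≤ ∑ ω, (open Classical in if E ω then q ω else 0))
    (h : ∀ ω, 0 < q ω → E ω → law q (fun ω => (lam ω, T ω)) (lam ω, T ω) ≤
      A / NT * law q lam (lam ω)) :
    ∃ st : N → Λ, η ^ 2 / (2 * A) ≤ ∑ ω, (open Classical in
      if 0 < q ω ∧ E ω ∧ nom (st (nom (lam ω))) = nom (lam ω) ∧
        T ω ∈ tme q E lam T (st (nom (lam ω))) ∧
        η ^ 2 * NT / (2 * A ^ 2) ≤ (tme q E lam T (st (nom (lam ω)))).card then q ω else 0) := by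
  classical
  have hq0 := hq.nonneg
  have hNT' : (0 : ℝ) < NT := by exact_mod_cast hNT
  set Lall : Finset Λ := (univ.filter fun ω => 0 < q ω).image lam with hLall
  set V : Finset N := Lall.image nom with hV
  set Lv : N → Finset Λ := fun v => Lall.filter fun l => nom l = v with hLv
  set S : Λ → Finset ℕ := fun l => tme q E lam T l with hS
  set w : Λ → ℝ := fun l => law q lam l with hw
  have hw0 : ∀ l, 0 ≤ w l := fun l => law_nonneg hq0 _ _
  set μ : N → ℕ → ℝ := fun v t => ∑ ω, if E ω ∧ nom (lam ω) = v ∧ T ω = t then q ω else 0 with hμ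
  have hμ0 : ∀ v t, 0 ≤ μ v t := fun v t => Finset.sum_nonneg fun ω _ => by
    split_ifs
    · exact hq0 ω
    · exact le_rfl
  set β : ℝ := A / NT with hβ
  have hβ0 : 0 < β := by positivity
  -- the mass of one time is at most `β` times the mass of the lines
  have hμle : ∀ v t, μ v t ≤ β * ∑ l ∈ (Lv v).filter (fun l => t ∈ S l), w l := by
    intro v t
    have h1 : μ v t ≤ ∑ l ∈ (Lv v).filter (fun l => t ∈ S l),
        law q (fun ω => (lam ω, T ω)) (l, t) := by
      rw [hμ]
      simp only
      unfold law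
      rw [Finset.sum_comm]
      refine Finset.sum_le_sum fun ω _ => ?_
      by_cases hω : E ω ∧ nom (lam ω) = v ∧ T ω = t
      · rw [if_pos hω]
        rcases (hq0 ω).eq_or_lt with h0 | h0
        · rw [← h0]
          exact Finset.sum_nonneg fun l _ => by split_ifs <;> simp
        · have hmem : lam ω ∈ (Lv v).filter (fun l => t ∈ S l) := by
            rw [Finset.mem_filter, hLv, Finset.mem_filter, hLall, Finset.mem_image]
            refine ⟨⟨⟨ω, by simp [h0], rfl⟩, hω.2.1⟩, ?_⟩
            rw [hS]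
            exact mem_tme.2 ⟨ω, h0, hω.1, rfl, hω.2.2⟩
          refine le_trans (le_of_eq ?_) (Finset.single_le_sum (fun l _ => ?_) hmem)
          · rw [if_pos (by simp only [hω.2.2])]
          · split_ifs
            · exact hq0 ω
            · exact le_rfl
      · rw [if_neg hω]
        exact Finset.sum_nonneg fun l _ => by
          split_ifs
          · exact hq0 ω
          · exact le_rfl
    calc μ v t ≤ _ := h1
      _ ≤ ∑ l ∈ (Lv v).filter (fun l => t ∈ S l), β * w l := by
        refine Finset.sum_le_sum fun l hl => ?_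
        obtain ⟨ω, h2, h3, h4, h5⟩ := mem_tme.1 (Finset.mem_filter.1 hl).2
        have := h ω h2 h3
        rw [h4, h5] at this
        exact this
      _ = β * ∑ l ∈ (Lv v).filter (fun l => t ∈ S l), w l := by rw [Finset.mul_sum]
  -- the mass of a nominal line
  set Q : N → ℝ := fun v => ∑ t ∈ range NT, μ v t with hQ
  have hQ0 : ∀ v, 0 ≤ Q v := fun v => Finset.sum_nonneg fun t _ => hμ0 v t
  set W : N → ℝ := fun v => ∑ l ∈ Lv v, w l with hW
  have hwpos : ∀ l ∈ Lall, 0 < w l := by
    intro l hl
    rw [hLall, Finset.mem_image] at hl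
    obtain ⟨ω, hω, rfl⟩ := hl
    exact lt_of_lt_of_le (by simpa using hω) (le_law hq0 lam ω)
  have hnv : ∀ v ∈ V, 0 < W v := by
    intro v hv
    rw [hV, Finset.mem_image] at hv
    obtain ⟨l, hl, hlv⟩ := hv
    have hl' : l ∈ Lv v := by rw [hLv, Finset.mem_filter]; exact ⟨hl, hlv⟩
    exact lt_of_lt_of_le (hwpos l hl) (Finset.single_le_sum (fun l _ => hw0 l) hl')
  have hsumn : ∑ v ∈ V, W v ≤ 1 := by
    have h1 : ∑ v ∈ V, W v = ∑ l ∈ Lall, w l := by
      rw [hW, hLv]
      exact Finset.sum_fiberwise_of_maps_to (fun l hl => Finset.mem_image_of_mem nom hl) _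
    rw [h1]
    calc ∑ l ∈ Lall, w l ≤ ∑ l ∈ univ.image lam, w l :=
          Finset.sum_le_sum_of_subset_of_nonneg
            (Finset.image_subset_image (Finset.filter_subset _ _)) fun l _ _ => hw0 l
      _ = 1 := sum_law_one hq.sum_one lam
  have hsumQ : η ≤ ∑ v ∈ V, Q v := by
    refine hE.trans (le_of_eq ?_)
    rw [hQ]
    simp only [hμ]
    symm
    calc ∑ v ∈ V, ∑ t ∈ range NT, ∑ ω, (if E ω ∧ nom (lam ω) = v ∧ T ω = t then q ω else 0) =
        ∑ v ∈ V, ∑ ω, ∑ t ∈ range NT, (if E ω ∧ nom (lam ω) = v ∧ T ω = t then q ω else 0) := by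
          refine Finset.sum_congr rfl fun v _ => Finset.sum_comm
      _ = ∑ ω, ∑ v ∈ V, ∑ t ∈ range NT, (if E ω ∧ nom (lam ω) = v ∧ T ω = t then q ω else 0) :=
          Finset.sum_comm
      _ = ∑ ω, (if E ω then q ω else 0) := by
          refine Finset.sum_congr rfl fun ω _ => ?_
          rcases (hq0 ω).eq_or_lt with h0 | h0
          · rw [← h0]
            simp
          · by_cases hEω : E ω
            · rw [Finset.sum_eq_single (nom (lam ω))]
              · rw [Finset.sum_eq_single (T ω)]
                · simp [hEω]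
                · intro t _ ht
                  rw [if_neg (fun hh => ht hh.2.2.symm)]
                · intro ht
                  exact absurd (Finset.mem_range.2 (hT ω h0 hEω)) ht
              · intro v _ hv
                refine Finset.sum_eq_zero fun t _ => ?_
                rw [if_neg (fun hh => hv hh.2.1.symm)]
              · intro hv
                refine absurd ?_ hv
                rw [hV, Finset.mem_image]
                refine ⟨lam ω, ?_, rfl⟩
                rw [hLall, Finset.mem_image]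
                exact ⟨ω, by simp [h0], rfl⟩
            · simp [hEω]
  -- choice of the line
  have hch : ∀ v ∈ V, ∃ l ∈ Lv v, 1 / A * Q v ^ 2 / W v ≤ ∑ t ∈ S l, μ v t := by
    intro v hv
    have hn' := hnv v hv
    have h1 : 1 / A * Q v ^ 2 ≤ ∑ l ∈ Lv v, w l * ∑ t ∈ S l, μ v t := by
      have hcs : Q v ^ 2 ≤ NT * ∑ t ∈ range NT, μ v t ^ 2 := by
        have := sq_sum_le_card_mul_sum_sq (s := range NT) (f := fun t => μ v t)
        rw [Finset.card_range] at this
        exact this
      have hsw : ∑ l ∈ Lv v, w l * ∑ t ∈ S l, μ v t ≥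
          ∑ t ∈ range NT, μ v t * ∑ l ∈ (Lv v).filter (fun l => t ∈ S l), w l := by
        have e1 : ∀ l ∈ Lv v, w l * ∑ t ∈ S l, μ v t ≥
            ∑ t ∈ range NT, if t ∈ S l then μ v t * w l else 0 := by
          intro l _
          rw [← Finset.sum_filter, Finset.mul_sum]
          refine (Finset.sum_le_sum_of_subset_of_nonneg (f := fun t => μ v t * w l)
            (t := S l) ?_ fun t _ _ => mul_nonneg (hμ0 v t) (hw0 l)).trans (le_of_eq ?_)
          · intro t ht
            exact (Finset.mem_filter.1 ht).2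
          · exact Finset.sum_congr rfl fun t _ => mul_comm _ _
        calc ∑ l ∈ Lv v, w l * ∑ t ∈ S l, μ v t ≥
            ∑ l ∈ Lv v, ∑ t ∈ range NT, (if t ∈ S l then μ v t * w l else 0) :=
              Finset.sum_le_sum e1
          _ = ∑ t ∈ range NT, ∑ l ∈ Lv v, (if t ∈ S l then μ v t * w l else 0) :=
              Finset.sum_comm
          _ = _ := by
            refine Finset.sum_congr rfl fun t _ => ?_
            rw [← Finset.sum_filter, Finset.mul_sum]
      have hlow : ∑ t ∈ range NT, μ v t * ∑ l ∈ (Lv v).filter (fun l => t ∈ S l), w l ≥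
          ∑ t ∈ range NT, μ v t * (μ v t / β) := by
        refine Finset.sum_le_sum fun t _ => mul_le_mul_of_nonneg_left ?_ (hμ0 v t)
        rw [div_le_iff₀ hβ0, mul_comm]
        exact hμle v t
      have hfin : ∑ t ∈ range NT, μ v t * (μ v t / β) = (∑ t ∈ range NT, μ v t ^ 2) / β := by
        rw [Finset.sum_div]
        exact Finset.sum_congr rfl fun t _ => by ring
      have h5 : 1 / A * Q v ^ 2 ≤ (∑ t ∈ range NT, μ v t ^ 2) / β := by
        rw [le_div_iff₀ hβ0, hβ]
        have : 1 / A * Q v ^ 2 * (A / NT) = Q v ^ 2 / NT := by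
          field_simp
        rw [this, div_le_iff₀ hNT', mul_comm]
        exact hcs
      linarith
    by_contra hcon
    push Not at hcon
    have hne : (Lv v).Nonempty := by
      by_contra hh
      rw [Finset.not_nonempty_iff_eq_empty] at hh
      have : W v = 0 := by
        rw [hW]
        simp only [hh, Finset.sum_empty]
      linarith
    have h2 : ∑ l ∈ Lv v, w l * ∑ t ∈ S l, μ v t <
        ∑ l ∈ Lv v, w l * (1 / A * Q v ^ 2 / W v) := by
      refine Finset.sum_lt_sum_of_nonempty hne fun l hl => ?_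
      exact mul_lt_mul_of_pos_left (hcon l hl) (hwpos l (Finset.mem_filter.1 hl).1)
    rw [← Finset.sum_mul] at h2
    have h3 : (∑ l ∈ Lv v, w l) * (1 / A * Q v ^ 2 / W v) = 1 / A * Q v ^ 2 :=
      mul_div_cancel₀ _ hn'.ne'
    linarith
  have : Nonempty Λ := by
    obtain ⟨ω, _, hω⟩ : ∃ ω ∈ (univ : Finset Ω), 0 < q ω := by
      by_contra hcon
      push Not at hcon
      have : ∑ ω, q ω ≤ 0 := Finset.sum_nonpos hcon
      rw [hq.sum_one] at this
      linarith
    exact ⟨lam ω⟩
  choose! st hst1 hst2 using hch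
  refine ⟨st, ?_⟩
  -- masses of the good nominal lines
  set θ : ℝ := η ^ 2 / (2 * A) with hθ
  have hθ0 : 0 < θ := by positivity
  set G : Finset N := V.filter fun v => θ * W v ≤ ∑ t ∈ S (st v), μ v t
    with hG
  have hVne : 0 < ∑ v ∈ V, W v := by
    have hne : V.Nonempty := by
      by_contra hcon
      rw [Finset.not_nonempty_iff_eq_empty] at hcon
      rw [hcon, Finset.sum_empty] at hsumQ
      linarith
    exact Finset.sum_pos (fun v hv => hnv v hv) hne
  have hcs2 : η ^ 2 / A ≤ ∑ v ∈ V, 1 / A * Q v ^ 2 / W v := by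
    have h1 := Finset.sq_sum_div_le_sum_sq_div V Q (g := W) (fun v hv => hnv v hv)
    have h2 : η ^ 2 ≤ (∑ v ∈ V, Q v) ^ 2 / ∑ v ∈ V, W v := by
      rw [le_div_iff₀ hVne]
      calc η ^ 2 * ∑ v ∈ V, W v ≤ η ^ 2 * 1 := mul_le_mul_of_nonneg_left hsumn (by positivity)
        _ = η ^ 2 := mul_one _
        _ ≤ (∑ v ∈ V, Q v) ^ 2 := pow_le_pow_left₀ hη.le hsumQ 2
    have h3 : ∑ v ∈ V, 1 / A * Q v ^ 2 / W v = 1 / A * ∑ v ∈ V, Q v ^ 2 / W v := by
      rw [Finset.mul_sum]
      exact Finset.sum_congr rfl fun v _ => by ring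
    rw [h3]
    calc η ^ 2 / A = 1 / A * η ^ 2 := by ring
      _ ≤ 1 / A * ∑ v ∈ V, Q v ^ 2 / W v :=
        mul_le_mul_of_nonneg_left (h2.trans h1) (by positivity)
  have hbad : ∑ v ∈ V.filter (fun v => ¬ θ * W v ≤
      ∑ t ∈ S (st v), μ v t), ∑ t ∈ S (st v), μ v t ≤ θ := by
    calc _ ≤ ∑ v ∈ V.filter (fun v => ¬ θ * W v ≤ ∑ t ∈ S (st v), μ v t), θ * W v := by
          refine Finset.sum_le_sum fun v hv => ?_
          exact (not_le.1 (Finset.mem_filter.1 hv).2).le
      _ ≤ ∑ v ∈ V, θ * W v :=
          Finset.sum_le_sum_of_subset_of_nonneg (Finset.filter_subset _ _)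
            fun v hv _ => mul_nonneg hθ0.le (hnv v hv).le
      _ = θ * ∑ v ∈ V, W v := by rw [Finset.mul_sum]
      _ ≤ θ * 1 := mul_le_mul_of_nonneg_left hsumn hθ0.le
      _ = θ := mul_one _
  have hgood : θ ≤ ∑ v ∈ G, ∑ t ∈ S (st v), μ v t := by
    have h1 : ∑ v ∈ V, ∑ t ∈ S (st v), μ v t =
        ∑ v ∈ G, ∑ t ∈ S (st v), μ v t + ∑ v ∈ V.filter (fun v => ¬ θ * W v ≤
          ∑ t ∈ S (st v), μ v t), ∑ t ∈ S (st v), μ v t := by
      rw [hG, Finset.sum_filter_add_sum_filter_not]
    have h2 : η ^ 2 / A ≤ ∑ v ∈ V, ∑ t ∈ S (st v), μ v t :=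
      hcs2.trans (Finset.sum_le_sum fun v hv => hst2 v hv)
    have h3 : η ^ 2 / A = θ + θ := by rw [hθ]; field_simp; norm_num
    linarith
  refine hgood.trans ?_
  -- rewrite as a sum over incidences
  have hdens : ∀ v ∈ G, η ^ 2 * NT / (2 * A ^ 2) ≤ (S (st v)).card := by
    intro v hv
    rw [hG, Finset.mem_filter] at hv
    have hn := hnv v hv.1
    have h1 : ∑ t ∈ S (st v), μ v t ≤ (S (st v)).card * (β * W v) := by
      rw [← nsmul_eq_mul]
      refine Finset.sum_le_card_nsmul _ _ _ fun t _ => (hμle v t).trans ?_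
      refine mul_le_mul_of_nonneg_left ?_ hβ0.le
      exact Finset.sum_le_sum_of_subset_of_nonneg (Finset.filter_subset _ _) fun l _ _ => hw0 l
    have h2 : θ * W v ≤ (S (st v)).card * β * W v := by
      calc θ * W v ≤ _ := hv.2
        _ ≤ _ := h1
        _ = (S (st v)).card * β * W v := by ring
    have h3 : θ ≤ (S (st v)).card * β := le_of_mul_le_mul_right h2 hn
    rw [hβ, hθ] at h3
    have h4 : (S (st v)).card * (A / NT) * (NT / A) = ((S (st v)).card : ℝ) := by
      field_simp
    calc η ^ 2 * NT / (2 * A ^ 2) = η ^ 2 / (2 * A) * (NT / A) := by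
          field_simp
      _ ≤ (S (st v)).card * (A / NT) * (NT / A) :=
          mul_le_mul_of_nonneg_right h3 (by positivity)
      _ = (S (st v)).card := h4
  calc ∑ v ∈ G, ∑ t ∈ S (st v), μ v t =
      ∑ v ∈ G, ∑ ω, ∑ t ∈ S (st v), (if E ω ∧ nom (lam ω) = v ∧ T ω = t then q ω else 0) := by
        rw [hμ]
        exact Finset.sum_congr rfl fun v _ => Finset.sum_comm
    _ = ∑ ω, ∑ v ∈ G, ∑ t ∈ S (st v), (if E ω ∧ nom (lam ω) = v ∧ T ω = t then q ω else 0) :=
        Finset.sum_comm
    _ ≤ _ := by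
        refine Finset.sum_le_sum fun ω _ => ?_
        by_cases hc : 0 < q ω ∧ E ω ∧ nom (st (nom (lam ω))) = nom (lam ω) ∧
          T ω ∈ tme q E lam T (st (nom (lam ω))) ∧
          η ^ 2 * NT / (2 * A ^ 2) ≤ (tme q E lam T (st (nom (lam ω)))).card
        · rw [if_pos hc]
          calc ∑ v ∈ G, ∑ t ∈ S (st v), (if E ω ∧ nom (lam ω) = v ∧ T ω = t then q ω else 0) ≤
              ∑ v ∈ G, (if nom (lam ω) = v then q ω else 0) := by
                refine Finset.sum_le_sum fun v _ => ?_
                by_cases hv : nom (lam ω) = v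
                · simp only [hv, hc.2.1, true_and, if_true]
                  rw [Finset.sum_ite_eq]
                  split_ifs
                  · exact le_rfl
                  · exact hq0 ω
                · simp only [hv, false_and, and_false, if_false, Finset.sum_const_zero, le_refl]
            _ ≤ q ω := by
                rw [Finset.sum_ite_eq]
                split_ifs
                · exact le_rfl
                · exact hq0 ω
        · rw [if_neg hc]
          refine Finset.sum_nonpos fun v hv => Finset.sum_nonpos fun t ht => ?_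
          by_cases h1 : E ω ∧ nom (lam ω) = v ∧ T ω = t
          · rw [if_pos h1]
            by_contra hcon
            push Not at hcon
            apply hc
            have hv' := hv
            rw [hG, Finset.mem_filter] at hv'
            have hl := hst1 v hv'.1
            rw [hLv, Finset.mem_filter] at hl
            rw [h1.2.1]
            refine ⟨hcon, h1.1, hl.2, ?_, hdens v hv⟩
            rw [h1.2.2]
            exact ht
          · rw [if_neg h1]

end Pool.REG
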