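import Pool.Agent.H37.REG.Star2

/-!
# Typical incidences and the choice of a point event

Module REG (regularity of closed labels).
-/

set_option autoImplicit false

namespace Pool.REG

open Finset Real
open Pool.Agent.H49.Ent Pool.Agent.H32.Dense Pool.STK Pool.KAL

/-- The mass of an event. -/
noncomputable def ms {Ω : Type} [Fintype Ω] (p : Ω → ℝ) (E : Ω → Prop) : ℝ :=
  ∑ ω, (open Classical in if E ω then p ω else 0)

lemma ms_nonneg {Ω : Type} [Fintype Ω] {p : Ω → ℝ} (hp : ∀ ω, 0 ≤ p ω) (E : Ω → Prop) :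
    0 ≤ ms p E := by
  unfold ms
  refine Finset.sum_nonneg fun ω _ => ?_
  split_ifs
  · exact hp ω
  · exact le_rfl

lemma ms_mono {Ω : Type} [Fintype Ω] {p : Ω → ℝ} (hp : ∀ ω, 0 ≤ p ω) {E F : Ω → Prop}
    (h : ∀ ω, 0 < p ω → E ω → F ω) : ms p E ≤ ms p F := by
  unfold ms
  refine Finset.sum_le_sum fun ω _ => ?_
  rcases (hp ω).eq_or_lt with h0 | h0
  · rw [← h0]
    simp
  · by_cases a : E ω
    · rw [if_pos a, if_pos (h ω h0 a)]
    · rw [if_neg a]
      split_ifs
      · exact hp ω
      · exact le_rfl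

lemma ms_or {Ω : Type} [Fintype Ω] {p : Ω → ℝ} (hp : ∀ ω, 0 ≤ p ω) (E F : Ω → Prop) :
    ms p (fun ω => E ω ∨ F ω) ≤ ms p E + ms p F := by
  unfold ms
  rw [← Finset.sum_add_distrib]
  refine Finset.sum_le_sum fun ω _ => ?_
  have := hp ω
  by_cases a : E ω <;> by_cases b : F ω <;> simp [a, b, this]

lemma ms_not {Ω : Type} [Fintype Ω] {p : Ω → ℝ} (hp : IsLaw p) (E : Ω → Prop) :
    ms p (fun ω => ¬ E ω) = 1 - ms p E := by
  unfold ms
  rw [← hp.sum_one, ← Finset.sum_sub_distrib]
  refine Finset.sum_congr rfl fun ω _ => ?_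
  by_cases a : E ω <;> simp [a]

lemma law_eq_ms {Ω S : Type} [Fintype Ω] (p : Ω → ℝ) (X : Ω → S) (s : S) :
    law p X s = ms p (fun ω => X ω = s) := rfl

/-- Decomposition of the mass of an event according to the values of a function. -/
lemma ms_eq_sum {Ω S : Type} [Fintype Ω] [DecidableEq S] (p : Ω → ℝ) (X : Ω → S) (E : Ω → Prop)
    {F : Finset S} (hF : ∀ ω, E ω → p ω ≠ 0 → X ω ∈ F) :
    ms p E = ∑ s ∈ F, ms p (fun ω => X ω = s ∧ E ω) := by
  classical
  unfold ms
  rw [Finset.sum_comm]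
  refine Finset.sum_congr rfl fun ω _ => ?_
  by_cases a : E ω
  · by_cases h0 : p ω = 0
    · rw [h0]
      simp
    · rw [if_pos a, Finset.sum_eq_single (X ω)]
      · rw [if_pos ⟨rfl, a⟩]
      · intro s _ hs
        rw [if_neg (fun h => hs h.1.symm)]
      · intro h
        exact absurd (hF ω a h0) h
  · rw [if_neg a]
    symm
    refine Finset.sum_eq_zero fun s _ => ?_
    rw [if_neg (fun h => a h.2)]

/-- Markov's inequality for a relative entropy. -/
lemma klm {Ω S : Type} [Fintype Ω] {p : Ω → ℝ} (hp : IsLaw p) (X : Ω → S) (r : S → ℝ)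
    (hr : ∀ ω, 0 < p ω → 0 < r (X ω))
    (hsum : ∑ s ∈ (open Classical in (univ.filter fun ω => 0 < p ω).image X), r s ≤ 1)
    {h θ : ℝ} (h0 : 0 ≤ h)
    (hθ : 0 < θ) (hh : -H p X - ∑ ω, p ω * Real.log (r (X ω)) ≤ h) :
    ms p (fun ω => Real.exp ((h + 1) / θ) * r (X ω) < law p X (X ω)) ≤ θ := by
  classical
  have hp0 := hp.nonneg
  have key : ∀ ω, (if Real.exp ((h + 1) / θ) * r (X ω) < law p X (X ω) then p ω else 0) *
      ((h + 1) / θ) ≤ p ω * (Real.log (law p X (X ω)) - Real.log (r (X ω))) +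
        p ω * (r (X ω) / law p X (X ω)) := by
    intro ω
    rcases (hp0 ω).eq_or_lt with h1 | h1
    · rw [← h1]
      simp
    · have hl := law_pos hp0 X h1
      have hrr := hr ω h1
      have hneg : Real.log (r (X ω)) - Real.log (law p X (X ω)) ≤ r (X ω) / law p X (X ω) := by
        rw [← Real.log_div hrr.ne' hl.ne']
        exact (Real.log_le_sub_one_of_pos (by positivity)).trans (by linarith)
      split_ifs with hc
      · have h2 : (h + 1) / θ ≤ Real.log (law p X (X ω)) - Real.log (r (X ω)) := by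
          rw [← Real.log_div hl.ne' hrr.ne']
          have h3 : Real.exp ((h + 1) / θ) ≤ law p X (X ω) / r (X ω) := by
            rw [le_div_iff₀ hrr]
            exact hc.le
          calc (h + 1) / θ = Real.log (Real.exp ((h + 1) / θ)) := (Real.log_exp _).symm
            _ ≤ _ := Real.log_le_log (Real.exp_pos _) h3
        have h4 : 0 ≤ p ω * (r (X ω) / law p X (X ω)) := by positivity
        have h5 := mul_le_mul_of_nonneg_left h2 h1.le
        linarith
      · rw [zero_mul]
        have h5 := mul_le_mul_of_nonneg_left hneg h1.le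
        nlinarith
  have h1 := Finset.sum_le_sum fun ω (_ : ω ∈ (univ : Finset Ω)) => key ω
  rw [← Finset.sum_mul, Finset.sum_add_distrib] at h1
  have h2 : ∑ ω, p ω * (Real.log (law p X (X ω)) - Real.log (r (X ω))) ≤ h := by
    refine le_trans (le_of_eq ?_) hh
    unfold H
    rw [neg_neg, ← Finset.sum_sub_distrib]
    exact Finset.sum_congr rfl fun ω _ => by ring
  have h3 : ∑ ω, p ω * (r (X ω) / law p X (X ω)) ≤ 1 := by
    refine le_trans (le_of_eq ?_) hsum
    set F : Finset S := (univ.filter fun ω => 0 < p ω).image X with hF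
    calc ∑ ω, p ω * (r (X ω) / law p X (X ω)) =
        ∑ ω, ∑ s ∈ F, (if X ω = s then p ω * (r s / law p X s) else 0) := by
          refine Finset.sum_congr rfl fun ω _ => ?_
          rw [Finset.sum_ite_eq]
          split_ifs with hm
          · rfl
          · rcases (hp0 ω).eq_or_lt with h4 | h4
            · rw [← h4]
              simp
            · exact absurd (Finset.mem_image.2 ⟨ω, by simp [h4], rfl⟩) hm
      _ = ∑ s ∈ F, ∑ ω, (if X ω = s then p ω * (r s / law p X s) else 0) := Finset.sum_comm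
      _ = ∑ s ∈ F, r s := by
          refine Finset.sum_congr rfl fun s hs => ?_
          rw [hF, Finset.mem_image] at hs
          obtain ⟨ω, hω, rfl⟩ := hs
          have hl := law_pos hp0 X (show 0 < p ω by simpa using hω)
          have h4 : ∀ ω', (if X ω' = X ω then p ω' * (r (X ω) / law p X (X ω)) else 0) =
              (if X ω' = X ω then p ω' else 0) * (r (X ω) / law p X (X ω)) := by
            intro ω'
            split_ifs <;> simp
          rw [Finset.sum_congr rfl fun ω' _ => h4 ω', ← Finset.sum_mul]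
          show law p X (X ω) * (r (X ω) / law p X (X ω)) = r (X ω)
          field_simp
  have h4 : ms p (fun ω => Real.exp ((h + 1) / θ) * r (X ω) < law p X (X ω)) * ((h + 1) / θ) ≤
      h + 1 := by
    unfold ms
    linarith
  have h5 : ms p (fun ω => Real.exp ((h + 1) / θ) * r (X ω) < law p X (X ω)) * ((h + 1) / θ) ≤
      θ * ((h + 1) / θ) := by
    rw [mul_div_cancel₀ _ hθ.ne']
    exact h4
  exact le_of_mul_le_mul_right h5 (by positivity)

/-- Markov's inequality for a conditional entropy. -/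
lemma chm {Ω S U : Type} [Fintype Ω] {p : Ω → ℝ} (hp : IsLaw p) (X : Ω → S) (V : Ω → U)
    {h θ : ℝ} (h0 : 0 < h) (hθ : 0 < θ) (hh : CH p V X ≤ h) :
    ms p (fun ω => law p (fun ω => (V ω, X ω)) (V ω, X ω) <
      Real.exp (-(h / θ)) * law p X (X ω)) ≤ θ := by
  classical
  have hp0 := hp.nonneg
  have key : ∀ ω, (if law p (fun ω => (V ω, X ω)) (V ω, X ω) <
      Real.exp (-(h / θ)) * law p X (X ω) then p ω else 0) * (h / θ) ≤
      p ω * Real.log (law p X (X ω)) -
        p ω * Real.log (law p (fun ω => (V ω, X ω)) (V ω, X ω)) := by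
    intro ω
    rcases (hp0 ω).eq_or_lt with h1 | h1
    · rw [← h1]
      simp
    · have hl := law_pos hp0 X h1
      have hl2 := law_pos hp0 (fun ω => (V ω, X ω)) h1
      have hle : law p (fun ω => (V ω, X ω)) (V ω, X ω) ≤ law p X (X ω) := by
        unfold law
        refine Finset.sum_le_sum fun ω' _ => ?_
        by_cases a : (V ω', X ω') = (V ω, X ω)
        · rw [if_pos a, if_pos (congrArg Prod.snd a)]
        · rw [if_neg a]
          split_ifs
          · exact hp0 ω'
          · exact le_rfl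
      split_ifs with hc
      · have h2 : h / θ ≤ Real.log (law p X (X ω)) -
            Real.log (law p (fun ω => (V ω, X ω)) (V ω, X ω)) := by
          have h3 := Real.log_lt_log hl2 hc
          rw [Real.log_mul (Real.exp_pos _).ne' hl.ne', Real.log_exp] at h3
          linarith
        have := mul_le_mul_of_nonneg_left h2 h1.le
        linarith
      · rw [zero_mul]
        have h3 := Real.log_le_log hl2 hle
        have := mul_le_mul_of_nonneg_left h3 h1.le
        linarith
  have h1 := Finset.sum_le_sum fun ω (_ : ω ∈ (univ : Finset Ω)) => key ω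
  rw [← Finset.sum_mul, Finset.sum_sub_distrib] at h1
  have h2 : ∑ ω, p ω * Real.log (law p X (X ω)) -
      ∑ ω, p ω * Real.log (law p (fun ω => (V ω, X ω)) (V ω, X ω)) = CH p V X := by
    unfold CH H
    ring
  rw [h2] at h1
  have h5 : ms p (fun ω => law p (fun ω => (V ω, X ω)) (V ω, X ω) <
      Real.exp (-(h / θ)) * law p X (X ω)) * (h / θ) ≤ θ * (h / θ) := by
    rw [mul_div_cancel₀ _ hθ.ne']
    unfold ms
    linarith
  exact le_of_mul_le_mul_right h5 (by positivity)

/-- The choice of a colour and of one value in every cell. -/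
lemma select {Ω Γ V κ : Type} [Fintype Ω] [Fintype κ] {p : Ω → ℝ} (hp : IsLaw p)
    (cell : Ω → Γ) (val : Ω → V) (col : Γ → κ) (E : Ω → Prop) {c : ℝ} (hc : 0 < c)
    (hE : ms p (fun ω => ¬ E ω) ≤ 1 / 64)
    (hv : ms p (fun ω => law p (fun ω => (val ω, cell ω)) (val ω, cell ω) <
      c * law p cell (cell ω)) ≤ 1 / 4) :
    ∃ S : Ω → Prop, (∀ ω ω', cell ω = cell ω' → val ω = val ω' → S ω → S ω') ∧
      (∀ ω ω', S ω → S ω' → cell ω = cell ω' → val ω = val ω') ∧
      (∀ ω ω', S ω → S ω' → col (cell ω) = col (cell ω')) ∧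
      c / (2 * Fintype.card κ) ≤ ms p S ∧
      ∀ ω, S ω → ms p (fun ω' => cell ω' = cell ω ∧ S ω' ∧ ¬ E ω') ≤
          1 / 16 * ms p (fun ω' => cell ω' = cell ω ∧ S ω') ∧
        c * law p cell (cell ω) ≤ ms p (fun ω' => cell ω' = cell ω ∧ S ω') := by
  classical
  have hp0 := hp.nonneg
  set L2 : Γ → V → ℝ := fun γ v => ms p (fun ω => cell ω = γ ∧ val ω = v) with hL2
  have hL2eq : ∀ ω, law p (fun ω => (val ω, cell ω)) (val ω, cell ω) = L2 (cell ω) (val ω) := by
    intro ω
    rw [hL2, law_eq_ms]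
    unfold ms
    refine Finset.sum_congr rfl fun ω' _ => ?_
    by_cases a : cell ω' = cell ω ∧ val ω' = val ω
    · rw [if_pos a, if_pos (by simp only [a.1, a.2])]
    · rw [if_neg a, if_neg (fun h => a ⟨congrArg Prod.snd h, congrArg Prod.fst h⟩)]
  set good : Γ → V → Prop := fun γ v => c * law p cell γ ≤ L2 γ v ∧
    ms p (fun ω => cell ω = γ ∧ val ω = v ∧ ¬ E ω) ≤ 1 / 16 * L2 γ v with hgood
  -- most incidences are in good pairs
  have hbad2 : ms p (fun ω => ¬ ms p (fun ω' => cell ω' = cell ω ∧ val ω' = val ω ∧ ¬ E ω') ≤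
      1 / 16 * L2 (cell ω) (val ω)) ≤ 1 / 4 := by
    set F : Finset (Γ × V) := (univ.image fun ω => (cell ω, val ω)) with hF
    set B : Γ × V → Prop := fun s => ¬ ms p (fun ω' => cell ω' = s.1 ∧ val ω' = s.2 ∧ ¬ E ω') ≤
      1 / 16 * L2 s.1 s.2 with hB
    have h1 : ms p (fun ω => B (cell ω, val ω)) =
        ∑ s ∈ F, ms p (fun ω => (cell ω, val ω) = s ∧ B (cell ω, val ω)) :=
      ms_eq_sum p _ _ fun ω _ _ => Finset.mem_image_of_mem _ (Finset.mem_univ ω)
    have h2 : ∀ s ∈ F, ms p (fun ω => (cell ω, val ω) = s ∧ B (cell ω, val ω)) ≤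
        16 * ms p (fun ω => (cell ω, val ω) = s ∧ ¬ E ω) := by
      intro s _
      by_cases hBs : B s
      · have e1 : ms p (fun ω => (cell ω, val ω) = s ∧ B (cell ω, val ω)) ≤ L2 s.1 s.2 := by
          rw [hL2]
          refine ms_mono hp0 fun ω _ h => ?_
          have := h.1
          exact ⟨by rw [← this], by rw [← this]⟩
        have e2 : ms p (fun ω' => cell ω' = s.1 ∧ val ω' = s.2 ∧ ¬ E ω') ≤
            ms p (fun ω => (cell ω, val ω) = s ∧ ¬ E ω) := by
          refine ms_mono hp0 fun ω _ h => ⟨?_, h.2.2⟩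
          exact Prod.ext h.1 h.2.1
        have e3 := not_le.1 hBs
        linarith
      · have e1 : ms p (fun ω => (cell ω, val ω) = s ∧ B (cell ω, val ω)) ≤ 0 := by
          unfold ms
          refine Finset.sum_nonpos fun ω _ => ?_
          rw [if_neg]
          rintro ⟨h3, h4⟩
          rw [h3] at h4
          exact hBs h4
        have e2 := ms_nonneg hp0 (fun ω => (cell ω, val ω) = s ∧ ¬ E ω)
        linarith
    have h3 : ms p (fun ω => ¬ E ω) = ∑ s ∈ F, ms p (fun ω => (cell ω, val ω) = s ∧ ¬ E ω) :=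
      ms_eq_sum p _ _ fun ω _ _ => Finset.mem_image_of_mem _ (Finset.mem_univ ω)
    have h4 : ms p (fun ω => B (cell ω, val ω)) ≤ 16 * ms p (fun ω => ¬ E ω) := by
      rw [h1, h3, Finset.mul_sum]
      exact Finset.sum_le_sum h2
    have h5 : 16 * ms p (fun ω => ¬ E ω) ≤ 1 / 4 := by linarith
    exact h4.trans h5
  have hgoodmass : 1 / 2 ≤ ms p (fun ω => good (cell ω) (val ω)) := by
    have h1 : ms p (fun ω => ¬ good (cell ω) (val ω)) ≤ 1 / 4 + 1 / 4 := by
      refine le_trans (ms_mono hp0 (F := fun ω => law p (fun ω => (val ω, cell ω))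
        (val ω, cell ω) < c * law p cell (cell ω) ∨
        ¬ ms p (fun ω' => cell ω' = cell ω ∧ val ω' = val ω ∧ ¬ E ω') ≤
          1 / 16 * L2 (cell ω) (val ω)) fun ω _ h => ?_)
        ((ms_or hp0 _ _).trans (add_le_add hv hbad2))
      rw [hgood, not_and_or] at h
      rcases h with h | h
      · left
        rw [hL2eq]
        exact not_le.1 h
      · right
        exact h
    have h2 := ms_not hp (fun ω => good (cell ω) (val ω))
    linarith
  -- good cells
  set v : Γ → V := fun γ => if h : ∃ v, good γ v then h.choose else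
    (if h : Nonempty V then h.some else by
      have : Nonempty Ω := by
        by_contra hc
        rw [not_nonempty_iff] at hc
        have := hp.sum_one
        rw [Finset.univ_eq_empty, Finset.sum_empty] at this
        norm_num at this
      exact (h ⟨val this.some⟩).elim) with hvdef
  have hvg : ∀ γ, (∃ v, good γ v) → good γ (v γ) := by
    intro γ h
    rw [hvdef]
    simp only
    rw [dif_pos h]
    exact h.choose_spec
  set Cg : Finset Γ := (univ.image cell).filter fun γ => ∃ v, good γ v with hCg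
  have hCgmass : 1 / 2 ≤ ∑ γ ∈ Cg, law p cell γ := by
    have h1 : ms p (fun ω => good (cell ω) (val ω)) ≤ ms p (fun ω => cell ω ∈ Cg) := by
      refine ms_mono hp0 fun ω _ h => ?_
      rw [hCg, Finset.mem_filter]
      exact ⟨Finset.mem_image_of_mem _ (Finset.mem_univ _), _, h⟩
    have h2 : ms p (fun ω => cell ω ∈ Cg) = ∑ γ ∈ Cg, ms p (fun ω => cell ω = γ ∧ cell ω ∈ Cg) :=
      ms_eq_sum p _ _ fun ω h _ => h
    have h3 : ∀ γ ∈ Cg, ms p (fun ω => cell ω = γ ∧ cell ω ∈ Cg) ≤ law p cell γ := by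
      intro γ _
      rw [law_eq_ms]
      exact ms_mono hp0 fun ω _ h => h.1
    have h4 := Finset.sum_le_sum h3
    linarith
  have hCgmass2 : c / 2 ≤ ∑ γ ∈ Cg, L2 γ (v γ) := by
    have h1 : ∀ γ ∈ Cg, c * law p cell γ ≤ L2 γ (v γ) := by
      intro γ hγ
      rw [hCg, Finset.mem_filter] at hγ
      exact (hvg γ hγ.2).1
    have h2 := Finset.sum_le_sum h1
    rw [← Finset.mul_sum] at h2
    have h3 := mul_le_mul_of_nonneg_left hCgmass hc.le
    linarith
  -- the colour
  obtain ⟨r, hr⟩ : ∃ r : κ, c / (2 * Fintype.card κ) ≤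
      ∑ γ ∈ Cg.filter (fun γ => col γ = r), L2 γ (v γ) := by
    by_contra hcon
    push Not at hcon
    have h1 : ∑ γ ∈ Cg, L2 γ (v γ) = ∑ r : κ, ∑ γ ∈ Cg.filter (fun γ => col γ = r), L2 γ (v γ) :=
      (Finset.sum_fiberwise_of_maps_to (fun γ _ => Finset.mem_univ (col γ)) _).symm
    have hne : (univ : Finset κ).Nonempty := by
      by_contra hcc
      rw [Finset.not_nonempty_iff_eq_empty] at hcc
      rw [hcc, Finset.sum_empty] at h1
      linarith
    have hcard : (0 : ℝ) < Fintype.card κ := by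
      rw [← Finset.card_univ]
      exact_mod_cast Finset.card_pos.2 hne
    have h2 : ∑ r : κ, ∑ γ ∈ Cg.filter (fun γ => col γ = r), L2 γ (v γ) <
        ∑ _r : κ, c / (2 * Fintype.card κ) :=
      Finset.sum_lt_sum_of_nonempty hne fun r _ => hcon r
    rw [Finset.sum_const, Finset.card_univ, nsmul_eq_mul] at h2
    have h3 : (Fintype.card κ : ℝ) * (c / (2 * Fintype.card κ)) = c / 2 := by
      field_simp
    linarith
  set S : Ω → Prop := fun ω => cell ω ∈ Cg ∧ col (cell ω) = r ∧ val ω = v (cell ω) with hS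
  have hScell : ∀ γ, γ ∈ Cg → col γ = r →
      ∀ E' : Ω → Prop, ms p (fun ω => cell ω = γ ∧ S ω ∧ E' ω) =
        ms p (fun ω => cell ω = γ ∧ val ω = v γ ∧ E' ω) := by
    intro γ h1 h2 E'
    unfold ms
    refine Finset.sum_congr rfl fun ω _ => ?_
    by_cases a : cell ω = γ
    · by_cases b : val ω = v γ
      · by_cases e : E' ω
        · rw [if_pos ⟨a, ⟨by rw [a]; exact h1, by rw [a]; exact h2, by rw [a]; exact b⟩, e⟩,
            if_pos ⟨a, b, e⟩]
        · rw [if_neg (fun h => e h.2.2), if_neg (fun h => e h.2.2)]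
      · rw [if_neg, if_neg (fun h => b h.2.1)]
        rintro ⟨_, h, _⟩
        have := h.2.2
        rw [a] at this
        exact b this
    · rw [if_neg (fun h => a h.1), if_neg (fun h => a h.1)]
  have hScell' : ∀ γ, γ ∈ Cg → col γ = r →
      ms p (fun ω => cell ω = γ ∧ S ω) = L2 γ (v γ) := by
    intro γ h1 h2
    have := hScell γ h1 h2 (fun _ => True)
    simp only [and_true] at this
    exact this
  refine ⟨S, ?_, ?_, ?_, ?_, ?_⟩
  · intro ω ω' h1 h2 h3
    exact ⟨h1 ▸ h3.1, h1 ▸ h3.2.1, by rw [← h1, ← h2]; exact h3.2.2⟩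
  · intro ω ω' h1 h2 h3
    rw [h1.2.2, h2.2.2, h3]
  · intro ω ω' h1 h2
    rw [h1.2.1, h2.2.1]
  · refine hr.trans ?_
    have h1 : ms p S = ∑ γ ∈ Cg.filter (fun γ => col γ = r), ms p (fun ω => cell ω = γ ∧ S ω) :=
      ms_eq_sum p _ _ fun ω h _ => Finset.mem_filter.2 ⟨h.1, h.2.1⟩
    rw [h1]
    refine Finset.sum_le_sum fun γ hγ => ?_
    rw [Finset.mem_filter] at hγ
    rw [hScell' γ hγ.1 hγ.2]
  · intro ω hω
    have hg := hvg (cell ω) (by
      have := hω.1
      rw [hCg, Finset.mem_filter] at this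
      exact this.2)
    rw [hScell (cell ω) hω.1 hω.2.1, hScell' (cell ω) hω.1 hω.2.1]
    exact ⟨hg.2, hg.1⟩

end Pool.REG
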